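import Mathlib
import Pool.Agent.H671T.Df

set_option autoImplicit false

/-! Further definability calculus over the real field. -/

namespace Pool.Agent.TH735

open FirstOrder FirstOrder.Language Set Filter Topology
open Pool.Agent.H671T

/-- The structure expands the ordered field of real numbers. -/
class RF (L : FirstOrder.Language.{0, 0}) [L.Structure ℝ] : Prop where
  add : (∅ : Set ℝ).Definable L {v : Fin 3 → ℝ | v 0 + v 1 = v 2}
  mul : (∅ : Set ℝ).Definable L {v : Fin 3 → ℝ | v 0 * v 1 = v 2}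
  lt : (∅ : Set ℝ).Definable L {v : Fin 2 → ℝ | v 0 < v 1}

variable {L : FirstOrder.Language.{0, 0}} [L.Structure ℝ] [RF L]

section

variable {α β γ : Type} [Finite α]

omit [RF L] in
theorem Deq {f g : (α → ℝ) → ℝ} (hf : DfF L f) (hg : DfF L g) : Df L (fun v => f v = g v) :=
  Df.eq hf hg

theorem Dlt {f g : (α → ℝ) → ℝ} (hf : DfF L f) (hg : DfF L g) : Df L (fun v => f v < g v) :=
  Df.lt RF.lt hf hg

theorem Dle {f g : (α → ℝ) → ℝ} (hf : DfF L f) (hg : DfF L g) : Df L (fun v => f v ≤ g v) :=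
  Df.le RF.lt hf hg

theorem Dadd {f g : (α → ℝ) → ℝ} (hf : DfF L f) (hg : DfF L g) : DfF L (fun v => f v + g v) :=
  DfF.add RF.add hf hg

theorem Dsub {f g : (α → ℝ) → ℝ} (hf : DfF L f) (hg : DfF L g) : DfF L (fun v => f v - g v) :=
  DfF.sub RF.add hf hg

theorem Dneg {f : (α → ℝ) → ℝ} (hf : DfF L f) : DfF L (fun v => - f v) := by
  have h := Dsub (DfF.const (L := L) (α := α) 0) hf
  simpa using h

theorem Dabs {f : (α → ℝ) → ℝ} (hf : DfF L f) : DfF L (fun v => |f v|) :=
  DfF.abs RF.lt RF.add hf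

theorem Dmul {f g : (α → ℝ) → ℝ} (hf : DfF L f) (hg : DfF L g) : DfF L (fun v => f v * g v) := by
  have h0 : Df L (fun v : Fin 3 → ℝ => v 0 * v 1 = v 2) :=
    Set.Definable.mono RF.mul (Set.empty_subset _)
  have h1 : Df L (fun v : Option (Option (Option α)) → ℝ =>
      v (some (some none)) = v (some none) * v none) :=
    (h0.relabel (![some none, none, some (some none)] : Fin 3 → Option (Option (Option α)))).congr
      fun v => by simp [eq_comm]
  have h2 : Df L (fun v : Option (Option α) → ℝ =>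
      v (some none) = v none * g (fun i => v (some (some i)))) :=
    Df.subst (Q := fun y (v : Option (Option α) → ℝ) => v (some none) = v none * y) h1
      (hg.relabel (fun i => some (some i)))
  exact Df.subst (Q := fun y (v : Option α → ℝ) => v none = y * g (fun i => v (some i))) h2
    (hf.relabel some)

omit [RF L] in
theorem Dvar {α : Type} (i : α) : DfF L (fun v : α → ℝ => v i) := DfF.var i

omit [RF L] in
theorem Dconst {α : Type} (c : ℝ) : DfF L (fun _ : α → ℝ => c) := DfF.const c

/-- Definability of a set of reals. -/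
def D1 (L : FirstOrder.Language.{0, 0}) [L.Structure ℝ] (C : Set ℝ) : Prop :=
  Df L (fun v : Unit → ℝ => v () ∈ C)

omit [RF L] in
theorem D1.mem {C : Set ℝ} (h : D1 L C) {f : (α → ℝ) → ℝ} (hf : DfF L f) :
    Df L (fun v => f v ∈ C) :=
  Df.subst (Q := fun y _ => y ∈ C)
    (Df.relabel (fun _ => none : Unit → Option α) h) hf

omit [RF L] in
/-- Substituting a tuple of definable functions in a definable relation. -/
theorem Df.substT [Finite β] {P : (β → ℝ) → Prop} (h : Df L P) {f : β → (α → ℝ) → ℝ}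
    (hf : ∀ j, DfF L (f j)) : Df L (fun v => P (fun j => f j v)) := by
  have h1 : Df L (fun v : α → ℝ => ∃ y : β → ℝ, (∀ j, y j = f j v) ∧ P y) := by
    refine Df.exT (Q := fun y v => (∀ j, y j = f j v) ∧ P y) ?_
    refine (Df.all_fin fun j => ?_).and ?_
    · exact Df.eq (DfF.var _) ((hf j).relabel Sum.inl)
    · exact h.relabel Sum.inr
  refine h1.congr fun v => ?_
  constructor
  · rintro ⟨y, hy, hP⟩
    have : y = fun j => f j v := funext hy
    rwa [← this]
  · intro h
    exact ⟨_, fun j => rfl, h⟩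

/-- The closure of a definable set is definable. -/
theorem Df.closure {P : (α → ℝ) → Prop} (h : Df L P) :
    Df L (fun v => v ∈ closure {x | P x}) := by
  have h1 : Df L (fun v : α → ℝ => ∀ ε, 0 < ε → ∃ y : α → ℝ, (∀ i, |v i - y i| < ε) ∧ P y) := by
    refine Df.all1 (Q := fun ε v => 0 < ε → ∃ y : α → ℝ, (∀ i, |v i - y i| < ε) ∧ P y) ?_
    refine Df.imp (Dlt (Dconst 0) (Dvar _)) ?_
    refine Df.exT (Q := fun y (v : Option α → ℝ) => (∀ i, |v (some i) - y i| < v none) ∧ P y) ?_
    refine (Df.all_fin fun i => ?_).and ?_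
    · exact Dlt (Dabs (Dsub (Dvar _) (Dvar _))) (Dvar _)
    · exact h.relabel Sum.inr
  refine h1.congr fun v => ?_
  have := Fintype.ofFinite α
  rw [Metric.mem_closure_iff]
  constructor
  · intro H ε hε
    obtain ⟨y, hy, hP⟩ := H ε hε
    refine ⟨y, hP, ?_⟩
    rw [dist_pi_lt_iff hε]
    intro i
    rw [Real.dist_eq]
    exact hy i
  · intro H ε hε
    obtain ⟨y, hP, hy⟩ := H ε hε
    rw [dist_pi_lt_iff hε] at hy
    refine ⟨y, fun i => ?_, hP⟩
    rw [← Real.dist_eq]
    exact hy i

end

end Pool.Agent.TH735
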