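import Mathlib

set_option autoImplicit false

/-! Continuous families of closed nowhere dense sets of reals over connected spaces: bands in the
complement and leaves. -/

namespace Pool.Agent.TH735

open Set Filter Topology

variable {S : Type} [TopologicalSpace S]

/-- A continuous family of closed nowhere dense sets of reals over a space. -/
structure Fam (E : S → Set ℝ) : Prop where
  closed : IsClosed {p : S × ℝ | p.2 ∈ E p.1}
  lsc : ∀ s y, y ∈ E s → ∀ ε, 0 < ε → ∀ᶠ s' in 𝓝 s, ∃ y' ∈ E s', |y' - y| < ε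
  nd : ∀ s, interior (E s) = ∅

/-- A union of gaps, relatively clopen and locally bounded. -/
structure Clump (E : S → Set ℝ) (W : S → Set ℝ) : Prop where
  sub : ∀ s y, y ∈ W s → y ∉ E s
  opn : ∀ s y, y ∈ W s → ∀ᶠ p in 𝓝 (s, y), p.2 ∈ W p.1
  cls : ∀ s y, y ∉ E s → y ∉ W s → ∀ᶠ p in 𝓝 (s, y), p.2 ∉ W p.1
  sat : ∀ s y y', y ∈ W s → (∀ z ∈ uIcc y y', z ∉ E s) → y' ∈ W s
  bdd : ∀ s, ∃ η > 0, ∃ R, 0 ≤ R ∧ ∀ᶠ s' in 𝓝 s, ∀ y ∈ W s', ∃ a b, a < y ∧ y < b ∧ a ≤ R ∧
    -R ≤ b ∧ 2 * η ≤ b - a ∧ ∀ z ∈ Ioo a b, z ∉ E s'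

/-- The leftmost gaps of a clump. -/
def Lm (E W : S → Set ℝ) : S → Set ℝ :=
  fun s => {y | y ∈ W s ∧ ∀ y' < y, y' ∈ W s → ∀ z ∈ Icc y' y, z ∉ E s}

variable {E W : S → Set ℝ}

theorem Fam.ev_notMem (h : Fam E) {s : S} {y : ℝ} (hy : y ∉ E s) :
    ∀ᶠ p in 𝓝 (s, y), p.2 ∉ E p.1 :=
  h.closed.isOpen_compl.mem_nhds hy

theorem Fam.notFree (h : Fam E) {s : S} {z η : ℝ} (hz : ∃ y ∈ E s, |y - z| < η) :
    ∀ᶠ p in 𝓝 (s, z), ∃ y ∈ E p.1, |y - p.2| < η := by
  obtain ⟨y, hy, hyz⟩ := hz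
  have h1 := h.lsc s y hy ((η - |y - z|) / 2) (by linarith)
  have h2 : ∀ᶠ z' in 𝓝 z, |z' - z| < (η - |y - z|) / 2 := by
    have : Metric.ball z ((η - |y - z|) / 2) ∈ 𝓝 z := Metric.ball_mem_nhds _ (by linarith)
    filter_upwards [this] with z' hz'
    rwa [Metric.mem_ball, Real.dist_eq] at hz'
  rw [nhds_prod_eq]
  filter_upwards [h1.prod_mk h2] with p hp
  obtain ⟨⟨y', hy', h3⟩, h4⟩ := hp
  refine ⟨y', hy', ?_⟩
  have : y' - p.2 = (y' - y) + (y - z) - (p.2 - z) := by ring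
  rw [this]
  calc |(y' - y) + (y - z) - (p.2 - z)| ≤ |(y' - y) + (y - z)| + |p.2 - z| := abs_sub _ _
    _ ≤ |y' - y| + |y - z| + |p.2 - z| := by gcongr; exact abs_add_le _ _
    _ < η := by linarith

theorem Fam.ev_between (h : Fam E) {s : S} {u e v : ℝ} (he : e ∈ E s) (h1 : u < e) (h2 : e < v) :
    ∀ᶠ p in 𝓝 (s, u, v), ∃ e ∈ E p.1, p.2.1 < e ∧ e < p.2.2 := by
  set δ := min (e - u) (v - e) / 2 with hδ
  have hδ0 : 0 < δ := by
    have : 0 < min (e - u) (v - e) := lt_min (by linarith) (by linarith)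
    linarith
  have hδ1 : 2 * δ ≤ e - u := by
    have := min_le_left (e - u) (v - e); linarith
  have hδ2 : 2 * δ ≤ v - e := by
    have := min_le_right (e - u) (v - e); linarith
  have e1 := h.lsc s e he δ hδ0
  have e2 : ∀ᶠ u' in 𝓝 u, u' < u + δ := (gt_mem_nhds (by linarith))
  have e3 : ∀ᶠ v' in 𝓝 v, v - δ < v' := (lt_mem_nhds (by linarith))
  rw [nhds_prod_eq, nhds_prod_eq]
  filter_upwards [e1.prod_mk (e2.prod_mk e3)] with p hp
  obtain ⟨⟨e', he', h3⟩, h4, h5⟩ := hp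
  have := abs_lt.1 h3
  exact ⟨e', he', by linarith, by linarith⟩

omit [TopologicalSpace S] in
/-- In a clump, far to the left of a point a canonical free point can be found. -/
theorem gap_point {s : S} {y η R : ℝ} (hη : 0 < η) (hR : 0 ≤ R)
    (hb : ∃ a b, a < y ∧ y < b ∧ a ≤ R ∧ -R ≤ b ∧ 2 * η ≤ b - a ∧ ∀ z ∈ Ioo a b, z ∉ E s) :
    ∃ z, (∀ x, |x - z| < η → x ∉ E s) ∧ (∀ x ∈ uIcc y z, x ∉ E s) ∧ -R - η ≤ z ∧ z ≤ R + η := by
  obtain ⟨a, b, h1, h2, h3, h4, h5, h6⟩ := hb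
  rcases le_or_gt (-R - η) (a + η) with h | h
  · refine ⟨a + η, fun x hx => ?_, fun x hx => ?_, h, by linarith⟩
    · have := abs_lt.1 hx
      exact h6 x ⟨by linarith, by linarith⟩
    · apply h6
      rcases le_total y (a + η) with h7 | h7
      · rw [uIcc_of_le h7] at hx
        exact ⟨by linarith [hx.1], by linarith [hx.2]⟩
      · rw [uIcc_of_ge h7] at hx
        exact ⟨by linarith [hx.1], by linarith [hx.2]⟩
  · refine ⟨-R - η, fun x hx => ?_, fun x hx => ?_, le_rfl, by linarith⟩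
    · have := abs_lt.1 hx
      exact h6 x ⟨by linarith, by linarith⟩
    · apply h6
      rcases le_total y (-R - η) with h7 | h7
      · rw [uIcc_of_le h7] at hx
        exact ⟨by linarith [hx.1], by linarith [hx.2]⟩
      · rw [uIcc_of_ge h7] at hx
        exact ⟨by linarith [hx.1], by linarith [hx.2]⟩

/-- Same gap. -/
theorem Clump.sat_symm (hW : Clump E W) {s : S} {y y' : ℝ} (h : y' ∈ W s)
    (hf : ∀ z ∈ uIcc y y', z ∉ E s) : y ∈ W s :=
  hW.sat s y' y h (by rwa [uIcc_comm])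

theorem Clump.free_closed (hE : Fam E) (hW : Clump E W) {s : S} {z η : ℝ} (hη : 0 < η)
    (h : ¬ (z ∈ W s ∧ ∀ x, |x - z| < η → x ∉ E s)) :
    ∀ᶠ p in 𝓝 (s, z), ¬ (p.2 ∈ W p.1 ∧ ∀ x, |x - p.2| < η → x ∉ E p.1) := by
  by_cases hf : ∀ x, |x - z| < η → x ∉ E s
  · have hz : z ∉ E s := hf z (by simpa using hη)
    have hzW : z ∉ W s := fun h' => h ⟨h', hf⟩
    filter_upwards [hW.cls s z hz hzW] with p hp h'
    exact hp h'.1
  · push Not at hf
    have hf' : ∃ y ∈ E s, |y - z| < η := by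
      obtain ⟨x, h1, h2⟩ := hf
      exact ⟨x, h2, h1⟩
    filter_upwards [hE.notFree hf'] with p hp h'
    obtain ⟨y, hy, hyp⟩ := hp
    exact h'.2 y hyp hy

theorem Lm_clump (hE : Fam E) (hW : Clump E W) : Clump E (Lm E W) where
  sub := fun s y hy => hW.sub s y hy.1
  opn := by
    rintro s y ⟨hy, hL⟩
    obtain ⟨η, hη, R, hR, hbdd⟩ := hW.bdd s
    have hyE := hW.sub s y hy
    have key : ∀ᶠ p in 𝓝 (s, y), ∀ q ∈ (Icc (-R - η) (y + 1)) ×ˢ (Icc (-R - η) (y + 1)),
        ¬ ((q.1 ∈ W p.1 ∧ ∀ x, |x - q.1| < η → x ∉ E p.1) ∧ q.2 ∈ E p.1 ∧ q.1 ≤ q.2 ∧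
          q.2 ≤ p.2) := by
      have hK : IsCompact ((Icc (-R - η) (y + 1)) ×ˢ (Icc (-R - η) (y + 1))) :=
        isCompact_Icc.prod isCompact_Icc
      refine hK.eventually_forall_of_forall_eventually
        (P := fun (p : S × ℝ) (q : ℝ × ℝ) => ¬ ((q.1 ∈ W p.1 ∧ ∀ x, |x - q.1| < η → x ∉ E p.1) ∧
          q.2 ∈ E p.1 ∧ q.1 ≤ q.2 ∧ q.2 ≤ p.2)) ?_
      rintro ⟨z, e⟩ -
      by_cases h1 : z ∈ W s ∧ ∀ x, |x - z| < η → x ∉ E s
      · by_cases h2 : e ∈ E s
        · have h3 : e < z ∨ y < e := by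
            by_contra hcon
            push Not at hcon
            rcases hcon.1.eq_or_lt with h4 | h4
            · subst h4
              exact hW.sub s z h1.1 h2
            · rcases hcon.2.eq_or_lt with h5 | h5
              · subst h5
                exact hyE h2
              · exact hL z (h4.trans h5) h1.1 e ⟨hcon.1, hcon.2⟩ h2
          rcases h3 with h3 | h3
          · have : ∀ᶠ w : (S × ℝ) × (ℝ × ℝ) in 𝓝 ((s, y), (z, e)), w.2.2 < w.2.1 := by
              have hc : ContinuousAt (fun w : (S × ℝ) × (ℝ × ℝ) => w.2.1 - w.2.2)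
                ((s, y), (z, e)) := by fun_prop
              have := hc.eventually (lt_mem_nhds (show (0 : ℝ) < z - e by linarith))
              filter_upwards [this] with w hw
              linarith
            filter_upwards [this] with w hw h'
            exact absurd h'.2.2.1 (not_le.2 hw)
          · have : ∀ᶠ w : (S × ℝ) × (ℝ × ℝ) in 𝓝 ((s, y), (z, e)), w.1.2 < w.2.2 := by
              have hc : ContinuousAt (fun w : (S × ℝ) × (ℝ × ℝ) => w.2.2 - w.1.2)
                ((s, y), (z, e)) := by fun_prop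
              have := hc.eventually (lt_mem_nhds (show (0 : ℝ) < e - y by linarith))
              filter_upwards [this] with w hw
              linarith
            filter_upwards [this] with w hw h'
            exact absurd h'.2.2.2 (not_le.2 hw)
        · have hc : Tendsto (fun w : (S × ℝ) × (ℝ × ℝ) => (w.1.1, w.2.2))
            (𝓝 ((s, y), (z, e))) (𝓝 (s, e)) := by
            have : Continuous (fun w : (S × ℝ) × (ℝ × ℝ) => (w.1.1, w.2.2)) := by fun_prop
            exact this.tendsto _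
          filter_upwards [hc.eventually (hE.ev_notMem h2)] with w hw h'
          exact hw h'.2.1
      · have hc : Tendsto (fun w : (S × ℝ) × (ℝ × ℝ) => (w.1.1, w.2.1))
            (𝓝 ((s, y), (z, e))) (𝓝 (s, z)) := by
            have : Continuous (fun w : (S × ℝ) × (ℝ × ℝ) => (w.1.1, w.2.1)) := by fun_prop
            exact this.tendsto _
        filter_upwards [hc.eventually (hW.free_closed hE hη h1)] with w hw h'
        exact hw h'.1
    have hs : ∀ᶠ p : S × ℝ in 𝓝 (s, y), ∀ y' ∈ W p.1, ∃ a b, a < y' ∧ y' < b ∧ a ≤ R ∧ -R ≤ b ∧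
        2 * η ≤ b - a ∧ ∀ z ∈ Ioo a b, z ∉ E p.1 :=
      (continuous_fst.tendsto (s, y)).eventually hbdd
    have hy1 : ∀ᶠ p : S × ℝ in 𝓝 (s, y), p.2 < y + 1 :=
      (continuous_snd.tendsto (s, y)).eventually (gt_mem_nhds (by linarith))
    filter_upwards [key, hs, hy1, hW.opn s y hy] with p hp hs hy1 hpW
    refine ⟨hpW, fun y'' hy'' hy''W e he heE => ?_⟩
    obtain ⟨a, b, h1, h2, h3, h4, h5, h6⟩ := hs y'' hy''W
    have hbe : b ≤ e := by
      by_contra hcon
      push Not at hcon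
      exact h6 e ⟨by linarith [he.1], hcon⟩ heE
    have hfree : ∀ x, |x - (b - η)| < η → x ∉ E p.1 := by
      intro x hx
      have := abs_lt.1 hx
      exact h6 x ⟨by linarith, by linarith⟩
    have hbW : b - η ∈ W p.1 := by
      refine hW.sat p.1 y'' (b - η) hy''W ?_
      intro x hx
      apply h6
      rcases le_total y'' (b - η) with h7 | h7
      · rw [uIcc_of_le h7] at hx
        exact ⟨by linarith [hx.1], by linarith [hx.2]⟩
      · rw [uIcc_of_ge h7] at hx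
        exact ⟨by linarith [hx.1], by linarith [hx.2]⟩
    exact hp (b - η, e) ⟨⟨by linarith, by linarith [he.2]⟩, ⟨by linarith, by linarith [he.2]⟩⟩
      ⟨⟨hbW, hfree⟩, heE, by show b - η ≤ e; linarith, he.2⟩
  cls := by
    intro s y hyE hyL
    by_cases hyW : y ∈ W s
    · have : ∃ y' < y, y' ∈ W s ∧ ∃ z ∈ Icc y' y, z ∈ E s := by
        by_contra hcon
        push Not at hcon
        exact hyL ⟨hyW, fun y' h1 h2 z hz => hcon y' h1 h2 z hz⟩
      obtain ⟨y', h1, h2, e, he, heE⟩ := this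
      have he1 : y' < e := lt_of_le_of_ne he.1 (fun h => hW.sub s y' h2 (h ▸ heE))
      have he2 : e < y := lt_of_le_of_ne he.2 (fun h => hyE (h ▸ heE))
      have hc : Tendsto (fun w : S × ℝ => (w.1, y', w.2)) (𝓝 (s, y)) (𝓝 (s, y', y)) := by
        have : Continuous (fun w : S × ℝ => (w.1, y', w.2)) := by fun_prop
        exact this.tendsto _
      have hc2 : Tendsto (fun w : S × ℝ => (w.1, y')) (𝓝 (s, y)) (𝓝 (s, y')) := by
        have : Continuous (fun w : S × ℝ => (w.1, y')) := by fun_prop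
        exact this.tendsto _
      filter_upwards [hc.eventually (hE.ev_between heE he1 he2), hc2.eventually (hW.opn s y' h2)]
        with p hp1 hp2 hp3
      obtain ⟨e', he', h3, h4⟩ := hp1
      exact hp3.2 y' (h3.trans h4) hp2 e' ⟨h3.le, h4.le⟩ he'
    · filter_upwards [hW.cls s y hyE hyW] with p hp h'
      exact hp h'.1
  sat := by
    rintro s y y' ⟨hy, hL⟩ hf
    have hy' : y' ∈ W s := hW.sat s y y' hy hf
    refine ⟨hy', fun z hz hzW x hx hxE => ?_⟩
    rcases lt_or_ge z y with h | h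
    · rcases le_or_gt x y with h1 | h1
      · exact hL z h hzW x ⟨hx.1, h1⟩ hxE
      · apply hf x _ hxE
        rw [uIcc_of_le (h1.le.trans hx.2)]
        exact ⟨h1.le, hx.2⟩
    · apply hf x _ hxE
      rw [uIcc_of_le (h.trans hz.le)]
      exact ⟨h.trans hx.1, hx.2⟩
  bdd := by
    intro s
    obtain ⟨η, hη, R, hR, hb⟩ := hW.bdd s
    refine ⟨η, hη, R, hR, ?_⟩
    filter_upwards [hb] with s' hs' y hy
    exact hs' y hy.1

theorem diff_clump (hW : Clump E W) (hL : Clump E (Lm E W)) :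
    Clump E (fun s => W s \ Lm E W s) where
  sub := fun s y hy => hW.sub s y hy.1
  opn := by
    rintro s y ⟨hy, hyL⟩
    filter_upwards [hW.opn s y hy, hL.cls s y (hW.sub s y hy) hyL] with p h1 h2
    exact ⟨h1, h2⟩
  cls := by
    intro s y hyE hy
    by_cases hyW : y ∈ W s
    · have hyL : y ∈ Lm E W s := by
        by_contra hcon
        exact hy ⟨hyW, hcon⟩
      filter_upwards [hL.opn s y hyL] with p h1 h2
      exact h2.2 h1
    · filter_upwards [hW.cls s y hyE hyW] with p h1 h2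
      exact h1 h2.1
  sat := by
    rintro s y y' ⟨hy, hyL⟩ hf
    refine ⟨hW.sat s y y' hy hf, fun h => hyL ?_⟩
    exact hL.sat_symm h hf
  bdd := by
    intro s
    obtain ⟨η, hη, R, hR, hb⟩ := hW.bdd s
    refine ⟨η, hη, R, hR, ?_⟩
    filter_upwards [hb] with s' hs' y hy
    exact hs' y hy.1

/-- In a closed free set bounded below there is a least point. -/
theorem Lm_nonempty (hE : Fam E) (hW : Clump E W) {s : S} (h : (W s).Nonempty) :
    (Lm E W s).Nonempty := by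
  obtain ⟨y0, hy0⟩ := h
  obtain ⟨η, hη, R, hR, hb⟩ := hW.bdd s
  have hb := hb.self_of_nhds
  set C : Set ℝ := {z | (z ∈ W s ∧ ∀ x, |x - z| < η → x ∉ E s) ∧ -R - η ≤ z} with hC
  have hCc : IsClosed C := by
    rw [isClosed_iff_frequently]
    intro z hz
    constructor
    · by_contra hcon
      have hc : Tendsto (fun w : ℝ => (s, w)) (𝓝 z) (𝓝 (s, z)) := by
        have : Continuous (fun w : ℝ => (s, w)) := by fun_prop
        exact this.tendsto _
      obtain ⟨w, h1, h2⟩ := (hz.and_eventually (hc.eventually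
        (hW.free_closed hE hη hcon))).exists
      exact h2 h1.1
    · by_contra hcon
      push Not at hcon
      obtain ⟨w, h1, h2⟩ := (hz.and_eventually (gt_mem_nhds hcon)).exists
      exact absurd h1.2 (not_le.2 h2)
  have hmem : ∀ y ∈ W s, ∃ z ∈ C, (∀ x ∈ uIcc y z, x ∉ E s) := by
    intro y hy
    obtain ⟨z, h1, h2, h3, -⟩ := gap_point hη hR (hb y hy)
    exact ⟨z, ⟨⟨hW.sat s y z hy h2, h1⟩, h3⟩, h2⟩
  have hne : C.Nonempty := by
    obtain ⟨z, hz, -⟩ := hmem y0 hy0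
    exact ⟨z, hz⟩
  have hbd : BddBelow C := ⟨-R - η, fun z hz => hz.2⟩
  have hmin := hCc.csInf_mem hne hbd
  refine ⟨sInf C, hmin.1.1, fun y' hy' hy'W e he heE => ?_⟩
  obtain ⟨a, b, h1, h2, h3, h4, h5, h6⟩ := hb y' hy'W
  have hbe : b ≤ e := by
    by_contra hcon
    push Not at hcon
    exact h6 e ⟨by linarith [he.1], hcon⟩ heE
  have hz : b - η ∈ C := by
    refine ⟨⟨hW.sat s y' (b - η) hy'W ?_, ?_⟩, by linarith⟩
    · intro x hx
      apply h6
      rcases le_total y' (b - η) with h7 | h7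
      · rw [uIcc_of_le h7] at hx
        exact ⟨by linarith [hx.1], by linarith [hx.2]⟩
      · rw [uIcc_of_ge h7] at hx
        exact ⟨by linarith [hx.1], by linarith [hx.2]⟩
    · intro x hx
      have := abs_lt.1 hx
      exact h6 x ⟨by linarith, by linarith⟩
  have := csInf_le hbd hz
  linarith [he.2]

theorem nonempty_const [PreconnectedSpace S] (hE : Fam E) (hW : Clump E W) {s₀ : S}
    (h : (W s₀).Nonempty) (s : S) : (W s).Nonempty := by
  have hop : IsOpen {s | (W s).Nonempty} := by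
    rw [isOpen_iff_mem_nhds]
    rintro s ⟨y, hy⟩
    have hc : Tendsto (fun w : S => (w, y)) (𝓝 s) (𝓝 (s, y)) := by
      have : Continuous (fun w : S => (w, y)) := by fun_prop
      exact this.tendsto _
    filter_upwards [hc.eventually (hW.opn s y hy)] with s' hs'
    exact ⟨y, hs'⟩
  have hcl : IsOpen {s | (W s).Nonempty}ᶜ := by
    rw [isOpen_iff_mem_nhds]
    intro s hs
    obtain ⟨η, hη, R, hR, hb⟩ := hW.bdd s
    have key : ∀ᶠ s' in 𝓝 s, ∀ z ∈ Icc (-R - η) (R + η),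
        ¬ (z ∈ W s' ∧ ∀ x, |x - z| < η → x ∉ E s') := by
      refine isCompact_Icc.eventually_forall_of_forall_eventually
        (P := fun (s' : S) (z : ℝ) => ¬ (z ∈ W s' ∧ ∀ x, |x - z| < η → x ∉ E s')) ?_
      intro z _
      exact hW.free_closed hE hη (fun h' => hs ⟨z, h'.1⟩)
    filter_upwards [key, hb] with s' h1 h2
    rintro ⟨y, hy⟩
    obtain ⟨z, h3, h4, h5, h6⟩ := gap_point hη hR (h2 y hy)
    exact h1 z ⟨h5, h6⟩ ⟨hW.sat s' y z hy h4, h3⟩
  have hclo : IsClopen {s | (W s).Nonempty} := ⟨⟨hcl⟩, hop⟩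
  rcases isClopen_iff.1 hclo with h1 | h1
  · have : s₀ ∈ {s | (W s).Nonempty} := h
    rw [h1] at this
    exact absurd this (notMem_empty _)
  · have : s ∈ {s | (W s).Nonempty} := by rw [h1]; trivial
    exact this

/-- A band: a clump with exactly one gap over each point. -/
structure Band (E B : S → Set ℝ) : Prop extends Clump E B where
  ne : ∀ s, (B s).Nonempty
  one : ∀ s y y', y ∈ B s → y' ∈ B s → ∀ z ∈ uIcc y y', z ∉ E s

theorem Lm_band [PreconnectedSpace S] (hE : Fam E) (hW : Clump E W) {s₀ : S}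
    (h : (Lm E W s₀).Nonempty) : Band E (Lm E W) where
  toClump := Lm_clump hE hW
  ne := fun s => nonempty_const hE (Lm_clump hE hW) h s
  one := by
    intro s y y' hy hy' z hz
    rcases lt_trichotomy y y' with h1 | h1 | h1
    · rw [uIcc_of_le h1.le] at hz
      exact hy'.2 y h1 hy.1 z hz
    · subst h1
      rw [uIcc_self] at hz
      rw [hz]
      exact hW.sub s y hy.1
    · rw [uIcc_of_ge h1.le] at hz
      exact hy.2 y' h1 hy'.1 z hz

/-- The right end points of the gaps to the left of `y₁`. -/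
def Rt (E W : S → Set ℝ) (s : S) (η y₁ : ℝ) : Set ℝ :=
  {z | z ∈ W s ∧ (∀ x, |x - z| < η → x ∉ E s) ∧ z + η ∈ E s ∧ z < y₁}

theorem finite_of_separated {A : Set ℝ} {a b η : ℝ} (hη : 0 < η) (hA : A ⊆ Icc a b)
    (hs : ∀ x ∈ A, ∀ y ∈ A, x < y → η ≤ y - x) : A.Finite := by
  have hinj : Set.InjOn (fun p : ℝ => ⌊p / η⌋) A := by
    intro p hp q hq hpq
    have h1 := Int.abs_sub_lt_one_of_floor_eq_floor hpq
    rw [← sub_div, abs_div, abs_of_pos hη, div_lt_one hη] at h1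
    rcases lt_trichotomy p q with h | h | h
    · have := hs p hp q hq h
      have := (abs_lt.1 h1).1
      linarith
    · exact h
    · have := hs q hq p hp h
      have := (abs_lt.1 h1).2
      linarith
  refine Set.Finite.of_finite_image ?_ hinj
  refine (Set.finite_Icc ⌊a / η⌋ ⌊b / η⌋).subset ?_
  rintro _ ⟨p, hp, rfl⟩
  have := hA hp
  exact ⟨Int.floor_le_floor (by gcongr; exact this.1), Int.floor_le_floor (by gcongr; exact this.2)⟩

omit [TopologicalSpace S] in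
theorem Rt_finite {s : S} {η R y₁ : ℝ} (hη : 0 < η)
    (hb : ∀ y ∈ W s, ∃ a b, a < y ∧ y < b ∧ a ≤ R ∧ -R ≤ b ∧
      2 * η ≤ b - a ∧ ∀ z ∈ Ioo a b, z ∉ E s) : (Rt E W s η y₁).Finite := by
  refine finite_of_separated (a := -R - η) (b := y₁) hη ?_ ?_
  · rintro z ⟨h1, h2, h3, h4⟩
    obtain ⟨a, b, g1, g2, g3, g4, g5, g6⟩ := hb z h1
    have : b ≤ z + η := by
      by_contra hcon
      push Not at hcon
      exact g6 _ ⟨by linarith, hcon⟩ h3
    exact ⟨by linarith, h4.le⟩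
  · rintro x ⟨h1, h2, h3, h4⟩ y ⟨g1, g2, g3, g4⟩ hxy
    by_contra hcon
    push Not at hcon
    exact g2 (x + η) (abs_lt.2 ⟨by linarith, by linarith⟩) h3

theorem exists_band_aux [PreconnectedSpace S] (hE : Fam E) (n : ℕ) : ∀ (W : S → Set ℝ),
    Clump E W → ∀ (s₁ : S) (y₁ : ℝ), y₁ ∈ W s₁ → ∀ (η R : ℝ), 0 < η →
      (∀ y ∈ W s₁, ∃ a b, a < y ∧ y < b ∧ a ≤ R ∧ -R ≤ b ∧
      2 * η ≤ b - a ∧ ∀ z ∈ Ioo a b, z ∉ E s₁) → (Rt E W s₁ η y₁).ncard ≤ n →
      ∃ B, Band E B ∧ y₁ ∈ B s₁ := by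
  induction n using Nat.strong_induction_on with
  | _ n ih =>
    intro W hW s₁ y₁ hy₁ η R hη hb hcard
    have hLc := Lm_clump hE hW
    by_cases hL : y₁ ∈ Lm E W s₁
    · exact ⟨Lm E W, Lm_band hE hW ⟨y₁, hL⟩, hL⟩
    · -- remove the leftmost band
      have hW' := diff_clump hW hLc
      obtain ⟨y0, hy0⟩ := Lm_nonempty hE hW (s := s₁) ⟨y₁, hy₁⟩
      have hy1E := hW.sub s₁ y₁ hy₁
      have hy0E := hW.sub s₁ y0 hy0.1
      have hlt : y0 < y₁ := by
        by_contra hcon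
        push Not at hcon
        rcases hcon.eq_or_lt with h | h
        · exact hL (h ▸ hy0)
        · apply hL
          refine hLc.sat s₁ y0 y₁ hy0 ?_
          rw [uIcc_of_ge h.le]
          exact hy0.2 y₁ h hy₁
      have hex : ∃ e ∈ E s₁, y0 < e ∧ e < y₁ := by
        by_contra hcon
        push Not at hcon
        apply hL
        refine hLc.sat s₁ y0 y₁ hy0 ?_
        rw [uIcc_of_le hlt.le]
        intro z hz hzE
        rcases hz.1.eq_or_lt with h | h
        · exact hy0E (h ▸ hzE)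
        · rcases hz.2.eq_or_lt with h' | h'
          · exact hy1E (h' ▸ hzE)
          · exact absurd (hcon z hzE h) (not_le.2 h')
      obtain ⟨e, he, he1, he2⟩ := hex
      -- the right end point of the gap of y0
      set T : Set ℝ := E s₁ ∩ Ici y0 with hT
      have hEc : IsClosed (E s₁) := by
        have : Continuous (fun w : ℝ => (s₁, w)) := by fun_prop
        exact hE.closed.preimage this
      have hTc : IsClosed T := hEc.inter isClosed_Ici
      have hTn : T.Nonempty := ⟨e, he, he1.le⟩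
      have hTb : BddBelow T := ⟨y0, fun t ht => ht.2⟩
      have hb1 := hTc.csInf_mem hTn hTb
      set b1 := sInf T with hb1'
      have hb1e : b1 ≤ e := csInf_le hTb ⟨he, he1.le⟩
      have hy0b : y0 < b1 := lt_of_le_of_ne hb1.2 (fun h => hy0E (h ▸ hb1.1))
      have hfree1 : ∀ x, y0 ≤ x → x < b1 → x ∉ E s₁ := by
        intro x h1 h2 h3
        exact absurd (csInf_le hTb ⟨h3, h1⟩) (not_le.2 h2)
      obtain ⟨a, b, g1, g2, g3, g4, g5, g6⟩ := hb y0 hy0.1
      have hbb : b ≤ b1 := by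
        by_contra hcon
        push Not at hcon
        exact g6 b1 ⟨by linarith, hcon⟩ hb1.1
      have hfree2 : ∀ x, a < x → x < b1 → x ∉ E s₁ := by
        intro x h1 h2
        rcases lt_or_ge x y0 with h3 | h3
        · exact g6 x ⟨h1, by linarith⟩
        · exact hfree1 x h3 h2
      have hz : b1 - η ∈ Lm E W s₁ := by
        refine hLc.sat s₁ y0 _ hy0 ?_
        intro x hx
        rcases le_total y0 (b1 - η) with h7 | h7
        · rw [uIcc_of_le h7] at hx
          exact hfree2 x (by linarith [hx.1]) (by linarith [hx.2])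
        · rw [uIcc_of_ge h7] at hx
          exact hfree2 x (by linarith [hx.1]) (by linarith [hx.2])
      have hzR : b1 - η ∈ Rt E W s₁ η y₁ := by
        refine ⟨hz.1, fun x hx => ?_, ?_, by linarith⟩
        · have := abs_lt.1 hx
          exact hfree2 x (by linarith) (by linarith)
        · have : b1 - η + η = b1 := by ring
          rw [this]; exact hb1.1
      have hsub : Rt E (fun s => W s \ Lm E W s) s₁ η y₁ ⊆ Rt E W s₁ η y₁ := by
        rintro z ⟨h1, h2, h3, h4⟩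
        exact ⟨h1.1, h2, h3, h4⟩
      have hss : Rt E (fun s => W s \ Lm E W s) s₁ η y₁ ⊂ Rt E W s₁ η y₁ := by
        refine ⟨hsub, fun hcon => ?_⟩
        exact (hcon hzR).1.2 hz
      have hfin := Rt_finite (y₁ := y₁) hη hb
      have hlt' := Set.ncard_lt_ncard hss hfin
      exact ih _ (hlt'.trans_le hcard) _ hW' s₁ y₁ ⟨hy₁, hL⟩ η R hη
        (fun y hy => hb y hy.1) le_rfl

theorem exists_band [PreconnectedSpace S] (hE : Fam E) (hW : Clump E W) {s₁ : S} {y₁ : ℝ}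
    (hy : y₁ ∈ W s₁) : ∃ B, Band E B ∧ y₁ ∈ B s₁ := by
  obtain ⟨η, hη, R, hR, hb⟩ := hW.bdd s₁
  exact exists_band_aux hE _ W hW s₁ y₁ hy η R hη hb.self_of_nhds le_rfl

/-- The band `B` lies strictly below the band `B'` over `s`. -/
def BLt (E B B' : S → Set ℝ) (s : S) : Prop := ∃ y ∈ B s, ∃ y' ∈ B' s, ∃ e ∈ E s, y < e ∧ e < y'

theorem BLt_open (hE : Fam E) {B B' : S → Set ℝ} (hB : Band E B) (hB' : Band E B') :
    IsOpen {s | BLt E B B' s} := by
  rw [isOpen_iff_mem_nhds]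
  rintro s ⟨y, hy, y', hy', e, he, h1, h2⟩
  have hc : Tendsto (fun w : S => (w, y)) (𝓝 s) (𝓝 (s, y)) := by
    have : Continuous (fun w : S => (w, y)) := by fun_prop
    exact this.tendsto _
  have hc' : Tendsto (fun w : S => (w, y')) (𝓝 s) (𝓝 (s, y')) := by
    have : Continuous (fun w : S => (w, y')) := by fun_prop
    exact this.tendsto _
  have hc2 : Tendsto (fun w : S => (w, y, y')) (𝓝 s) (𝓝 (s, y, y')) := by
    have : Continuous (fun w : S => (w, y, y')) := by fun_prop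
    exact this.tendsto _
  filter_upwards [hc.eventually (hB.opn s y hy), hc'.eventually (hB'.opn s y' hy'),
    hc2.eventually (hE.ev_between he h1 h2)] with w g1 g2 g3
  obtain ⟨e', g4, g5, g6⟩ := g3
  exact ⟨y, g1, y', g2, e', g4, g5, g6⟩

theorem BEq_open {B B' : S → Set ℝ} (hB : Band E B) (hB' : Band E B') :
    IsOpen {s | (B s ∩ B' s).Nonempty} := by
  rw [isOpen_iff_mem_nhds]
  rintro s ⟨y, hy, hy'⟩
  have hc : Tendsto (fun w : S => (w, y)) (𝓝 s) (𝓝 (s, y)) := by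
    have : Continuous (fun w : S => (w, y)) := by fun_prop
    exact this.tendsto _
  filter_upwards [hc.eventually (hB.opn s y hy), hc.eventually (hB'.opn s y hy')] with w g1 g2
  exact ⟨y, g1, g2⟩

theorem Band.lt_iff {B : S → Set ℝ} (hB : Band E B) {s : S} {y w e : ℝ} (hy : y ∈ B s)
    (hw : w ∈ B s) (he : e ∈ E s) : y < e ↔ w < e := by
  have key : ∀ y w, y ∈ B s → w ∈ B s → y < e → w < e := by
    intro y w hy hw h
    by_contra hcon
    push Not at hcon
    exact hB.one s y w hy hw e (by rw [uIcc_of_le (h.le.trans hcon)]; exact ⟨h.le, hcon⟩) he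
  exact ⟨key y w hy hw, key w y hw hy⟩

theorem Band.gt_iff {B : S → Set ℝ} (hB : Band E B) {s : S} {y w e : ℝ} (hy : y ∈ B s)
    (hw : w ∈ B s) (he : e ∈ E s) : e < y ↔ e < w := by
  have h1 : y ≠ e := fun h => hB.sub s y hy (h ▸ he)
  have h2 : w ≠ e := fun h => hB.sub s w hw (h ▸ he)
  have := hB.lt_iff hy hw he
  constructor
  · intro h
    rcases lt_or_gt_of_ne h2 with h' | h'
    · exact absurd (this.2 h') (not_lt.2 h.le)
    · exact h'
  · intro h
    rcases lt_or_gt_of_ne h1 with h' | h'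
    · exact absurd (this.1 h') (not_lt.2 h.le)
    · exact h'

theorem BLt_const [PreconnectedSpace S] (hE : Fam E) {B B' : S → Set ℝ} (hB : Band E B)
    (hB' : Band E B') {s₀ : S} (h : BLt E B B' s₀) (s : S) : BLt E B B' s := by
  have hcompl : {s | BLt E B B' s}ᶜ = {s | BLt E B' B s} ∪ {s | (B s ∩ B' s).Nonempty} := by
    ext s
    constructor
    · intro hs
      obtain ⟨y, hy⟩ := hB.ne s
      obtain ⟨y', hy'⟩ := hB'.ne s
      by_cases hf : ∀ z ∈ uIcc y y', z ∉ E s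
      · exact Or.inr ⟨y', hB.sat s y y' hy hf, hy'⟩
      · push Not at hf
        obtain ⟨e, he, heE⟩ := hf
        have h1 : y ≠ e := fun h => hB.sub s y hy (h ▸ heE)
        have h2 : y' ≠ e := fun h => hB'.sub s y' hy' (h ▸ heE)
        rcases le_total y y' with h3 | h3
        · rw [uIcc_of_le h3] at he
          exact absurd (⟨y, hy, y', hy', e, heE, lt_of_le_of_ne he.1 h1,
            lt_of_le_of_ne he.2 h2.symm⟩ : BLt E B B' s) hs
        · rw [uIcc_of_ge h3] at he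
          exact Or.inl ⟨y', hy', y, hy, e, heE, lt_of_le_of_ne he.1 h2,
            lt_of_le_of_ne he.2 h1.symm⟩
    · rintro (⟨z', hz', z, hz, e', he', g1, g2⟩ | ⟨w, hw, hw'⟩) ⟨y, hy, y', hy', e, he, h1, h2⟩
      · have k1 : z < e := (hB.lt_iff hy hz he).1 h1
        have k2 : e < z' := (hB'.gt_iff hy' hz' he).1 h2
        linarith
      · have k1 : w < e := (hB.lt_iff hy hw he).1 h1
        have k2 : e < w := (hB'.gt_iff hy' hw' he).1 h2
        linarith
  have hcl : IsOpen {s | BLt E B B' s}ᶜ := by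
    rw [hcompl]
    exact (BLt_open hE hB' hB).union (BEq_open hB hB')
  have hclo : IsClopen {s | BLt E B B' s} := ⟨⟨hcl⟩, BLt_open hE hB hB'⟩
  rcases isClopen_iff.1 hclo with h1 | h1
  · have : s₀ ∈ {s | BLt E B B' s} := h
    rw [h1] at this
    exact absurd this (notMem_empty _)
  · have : s ∈ {s | BLt E B B' s} := by rw [h1]; trivial
    exact this

/-- A continuous section of the family stays on one side of a band. -/
theorem section_side [PreconnectedSpace S] {B : S → Set ℝ} (hB : Band E B)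
    {c : S → ℝ} (hc : Continuous c) (hcE : ∀ s, c s ∈ E s) {s₀ : S} {y₀ : ℝ} (hy₀ : y₀ ∈ B s₀)
    (h : y₀ < c s₀) (s : S) : ∀ y ∈ B s, y < c s := by
  have hop : ∀ (σ : ℝ), IsOpen {s | ∃ y ∈ B s, 0 < σ * (c s - y)} := by
    intro σ
    rw [isOpen_iff_mem_nhds]
    rintro s ⟨y, hy, h1⟩
    have hc1 : Tendsto (fun w : S => (w, y)) (𝓝 s) (𝓝 (s, y)) := by
      have : Continuous (fun w : S => (w, y)) := by fun_prop
      exact this.tendsto _
    have hc2 : ContinuousAt (fun w : S => σ * (c w - y)) s := by fun_prop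
    filter_upwards [hc1.eventually (hB.opn s y hy), hc2.eventually (lt_mem_nhds h1)] with w g1 g2
    exact ⟨y, g1, g2⟩
  have hcompl : {s | ∃ y ∈ B s, 0 < (1 : ℝ) * (c s - y)}ᶜ =
      {s | ∃ y ∈ B s, 0 < (-1 : ℝ) * (c s - y)} := by
    ext s
    constructor
    · intro hs
      obtain ⟨y, hy⟩ := hB.ne s
      refine ⟨y, hy, ?_⟩
      have h1 : y ≠ c s := fun h => hB.sub s y hy (h ▸ hcE s)
      rcases lt_or_gt_of_ne h1 with h2 | h2
      · exact absurd (⟨y, hy, by linarith⟩ : ∃ y ∈ B s, 0 < (1 : ℝ) * (c s - y)) hs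
      · linarith
    · rintro ⟨y, hy, h1⟩ ⟨y', hy', h2⟩
      have := (hB.lt_iff hy' hy (hcE s)).1 (by linarith)
      linarith
  have hclo : IsClopen {s | ∃ y ∈ B s, 0 < (1 : ℝ) * (c s - y)} :=
    ⟨⟨by rw [hcompl]; exact hop _⟩, hop _⟩
  have hall : s ∈ {s | ∃ y ∈ B s, 0 < (1 : ℝ) * (c s - y)} := by
    rcases isClopen_iff.1 hclo with h1 | h1
    · have : s₀ ∈ {s | ∃ y ∈ B s, 0 < (1 : ℝ) * (c s - y)} := ⟨y₀, hy₀, by linarith⟩
      rw [h1] at this
      exact absurd this (notMem_empty _)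
    · rw [h1]; trivial
  obtain ⟨y', hy', h1⟩ := hall
  intro y hy
  exact (hB.lt_iff hy' hy (hcE s)).1 (by linarith)

theorem section_side' [PreconnectedSpace S] {B : S → Set ℝ} (hB : Band E B)
    {c : S → ℝ} (hc : Continuous c) (hcE : ∀ s, c s ∈ E s) {s₀ : S} {y₀ : ℝ} (hy₀ : y₀ ∈ B s₀)
    (h : c s₀ < y₀) (s : S) : ∀ y ∈ B s, c s < y := by
  intro y hy
  have h1 : y ≠ c s := fun h => hB.sub s y hy (h ▸ hcE s)
  rcases lt_or_gt_of_ne h1 with h2 | h2
  · exact absurd (section_side hB hc hcE hy h2 s₀ y₀ hy₀) (not_lt.2 h.le)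
  · exact h2

theorem exists_notMem_of_interior {A : Set ℝ} (hA : interior A = ∅) {a b : ℝ} (hab : a < b) :
    ∃ z, a < z ∧ z < b ∧ z ∉ A := by
  by_contra hcon
  push Not at hcon
  have : Set.Ioo a b ⊆ interior A := interior_maximal (fun z hz => hcon z hz.1 hz.2) isOpen_Ioo
  rw [hA] at this
  exact this (⟨by linarith, by linarith⟩ : (a + b) / 2 ∈ Set.Ioo a b)

/-- Leaves: through each point of the family there is a continuous section. -/
theorem exists_leaf [PreconnectedSpace S] (hE : Fam E)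
    (H : ∀ s y, y ∉ E s → ∃ B, Band E B ∧ y ∈ B s) {s₀ : S} {c₀ : ℝ} (hc₀ : c₀ ∈ E s₀) :
    ∃ c : S → ℝ, Continuous c ∧ (∀ s, c s ∈ E s) ∧ c s₀ = c₀ := by
  set Sm : S → Set ℝ := fun s => {y | ∃ B, Band E B ∧ (∃ z ∈ B s₀, z < c₀) ∧ y ∈ B s} with hSm
  set Sp : S → Set ℝ := fun s => {y | ∃ B, Band E B ∧ (∃ z ∈ B s₀, c₀ < z) ∧ y ∈ B s} with hSp
  have hcov : ∀ s y, y ∉ E s → y ∈ Sm s ∨ y ∈ Sp s := by
    intro s y hy
    obtain ⟨B, hB, hyB⟩ := H s y hy
    obtain ⟨z, hz⟩ := hB.ne s₀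
    have h1 : z ≠ c₀ := fun h => hB.sub s₀ z hz (h ▸ hc₀)
    rcases lt_or_gt_of_ne h1 with h2 | h2
    · exact Or.inl ⟨B, hB, ⟨z, hz, h2⟩, hyB⟩
    · exact Or.inr ⟨B, hB, ⟨z, hz, h2⟩, hyB⟩
  have hsep : ∀ s, ∀ y ∈ Sm s, ∀ y' ∈ Sp s, ∃ e ∈ E s, y < e ∧ e < y' := by
    rintro s y ⟨B, hB, ⟨z, hz, hzc⟩, hyB⟩ y' ⟨B', hB', ⟨z', hz', hzc'⟩, hyB'⟩
    obtain ⟨w, hw, w', hw', e, he, h1, h2⟩ :=
      BLt_const hE hB hB' (⟨z, hz, z', hz', c₀, hc₀, hzc, hzc'⟩ : BLt E B B' s₀) s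
    exact ⟨e, he, (hB.lt_iff hw hyB he).1 h1, (hB'.gt_iff hw' hyB' he).1 h2⟩
  have hmE : ∀ s, ∀ y ∈ Sm s, y ∉ E s := by
    rintro s y ⟨B, hB, -, hyB⟩
    exact hB.sub s y hyB
  have hpE : ∀ s, ∀ y ∈ Sp s, y ∉ E s := by
    rintro s y ⟨B, hB, -, hyB⟩
    exact hB.sub s y hyB
  have hmne : ∀ s, (Sm s).Nonempty := by
    intro s
    obtain ⟨z, h1, h2, h3⟩ := exists_notMem_of_interior (hE.nd s₀) (show c₀ - 1 < c₀ by linarith)
    obtain ⟨B, hB, hzB⟩ := H s₀ z h3
    obtain ⟨y, hy⟩ := hB.ne s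
    exact ⟨y, B, hB, ⟨z, hzB, h2⟩, hy⟩
  have hpne : ∀ s, (Sp s).Nonempty := by
    intro s
    obtain ⟨z, h1, h2, h3⟩ := exists_notMem_of_interior (hE.nd s₀) (show c₀ < c₀ + 1 by linarith)
    obtain ⟨B, hB, hzB⟩ := H s₀ z h3
    obtain ⟨y, hy⟩ := hB.ne s
    exact ⟨y, B, hB, ⟨z, hzB, h1⟩, hy⟩
  have hbdd : ∀ s, BddAbove (Sm s) := by
    intro s
    obtain ⟨y', hy'⟩ := hpne s
    refine ⟨y', fun y hy => ?_⟩
    obtain ⟨e, -, h1, h2⟩ := hsep s y hy y' hy'
    linarith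
  set c : S → ℝ := fun s => sSup (Sm s) with hc
  have hcm : ∀ s, ∀ y ∈ Sm s, y < c s := by
    -- first the weak inequality; strict because `Sm s` is open
    intro s y hy
    have hy' := hy
    obtain ⟨B, hB, hz, hyB⟩ := hy
    have hc1 : Tendsto (fun w : ℝ => (s, w)) (𝓝 y) (𝓝 (s, y)) := by
      have : Continuous (fun w : ℝ => (s, w)) := by fun_prop
      exact this.tendsto _
    have h1 := hc1.eventually (hB.opn s y hyB)
    obtain ⟨ε, hε, hball⟩ := Metric.eventually_nhds_iff.1 h1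
    have h2 : y + ε / 2 ∈ Sm s := by
      refine ⟨B, hB, hz, ?_⟩
      apply hball
      rw [Real.dist_eq]
      have : y + ε / 2 - y = ε / 2 := by ring
      rw [this, abs_of_pos (by linarith)]
      linarith
    have := le_csSup (hbdd s) h2
    show y < sSup (Sm s)
    linarith
  have hcp' : ∀ s, ∀ y ∈ Sp s, c s ≤ y := by
    intro s y hy
    apply csSup_le (hmne s)
    intro z hz
    obtain ⟨e, -, h1, h2⟩ := hsep s z hz y hy
    linarith
  have hcp : ∀ s, ∀ y ∈ Sp s, c s < y := by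
    intro s y hy
    have hy' := hy
    obtain ⟨B, hB, hz, hyB⟩ := hy
    have hc1 : Tendsto (fun w : ℝ => (s, w)) (𝓝 y) (𝓝 (s, y)) := by
      have : Continuous (fun w : ℝ => (s, w)) := by fun_prop
      exact this.tendsto _
    have h1 := hc1.eventually (hB.opn s y hyB)
    obtain ⟨ε, hε, hball⟩ := Metric.eventually_nhds_iff.1 h1
    have h2 : y - ε / 2 ∈ Sp s := by
      refine ⟨B, hB, hz, ?_⟩
      apply hball
      rw [Real.dist_eq]
      have : y - ε / 2 - y = -(ε / 2) := by ring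
      rw [this, abs_neg, abs_of_pos (by linarith)]
      linarith
    have := hcp' s _ h2
    linarith
  have hcE : ∀ s, c s ∈ E s := by
    intro s
    by_contra hcon
    rcases hcov s (c s) hcon with h | h
    · exact lt_irrefl _ (hcm s _ h)
    · exact lt_irrefl _ (hcp s _ h)
  refine ⟨c, ?_, hcE, ?_⟩
  · rw [continuous_iff_continuousAt]
    intro s
    rw [ContinuousAt, Metric.tendsto_nhds]
    intro ε hε
    obtain ⟨z, h1, h2, h3⟩ := exists_notMem_of_interior (hE.nd s) (show c s - ε < c s by linarith)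
    obtain ⟨z', h1', h2', h3'⟩ := exists_notMem_of_interior (hE.nd s)
      (show c s < c s + ε by linarith)
    have hz : z ∈ Sm s := by
      rcases hcov s z h3 with h | h
      · exact h
      · exact absurd (hcp s z h) (not_lt.2 h2.le)
    have hz' : z' ∈ Sp s := by
      rcases hcov s z' h3' with h | h
      · exact absurd (hcm s z' h) (not_lt.2 h1'.le)
      · exact h
    obtain ⟨B, hB, hb, hzB⟩ := hz
    obtain ⟨B', hB', hb', hzB'⟩ := hz'
    have hc1 : Tendsto (fun w : S => (w, z)) (𝓝 s) (𝓝 (s, z)) := by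
      have : Continuous (fun w : S => (w, z)) := by fun_prop
      exact this.tendsto _
    have hc2 : Tendsto (fun w : S => (w, z')) (𝓝 s) (𝓝 (s, z')) := by
      have : Continuous (fun w : S => (w, z')) := by fun_prop
      exact this.tendsto _
    filter_upwards [hc1.eventually (hB.opn s z hzB), hc2.eventually (hB'.opn s z' hzB')] with w g1 g2
    have k1 := hcm w z ⟨B, hB, hb, g1⟩
    have k2 := hcp w z' ⟨B', hB', hb', g2⟩
    rw [Real.dist_eq, abs_lt]
    constructor <;> linarith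
  · -- the value at `s₀`
    by_contra hcon
    rcases lt_or_gt_of_ne hcon with h | h
    · obtain ⟨z, h1, h2, h3⟩ := exists_notMem_of_interior (hE.nd s₀) h
      obtain ⟨B, hB, hzB⟩ := H s₀ z h3
      exact absurd (hcm s₀ z ⟨B, hB, ⟨z, hzB, h2⟩, hzB⟩) (not_lt.2 h1.le)
    · obtain ⟨z, h1, h2, h3⟩ := exists_notMem_of_interior (hE.nd s₀) h
      obtain ⟨B, hB, hzB⟩ := H s₀ z h3
      exact absurd (hcp s₀ z ⟨B, hB, ⟨z, hzB, h1⟩, hzB⟩) (not_lt.2 h2.le)

/-- A band over a preconnected space is preconnected. -/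
theorem band_preconnected [PreconnectedSpace S] {B : S → Set ℝ} (hB : Band E B) :
    PreconnectedSpace {p : S × ℝ // p.2 ∈ B p.1} := by
  rw [preconnectedSpace_iff_clopen]
  intro Q hQ
  by_contra hcon
  push Not at hcon
  obtain ⟨h1, h2⟩ := hcon
  obtain ⟨x, hx⟩ := h1
  obtain ⟨x', hx'⟩ := (Set.ne_univ_iff_exists_notMem Q).1 h2
  obtain ⟨U, hU, hUQ⟩ := isOpen_induced_iff.1 hQ.isOpen
  obtain ⟨U', hU', hUQ'⟩ := isOpen_induced_iff.1 hQ.compl.isOpen
  have hBo : IsOpen {p : S × ℝ | p.2 ∈ B p.1} := by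
    rw [isOpen_iff_mem_nhds]
    rintro ⟨s, y⟩ hy
    exact hB.opn s y hy
  set A : Set S := Prod.fst '' (U ∩ {p : S × ℝ | p.2 ∈ B p.1}) with hA
  set A' : Set S := Prod.fst '' (U' ∩ {p : S × ℝ | p.2 ∈ B p.1}) with hA'
  have hAo : IsOpen A := isOpenMap_fst _ (hU.inter hBo)
  have hAo' : IsOpen A' := isOpenMap_fst _ (hU'.inter hBo)
  have hmem : ∀ (p : S × ℝ) (hp : p.2 ∈ B p.1), p ∈ U ↔ (⟨p, hp⟩ : {p : S × ℝ // p.2 ∈ B p.1}) ∈ Q := by
    intro p hp
    rw [← hUQ]; rfl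
  have hmem' : ∀ (p : S × ℝ) (hp : p.2 ∈ B p.1),
      p ∈ U' ↔ (⟨p, hp⟩ : {p : S × ℝ // p.2 ∈ B p.1}) ∉ Q := by
    intro p hp
    have : (⟨p, hp⟩ : {p : S × ℝ // p.2 ∈ B p.1}) ∈ Qᶜ ↔ p ∈ U' := by
      rw [← hUQ']; rfl
    rw [← this]; rfl
  have hcompl : Aᶜ = A' := by
    ext s
    constructor
    · intro hs
      obtain ⟨y, hy⟩ := hB.ne s
      refine ⟨(s, y), ⟨?_, hy⟩, rfl⟩
      rw [hmem' (s, y) hy]
      intro hQ'
      exact hs ⟨(s, y), ⟨(hmem (s, y) hy).2 hQ', hy⟩, rfl⟩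
    · rintro ⟨⟨s1, y'⟩, ⟨hyU', hy'⟩, rfl⟩ ⟨⟨s2, y⟩, ⟨hyU, hy⟩, h3⟩
      simp only at h3
      subst h3
      -- the fibre is connected
      have hseg : ∀ z ∈ uIcc y y', z ∈ B s2 := by
        intro z hz
        refine hB.sat s2 y z hy ?_
        intro w hw
        refine hB.one s2 y y' hy hy' w ?_
        exact uIcc_subset_uIcc_left hz hw
      have hpre : IsPreconnected (uIcc y y') := isPreconnected_uIcc
      have hcont : Continuous (fun z : ℝ => (s2, z)) := by fun_prop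
      have := hpre _ _ (hU.preimage hcont) (hU'.preimage hcont) (by
        intro z hz
        by_cases hzQ : (⟨(s2, z), hseg z hz⟩ : {p : S × ℝ // p.2 ∈ B p.1}) ∈ Q
        · exact Or.inl ((hmem _ (hseg z hz)).2 hzQ)
        · exact Or.inr ((hmem' _ (hseg z hz)).2 hzQ)) ⟨y, left_mem_uIcc, hyU⟩
        ⟨y', right_mem_uIcc, hyU'⟩
      obtain ⟨z, hz, hz1, hz2⟩ := this
      exact (hmem' _ (hseg z hz)).1 hz2 ((hmem _ (hseg z hz)).1 hz1)
  have hclo : IsClopen A := ⟨⟨by rw [hcompl]; exact hAo'⟩, hAo⟩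
  rcases isClopen_iff.1 hclo with h | h
  · have : x.1.1 ∈ A := ⟨x.1, ⟨(hmem x.1 x.2).2 hx, x.2⟩, rfl⟩
    rw [h] at this
    exact this
  · have : x'.1.1 ∈ A' := ⟨x'.1, ⟨(hmem' x'.1 x'.2).2 hx', x'.2⟩, rfl⟩
    rw [← hcompl, h] at this
    exact this trivial

end Pool.Agent.TH735
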