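import Mathlib
import Pool.Agent.TH735.Defn
import Pool.Agent.TH735.Topo

set_option autoImplicit false

/-! Consequences of being restrained: projections of closed sets. -/

namespace Pool.Agent.TH735

open FirstOrder FirstOrder.Language Set Filter Topology
open Pool.Agent.H671T

/-! ### General topology -/

theorem baire_open {X ι : Type} [TopologicalSpace X] [BaireSpace X] [Countable ι] {U : Set X}
    (hU : IsOpen U) (hne : U.Nonempty) {F : ι → Set X} (hF : ∀ i, IsClosed (F i))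
    (hcov : U ⊆ ⋃ i, F i) : ∃ i, (U ∩ interior (F i)).Nonempty := by
  have h := dense_iUnion_interior_of_closed (f := fun o : Option ι => o.elim Uᶜ F) (by
    rintro (_ | i)
    · exact hU.isClosed_compl
    · exact hF i) (by
    ext x
    simp only [mem_iUnion, mem_univ, iff_true]
    by_cases hx : x ∈ U
    · obtain ⟨i, hi⟩ := mem_iUnion.1 (hcov hx)
      exact ⟨some i, hi⟩
    · exact ⟨none, hx⟩)
  obtain ⟨x, hxU, hx⟩ := h.inter_open_nonempty U hU hne
  obtain ⟨o, ho⟩ := mem_iUnion.1 hx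
  rcases o with _ | i
  · exact absurd hxU (interior_subset ho)
  · exact ⟨i, x, hxU, ho⟩

theorem baire_inter {X ι : Type} [TopologicalSpace X] [BaireSpace X] [Countable ι] {U : Set X}
    (hU : IsOpen U) (hne : U.Nonempty) {P : ι → Set X}
    (h : ∀ i, ∀ U' : Set X, U' ⊆ U → IsOpen U' → U'.Nonempty → (U' ∩ interior (P i)).Nonempty) :
    ∃ x ∈ U, ∀ i, x ∈ P i := by
  by_contra hcon
  push Not at hcon
  obtain ⟨i, x, hxU, hx⟩ := baire_open hU hne (F := fun i => (interior (P i))ᶜ)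
    (fun i => isOpen_interior.isClosed_compl) (fun x hx => by
      obtain ⟨i, hi⟩ := hcon x hx
      exact mem_iUnion.2 ⟨i, fun h' => hi (interior_subset h')⟩)
  obtain ⟨y, hy, hy'⟩ := h i (U ∩ interior ((interior (P i))ᶜ)) inter_subset_left
    (hU.inter isOpen_interior) ⟨x, hxU, hx⟩
  exact interior_subset hy.2 hy'

theorem isClosed_proj {X W : Type} [TopologicalSpace X] [TopologicalSpace W] {K : Set W}
    (hK : IsCompact K) {Y : X → W → Prop} (hY : IsClosed {p : X × W | Y p.1 p.2}) :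
    IsClosed {x | ∃ w ∈ K, Y x w} := by
  rw [← isOpen_compl_iff, isOpen_iff_mem_nhds]
  intro x hx
  have hx' : ∀ w ∈ K, ¬ Y x w := fun w hw h => hx ⟨w, hw, h⟩
  have := hK.eventually_forall_of_forall_eventually (x₀ := x) (P := fun x w => ¬ Y x w)
    (fun w hw => hY.isOpen_compl.mem_nhds (hx' w hw))
  filter_upwards [this] with x' hx''
  rintro ⟨w, hw, h⟩
  exact hx'' w hw h

theorem isCompact_box {γ : Type} (t : ℝ) : IsCompact {w : γ → ℝ | ∀ j, |w j| ≤ t} := by
  have : {w : γ → ℝ | ∀ j, |w j| ≤ t} = Set.pi univ (fun _ => Icc (-t) t) := by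
    ext w
    simp [abs_le, forall_and, Pi.le_def]
  rw [this]
  exact isCompact_univ_pi fun _ => isCompact_Icc

theorem exists_gap {C : Set ℝ} (hC : IsClosed C) {y₁ y₂ z : ℝ} (h1 : y₁ ∈ C) (h2 : y₂ ∈ C)
    (hz : z ∉ C) (hy1 : y₁ < z) (hy2 : z < y₂) :
    ∃ a b, a ∈ C ∧ b ∈ C ∧ a < z ∧ z < b ∧ y₁ ≤ a ∧ b ≤ y₂ ∧ ∀ x, a < x → x < b → x ∉ C := by
  have hA : IsCompact (C ∩ Icc y₁ z) := isCompact_Icc.inter_left hC
  have hB : IsCompact (C ∩ Icc z y₂) := isCompact_Icc.inter_left hC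
  have hA' := hA.sSup_mem ⟨y₁, h1, le_rfl, hy1.le⟩
  have hB' := hB.sInf_mem ⟨y₂, h2, hy2.le, le_rfl⟩
  refine ⟨sSup (C ∩ Icc y₁ z), sInf (C ∩ Icc z y₂), hA'.1, hB'.1, ?_, ?_, hA'.2.1, hB'.2.2, ?_⟩
  · exact lt_of_le_of_ne hA'.2.2 fun h => hz (h ▸ hA'.1)
  · exact lt_of_le_of_ne hB'.2.1 fun h => hz (h ▸ hB'.1)
  · intro x hx1 hx2 hxC
    rcases le_total x z with h | h
    · exact absurd (le_csSup hA.bddAbove ⟨hxC, hA'.2.1.trans hx1.le, h⟩) (not_le.2 hx1)
    · exact absurd (csInf_le hB.bddBelow ⟨hxC, h, hx2.le.trans hB'.2.2⟩) (not_le.2 hx2)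

theorem isolated_of_locFin {D : Set ℝ} (hD : ∀ R, (D ∩ Iic R).Finite) (t : ℝ) :
    ∃ ε > 0, ∀ t' ∈ D, |t' - t| < ε → t' = t := by
  have hfin : ((D ∩ Iic (t + 1)) \ {t}).Finite := (hD (t + 1)).subset sdiff_subset
  have hn : ((D ∩ Iic (t + 1)) \ {t})ᶜ ∈ 𝓝 t := by
    refine hfin.isClosed.isOpen_compl.mem_nhds ?_
    intro h
    exact h.2 rfl
  obtain ⟨ε, hε, hb⟩ := Metric.mem_nhds_iff.1 hn
  refine ⟨min ε 1, lt_min hε one_pos, fun t' ht' hlt => ?_⟩
  by_contra hne
  have h1 : t' ∈ Metric.ball t ε := by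
    rw [Metric.mem_ball, Real.dist_eq]
    exact hlt.trans_le (min_le_left _ _)
  have h2 : t' ≤ t + 1 := by
    have := (abs_lt.1 (hlt.trans_le (min_le_right _ _))).2
    linarith
  exact hb h1 ⟨⟨ht', h2⟩, hne⟩

theorem isClosed_of_locFin {D : Set ℝ} (hD : ∀ R, (D ∩ Iic R).Finite) : IsClosed D := by
  rw [← isOpen_compl_iff, isOpen_iff_mem_nhds]
  intro t ht
  obtain ⟨ε, hε, h⟩ := isolated_of_locFin hD t
  filter_upwards [Metric.ball_mem_nhds t hε] with t' ht' hD'
  rw [Metric.mem_ball, Real.dist_eq] at ht'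
  exact ht (h t' hD' ht' ▸ hD')

variable {L : FirstOrder.Language.{0, 0}} [L.Structure ℝ]

/-- The structure is restrained. -/
def Restrained (L : FirstOrder.Language.{0, 0}) [L.Structure ℝ] : Prop :=
  ∀ (n : ℕ) (D : Set (Fin n → ℝ)) (g : (Fin n → ℝ) → ℝ),
    (Set.univ : Set ℝ).Definable L D → DiscreteTopology ↥D →
    (Set.univ : Set ℝ).Definable L
      {v : Fin (n + 1) → ℝ | Fin.init v ∈ D ∧ v (Fin.last n) = g (Fin.init v)} →
    interior (closure (g '' D)) = ∅

theorem restrained_two (hr : Restrained L) {M : ℝ → ℝ → Prop}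
    (hM : Df L (fun v : Fin 2 → ℝ => M (v 0) (v 1)))
    (hd : ∀ t z, M t z → ∃ ε > 0, ∀ t' z', M t' z' → |t' - t| < ε → |z' - z| < ε →
      t' = t ∧ z' = z) :
    interior (closure {z | ∃ t, M t z}) = ∅ := by
  have h := hr 2 {v | M (v 0) (v 1)} (fun v => v 1) hM ?_ ?_
  · convert h using 3
    ext z
    simp only [mem_ofPred_eq, mem_image]
    constructor
    · rintro ⟨t, ht⟩
      exact ⟨![t, z], by simpa using ht, by simp⟩
    · rintro ⟨v, hv, rfl⟩
      exact ⟨v 0, hv⟩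
  · rw [discreteTopology_iff_isOpen_singleton]
    rintro ⟨v, hv⟩
    obtain ⟨ε, hε, h⟩ := hd _ _ hv
    rw [Metric.isOpen_singleton_iff]
    refine ⟨ε, hε, ?_⟩
    rintro ⟨w, hw⟩ hlt
    rw [Subtype.dist_eq, dist_pi_lt_iff hε] at hlt
    have h0 := hlt 0
    have h1 := hlt 1
    rw [Real.dist_eq] at h0 h1
    have := h _ _ hw h0 h1
    apply Subtype.ext
    funext i
    fin_cases i
    · exact this.1
    · exact this.2
  · have h1 : Df L (fun v : Fin 3 → ℝ => M (v 0) (v 1)) := hM.relabel (![0, 1] : Fin 2 → Fin 3)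
    have h2 : Df L (fun v : Fin 3 → ℝ => M (v 0) (v 1) ∧ v 2 = v 1) :=
      h1.and (df_eq_var _ _)
    exact h2.congr fun v => Iff.rfl

/-- There is a definable unbounded locally finite set. -/
def HasD (L : FirstOrder.Language.{0, 0}) [L.Structure ℝ] : Prop :=
  ∃ D : Set ℝ, D1 L D ∧ (∀ R, (D ∩ Iic R).Finite) ∧ ∀ R, ∃ d ∈ D, R < d

variable [RF L]

theorem finite_of_not_hasD (hD : ¬ HasD L) {C : Set ℝ} (hC : IsClosed C) (hi : interior C = ∅)
    (hdf : D1 L C) : C.Finite := by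
  have main : ∀ R, (C ∩ Icc (-R) R).Finite := by
    intro R
    by_contra hinf
    apply hD
    set C' := C ∩ Icc (-R) R with hC'
    have hC'c : IsClosed C' := hC.inter isClosed_Icc
    have hC'i : interior C' = ∅ := by
      have := interior_mono (inter_subset_left : C' ⊆ C)
      rw [hi] at this
      exact subset_empty_iff.1 this
    have hC'd : D1 L C' := by
      have h1 : Df L (fun v : Unit → ℝ => v () ∈ C ∧ (-R ≤ v () ∧ v () ≤ R)) :=
        hdf.and ((Dle (Dconst _) (Dvar _)).and (Dle (Dvar _) (Dconst _)))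
      exact h1.congr fun v => Iff.rfl
    set Λ : Set ℝ := {l | ∃ a b, a ∈ C' ∧ b ∈ C' ∧ a < b ∧ (∀ z, a < z → z < b → z ∉ C') ∧
      l * (b - a) = 1} with hΛ
    refine ⟨Λ, ?_, ?_, ?_⟩
    · refine Df.ex1 (Q := fun a (v : Unit → ℝ) => ∃ b, a ∈ C' ∧ b ∈ C' ∧ a < b ∧
        (∀ z, a < z → z < b → z ∉ C') ∧ v () * (b - a) = 1) ?_
      refine Df.ex1 (Q := fun b (v : Option Unit → ℝ) => v none ∈ C' ∧ b ∈ C' ∧ v none < b ∧
        (∀ z, v none < z → z < b → z ∉ C') ∧ v (some ()) * (b - v none) = 1) ?_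
      refine (hC'd.mem (Dvar _)).and ((hC'd.mem (Dvar _)).and ((Dlt (Dvar _) (Dvar _)).and
        (Df.and ?_ (Deq (Dmul (Dvar _) (Dsub (Dvar _) (Dvar _))) (Dconst _)))))
      refine Df.all1 (Q := fun z (v : Option (Option Unit) → ℝ) => v (some none) < z →
        z < v none → z ∉ C') ?_
      exact (Dlt (Dvar _) (Dvar _)).imp ((Dlt (Dvar _) (Dvar _)).imp (hC'd.mem (Dvar _)).not)
    · intro K
      set K' := max K 1 with hK'
      have hK'0 : 0 < K' := lt_of_lt_of_le one_pos (le_max_right _ _)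
      have hG : {a | ∃ b, a ∈ C' ∧ b ∈ C' ∧ a < b ∧ (∀ z, a < z → z < b → z ∉ C') ∧
          1 / K' ≤ b - a}.Finite := by
        refine finite_of_separated (a := -R) (b := R) (η := 1 / K') (by positivity) ?_ ?_
        · rintro a ⟨b, ha, -⟩
          exact ha.2
        · rintro a ⟨b, ha, hb, hab, hg, hl⟩ a' ⟨b', ha', -⟩ hlt
          by_contra hcon
          push Not at hcon
          exact hg a' hlt (by linarith) ha'
      refine (hG.image (fun a => 1 / (sInf (C' ∩ Ioi a) - a))).subset ?_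
      rintro l ⟨⟨a, b, ha, hb, hab, hg, hl⟩, hlK⟩
      have hlK' : l ≤ K' := le_trans hlK (le_max_left _ _)
      have hba : 0 < b - a := by linarith
      have hl' : l = 1 / (b - a) := by
        field_simp
        linarith
      refine ⟨a, ⟨b, ha, hb, hab, hg, ?_⟩, ?_⟩
      · rw [div_le_iff₀ hK'0]
        calc (1 : ℝ) = l * (b - a) := hl.symm
          _ ≤ K' * (b - a) := by nlinarith
          _ = (b - a) * K' := by ring
      · have hb' : sInf (C' ∩ Ioi a) = b := by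
          apply le_antisymm
          · exact csInf_le ⟨a, fun x hx => hx.2.le⟩ ⟨hb, hab⟩
          · refine le_csInf ⟨b, hb, hab⟩ ?_
            rintro x ⟨hx, hax⟩
            by_contra hcon
            exact hg x hax (not_le.1 hcon) hx
        show 1 / (sInf (C' ∩ Ioi a) - a) = l
        rw [hb', hl']
    · intro K
      by_contra hcon
      push Not at hcon
      set K' := max K 1 with hK'
      have hK'0 : 0 < K' := lt_of_lt_of_le one_pos (le_max_right _ _)
      apply hinf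
      refine finite_of_separated (a := -R) (b := R) (η := 1 / K') (by positivity)
        inter_subset_right ?_
      intro x hx y hy hxy
      by_contra hlt
      push Not at hlt
      obtain ⟨z, hz1, hz2, hz⟩ := exists_notMem_of_interior hC'i hxy
      obtain ⟨a, b, ha, hb, haz, hzb, hxa, hby, hg⟩ := exists_gap hC'c hx hy hz hz1 hz2
      have hba : 0 < b - a := by linarith
      have h1 := hcon (1 / (b - a)) ⟨a, b, ha, hb, by linarith, hg, by field_simp⟩
      have h2 : b - a < 1 / K' := by linarith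
      have h3 : K' < 1 / (b - a) := by
        rw [lt_div_iff₀ hba]
        rw [lt_div_iff₀ hK'0] at h2
        linarith
      have h4 : K ≤ K' := le_max_left _ _
      linarith
  by_contra hinf
  by_cases hU : ∀ R, ∃ d ∈ C, R < d
  · apply hD
    refine ⟨C ∩ Ici 0, ?_, ?_, ?_⟩
    · have h1 : Df L (fun v : Unit → ℝ => v () ∈ C ∧ 0 ≤ v ()) :=
        hdf.and (Dle (Dconst _) (Dvar _))
      exact h1.congr fun v => Iff.rfl
    · intro R
      refine (main R).subset ?_
      rintro x ⟨⟨hx, hx0⟩, hxR⟩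
      simp only [mem_Ici, mem_Iic] at hx0 hxR
      exact ⟨hx, by linarith, hxR⟩
    · intro R
      obtain ⟨d, hd, hRd⟩ := hU (max R 0)
      exact ⟨d, ⟨hd, ((le_max_right _ _).trans hRd.le : (0 : ℝ) ≤ d)⟩,
        (le_max_left _ _).trans_lt hRd⟩
  by_cases hU' : ∀ R, ∃ d ∈ C, R < -d
  · apply hD
    refine ⟨{x | -x ∈ C ∧ 0 ≤ x}, ?_, ?_, ?_⟩
    · exact (hdf.mem (Dneg (Dvar _))).and (Dle (Dconst _) (Dvar _))
    · intro R
      refine ((main R).image (fun x => -x)).subset ?_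
      rintro x ⟨⟨hx, hx0⟩, hxR⟩
      simp only [mem_Iic] at hxR
      exact ⟨-x, ⟨hx, by linarith, by linarith⟩, by simp⟩
    · intro R
      obtain ⟨d, hd, hRd⟩ := hU' (max R 0)
      exact ⟨-d, ⟨by simpa using hd, (le_max_right _ _).trans hRd.le⟩,
        (le_max_left _ _).trans_lt hRd⟩
  push Not at hU hU'
  obtain ⟨R, hR⟩ := hU
  obtain ⟨R', hR'⟩ := hU'
  apply hinf
  refine (main (max R R')).subset fun x hx => ⟨hx, ?_, ?_⟩
  · have := hR' x hx
    have := le_max_right R R'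
    linarith
  · exact (hR x hx).trans (le_max_left _ _)

/-! ### One distinguished variable -/

section

variable {γ : Type} [Finite γ]

/-- Truncated projection. -/
def At (Y : ℝ → (γ → ℝ) → Prop) (t : ℝ) : Set ℝ := {y | ∃ w : γ → ℝ, (∀ j, |w j| ≤ t) ∧ Y y w}

omit [Finite γ] in
theorem At_closed {Y : ℝ → (γ → ℝ) → Prop} (hY : IsClosed {p : ℝ × (γ → ℝ) | Y p.1 p.2})
    (t : ℝ) : IsClosed (At Y t) := isClosed_proj (isCompact_box t) hY

omit [Finite γ] in
theorem At_mono {Y : ℝ → (γ → ℝ) → Prop} {t t' : ℝ} (h : t ≤ t') : At Y t ⊆ At Y t' := by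
  rintro y ⟨w, hw, hY⟩
  exact ⟨w, fun j => (hw j).trans h, hY⟩

theorem exists_At {Y : ℝ → (γ → ℝ) → Prop} {y : ℝ} (h : ∃ w, Y y w) :
    ∃ t, 0 ≤ t ∧ ∀ t', t ≤ t' → y ∈ At Y t' := by
  obtain ⟨w, hw⟩ := h
  obtain ⟨M, hM⟩ := Finite.exists_le (fun j => |w j|)
  exact ⟨max M 0, le_max_right _ _, fun t' ht' =>
    ⟨w, fun j => (hM j).trans ((le_max_left _ _).trans ht'), hw⟩⟩

theorem At_df {Y : ℝ → (γ → ℝ) → Prop}
    (hY : Df L (fun w : Option γ → ℝ => Y (w none) (fun j => w (some j)))) {α : Type} [Finite α]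
    {f g : (α → ℝ) → ℝ} (hf : DfF L f) (hg : DfF L g) : Df L (fun v => f v ∈ At Y (g v)) := by
  refine Df.exT (Q := fun (w : γ → ℝ) (v : α → ℝ) => (∀ j, |w j| ≤ g v) ∧ Y (f v) w) ?_
  refine (Df.all_fin fun j => ?_).and ?_
  · exact Dle (Dabs (Dvar _)) (hg.relabel _)
  · exact Df.substT (f := fun (o : Option γ) (v : α ⊕ γ → ℝ) =>
      o.elim (f (fun i => v (Sum.inl i))) (fun j => v (Sum.inr j))) hY (by
        rintro (_ | j)
        · exact hf.relabel _
        · exact Dvar _)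

theorem R1 (hr : Restrained L) {Y : ℝ → (γ → ℝ) → Prop}
    (hYc : IsClosed {p : ℝ × (γ → ℝ) | Y p.1 p.2})
    (hY : Df L (fun w : Option γ → ℝ => Y (w none) (fun j => w (some j))))
    (hi : interior {y | ∃ w, Y y w} = ∅) : interior (closure {y | ∃ w, Y y w}) = ∅ := by
  have hAi : ∀ t, interior (At Y t) = ∅ := by
    intro t
    have := interior_mono (show At Y t ⊆ {y | ∃ w, Y y w} from fun y ⟨w, _, h⟩ => ⟨w, h⟩)
    rw [hi] at this
    exact subset_empty_iff.1 this
  by_cases hD : HasD L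
  · obtain ⟨D, hDd, hDf, hDu⟩ := hD
    set M : ℝ → ℝ → Prop := fun t z => t ∈ D ∧ ∃ a b, a ∈ At Y t ∧ b ∈ At Y t ∧ a < b ∧
      (∀ y, a < y → y < b → y ∉ At Y t) ∧ z + z = a + b with hM
    have hMi := restrained_two (L := L) hr (M := M) ?_ ?_
    · by_contra hne
      obtain ⟨z₀, hz₀⟩ := nonempty_iff_ne_empty.2 hne
      have hsub : interior (closure {y | ∃ w, Y y w}) ⊆ closure {z | ∃ t, M t z} := by
        intro z₁ hz₁
        rw [mem_closure_iff]
        intro o ho hz₁o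
        have hn : interior (closure {y | ∃ w, Y y w}) ∩ o ∈ 𝓝 z₁ :=
          (isOpen_interior.inter ho).mem_nhds ⟨hz₁, hz₁o⟩
        obtain ⟨p, q, hpq, hpqs⟩ := (mem_nhds_iff_exists_Ioo_subset).1 hn
        have hd : ∀ u v, u < v → p ≤ u → v ≤ q → ∃ y, u < y ∧ y < v ∧ ∃ w, Y y w := by
          intro u v huv hpu hvq
          have h1 : (u + v) / 2 ∈ closure {y | ∃ w, Y y w} :=
            interior_subset (hpqs ⟨by linarith, by linarith⟩ :
              (u + v) / 2 ∈ interior (closure {y | ∃ w, Y y w}) ∩ o).1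
          obtain ⟨y, hy1, hy2⟩ := mem_closure_iff.1 h1 (Ioo u v) isOpen_Ioo
            ⟨by linarith, by linarith⟩
          exact ⟨y, hy1.1, hy1.2, hy2⟩
        have hpq' : p < q := hpq.1.trans hpq.2
        obtain ⟨y₁, h1, h2, h3⟩ := hd p ((p + q) / 2) (by linarith) le_rfl (by linarith)
        obtain ⟨y₂, g1, g2, g3⟩ := hd ((p + q) / 2) q (by linarith) (by linarith) le_rfl
        obtain ⟨t₁, -, ht₁⟩ := exists_At h3
        obtain ⟨t₂, -, ht₂⟩ := exists_At g3
        obtain ⟨t, ht, htlt⟩ := hDu (max t₁ t₂)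
        have hy₁ := ht₁ t ((le_max_left _ _).trans htlt.le)
        have hy₂ := ht₂ t ((le_max_right _ _).trans htlt.le)
        obtain ⟨z, hz1, hz2, hz⟩ := exists_notMem_of_interior (hAi t) (h2.trans g1)
        obtain ⟨a, b, ha, hb, haz, hzb, hya, hby, hg⟩ :=
          exists_gap (At_closed hYc t) hy₁ hy₂ hz hz1 hz2
        refine ⟨(a + b) / 2, ?_, t, ht, a, b, ha, hb, haz.trans hzb, hg, by ring⟩
        exact (hpqs ⟨by linarith, by linarith⟩ :
          (a + b) / 2 ∈ interior (closure {y | ∃ w, Y y w}) ∩ o).2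
      have := interior_maximal hsub isOpen_interior
      rw [hMi] at this
      exact this hz₀
    · refine (hDd.mem (Dvar _)).and ?_
      refine Df.ex1 (Q := fun a (v : Fin 2 → ℝ) => ∃ b, a ∈ At Y (v 0) ∧ b ∈ At Y (v 0) ∧ a < b ∧
        (∀ y, a < y → y < b → y ∉ At Y (v 0)) ∧ v 1 + v 1 = a + b) ?_
      refine Df.ex1 (Q := fun b (v : Option (Fin 2) → ℝ) => v none ∈ At Y (v (some 0)) ∧
        b ∈ At Y (v (some 0)) ∧ v none < b ∧
        (∀ y, v none < y → y < b → y ∉ At Y (v (some 0))) ∧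
        v (some 1) + v (some 1) = v none + b) ?_
      refine (At_df hY (Dvar _) (Dvar _)).and ((At_df hY (Dvar _) (Dvar _)).and
        ((Dlt (Dvar _) (Dvar _)).and
        (Df.and ?_ (Deq (Dadd (Dvar _) (Dvar _)) (Dadd (Dvar _) (Dvar _))))))
      refine Df.all1 (Q := fun y (v : Option (Option (Fin 2)) → ℝ) => v (some none) < y →
        y < v none → y ∉ At Y (v (some (some 0)))) ?_
      exact (Dlt (Dvar _) (Dvar _)).imp ((Dlt (Dvar _) (Dvar _)).imp
        (At_df hY (Dvar _) (Dvar _)).not)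
    · rintro t z ⟨ht, a, b, ha, hb, hab, hg, hz⟩
      obtain ⟨ε, hε, hiso⟩ := isolated_of_locFin hDf t
      refine ⟨min ε ((b - a) / 2), lt_min hε (by linarith), ?_⟩
      rintro t' z' ⟨ht', a', b', ha', hb', hab', hg', hz'⟩ h1 h2
      have htt : t' = t := hiso t' ht' (h1.trans_le (min_le_left _ _))
      subst htt
      refine ⟨rfl, ?_⟩
      have h3 := abs_lt.1 (h2.trans_le (min_le_right _ _))
      have e1 : a' ≤ a := by
        by_contra hc
        exact hg a' (not_le.1 hc) (by linarith [h3.1, h3.2]) ha'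
      have e2 : a ≤ a' := by
        by_contra hc
        exact hg' a (not_le.1 hc) (by linarith [h3.1, h3.2]) ha
      have e3 : b' ≤ b := by
        by_contra hc
        exact hg' b (by linarith [h3.1, h3.2]) (not_le.1 hc) hb
      have e4 : b ≤ b' := by
        by_contra hc
        exact hg b' (by linarith [h3.1, h3.2]) (not_le.1 hc) hb'
      linarith
  · have hfin : ∀ t, (At Y t).Finite := fun t =>
      finite_of_not_hasD (L := L) hD (At_closed hYc t) (hAi t) (At_df hY (Dvar _) (Dconst _))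
    set T : ℝ → Set ℝ := fun y => {t' | 0 ≤ t' ∧ y ∈ At Y t'} with hT
    have hTb : ∀ y, BddBelow (T y) := fun y => ⟨0, fun t ht => ht.1⟩
    set Sg : Set ℝ := {t | ∃ y, (∀ t', 0 ≤ t' → y ∈ At Y t' → t ≤ t') ∧
      ∀ u, (∀ t', 0 ≤ t' → y ∈ At Y t' → u ≤ t') → u ≤ t} with hSg
    have hSgd : D1 L Sg := by
      refine Df.ex1 (Q := fun y (v : Unit → ℝ) => (∀ t', 0 ≤ t' → y ∈ At Y t' → v () ≤ t') ∧
        ∀ u, (∀ t', 0 ≤ t' → y ∈ At Y t' → u ≤ t') → u ≤ v ()) ?_
      refine Df.and ?_ ?_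
      · refine Df.all1 (Q := fun t' (v : Option Unit → ℝ) => 0 ≤ t' → v none ∈ At Y t' →
          v (some ()) ≤ t') ?_
        exact (Dle (Dconst _) (Dvar _)).imp ((At_df hY (Dvar _) (Dvar _)).imp
          (Dle (Dvar _) (Dvar _)))
      · refine Df.all1 (Q := fun u (v : Option Unit → ℝ) => (∀ t', 0 ≤ t' → v none ∈ At Y t' →
          u ≤ t') → u ≤ v (some ())) ?_
        refine Df.imp ?_ (Dle (Dvar _) (Dvar _))
        refine Df.all1 (Q := fun t' (v : Option (Option Unit) → ℝ) => 0 ≤ t' →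
          v (some none) ∈ At Y t' → v none ≤ t') ?_
        exact (Dle (Dconst _) (Dvar _)).imp ((At_df hY (Dvar _) (Dvar _)).imp
          (Dle (Dvar _) (Dvar _)))
    have hSgf : ∀ R, (Sg ∩ Iic R).Finite := by
      intro R
      refine ((hfin (R + 1)).image (fun y => sInf (T y))).subset ?_
      rintro t ⟨⟨y, hy1, hy2⟩, htR⟩
      have h1 : ¬ ∀ t', 0 ≤ t' → y ∈ At Y t' → R + 1 ≤ t' := fun h => by
        have := hy2 _ h
        simp only [mem_Iic] at htR
        linarith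
      push Not at h1
      obtain ⟨t', ht'0, ht', hlt⟩ := h1
      refine ⟨y, At_mono hlt.le ht', ?_⟩
      apply le_antisymm
      · exact hy2 _ fun u hu hyu => csInf_le (hTb y) ⟨hu, hyu⟩
      · exact le_csInf ⟨t', ht'0, ht'⟩ fun u hu => hy1 u hu.1 hu.2
    have hSgb : ∃ R, ∀ t ∈ Sg, t ≤ R := by
      by_contra hcon
      push Not at hcon
      exact hD ⟨Sg, hSgd, hSgf, hcon⟩
    obtain ⟨R, hR⟩ := hSgb
    have hAf : {y | ∃ w, Y y w}.Finite := by
      refine (hfin (R + 1)).subset fun y hy => ?_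
      obtain ⟨t, ht0, ht⟩ := exists_At hy
      have hne : (T y).Nonempty := ⟨t, ht0, ht t le_rfl⟩
      have hmem : sInf (T y) ∈ Sg :=
        ⟨y, fun t' h0 h1 => csInf_le (hTb y) ⟨h0, h1⟩, fun u hu =>
          le_csInf hne fun t' ht' => hu t' ht'.1 ht'.2⟩
      obtain ⟨t', ht', hlt⟩ := exists_lt_of_csInf_lt hne
        (show sInf (T y) < R + 1 by have := hR _ hmem; linarith)
      exact At_mono hlt.le ht'.2
    rw [hAf.isClosed.closure_eq]
    exact hi

end

end Pool.Agent.TH735
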