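import Mathlib
import Pool.Agent.TH735.Restr

set_option autoImplicit false

/-! Projections of closed definable sets in restrained structures. -/

namespace Pool.Agent.TH735

open FirstOrder FirstOrder.Language Set Filter Topology
open Pool.Agent.H671T

variable {L : FirstOrder.Language.{0, 0}} [L.Structure ℝ]

/-- Adjoin a coordinate. -/
def cons {β : Type} (y : ℝ) (x : β → ℝ) : Option β → ℝ := fun o => o.elim y x

theorem comp_elim {β δ : Type} (w : δ → ℝ) (a : δ) (σ : β → δ) :
    (fun o : Option β => w (o.elim a σ)) = cons (w a) (fun i => w (σ i)) := by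
  funext o
  cases o <;> rfl

theorem cons_eta {β : Type} (v : Option β → ℝ) : cons (v none) (fun i => v (some i)) = v := by
  funext o
  cases o <;> rfl

theorem continuous_cons {X β : Type} [TopologicalSpace X] {y : X → ℝ} {x : X → β → ℝ}
    (hy : Continuous y) (hx : Continuous x) : Continuous (fun a => cons (y a) (x a)) := by
  refine continuous_pi fun o => ?_
  cases o with
  | none => exact hy
  | some i => exact (continuous_apply i).comp hx

theorem isClosed_all {X ι : Type} [TopologicalSpace X] {p : ι → X → Prop}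
    (h : ∀ i, IsClosed {x | p i x}) : IsClosed {x | ∀ i, p i x} := by
  rw [ofPred_forall]
  exact isClosed_iInter h

theorem isOpen_all_fin {X ι : Type} [Finite ι] [TopologicalSpace X] {p : ι → X → Prop}
    (h : ∀ i, IsOpen {x | p i x}) : IsOpen {x | ∀ i, p i x} := by
  rw [ofPred_forall]
  exact isOpen_iInter_of_finite h

theorem isOpen_mem {X X' : Type} [TopologicalSpace X] [TopologicalSpace X'] {s : Set X'}
    (hs : IsOpen s) {f : X → X'} (hf : Continuous f) : IsOpen {x | f x ∈ s} := hs.preimage hf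

/-- Closed definable sets project to sets which have interior or are nowhere dense. -/
def RProp (L : FirstOrder.Language.{0, 0}) [L.Structure ℝ] (β : Type) : Prop :=
  ∀ (γ : Type) [Finite γ] (Y : (β → ℝ) → (γ → ℝ) → Prop),
    IsClosed {p : (β → ℝ) × (γ → ℝ) | Y p.1 p.2} →
    Df L (fun w : β ⊕ γ → ℝ => Y (fun i => w (Sum.inl i)) (fun j => w (Sum.inr j))) →
    interior {x | ∃ w, Y x w} = ∅ → interior (closure {x | ∃ w, Y x w}) = ∅

theorem exists_box {β : Type} [Finite β] {U : Set (β → ℝ)} {x₁ : β → ℝ} (hU : U ∈ 𝓝 x₁) :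
    ∃ r > 0, ∀ x : β → ℝ, (∀ i, |x i - x₁ i| ≤ r) → x ∈ U := by
  have := Fintype.ofFinite β
  obtain ⟨r, hr, h⟩ := Metric.nhds_basis_closedBall.mem_iff.1 hU
  refine ⟨r, hr, fun x hx => h ?_⟩
  rw [Metric.mem_closedBall, dist_pi_le_iff hr.le]
  intro i
  rw [Real.dist_eq]
  exact hx i

theorem isOpen_box {β : Type} [Finite β] (x₁ : β → ℝ) (r : ℝ) :
    IsOpen {x : β → ℝ | ∀ i, |x i - x₁ i| < r} :=
  isOpen_all_fin fun i => isOpen_lt (by fun_prop) continuous_const

theorem isClosed_box {β : Type} (x₁ : β → ℝ) (r : ℝ) :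
    IsClosed {x : β → ℝ | ∀ i, |x i - x₁ i| ≤ r} :=
  isClosed_all fun i => isClosed_le (by fun_prop) continuous_const

theorem isClosed_projT {X γ : Type} [TopologicalSpace X] {τ : X → ℝ} (hτ : Continuous τ)
    {Y : X → (γ → ℝ) → Prop} (hY : IsClosed {p : X × (γ → ℝ) | Y p.1 p.2}) :
    IsClosed {x | ∃ u : γ → ℝ, (∀ j, |u j| ≤ τ x) ∧ Y x u} := by
  rw [← isOpen_compl_iff, isOpen_iff_mem_nhds]
  intro x hx
  have hcl : IsClosed {p : X × (γ → ℝ) | (∀ j, |p.2 j| ≤ τ p.1) ∧ Y p.1 p.2} := by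
    refine IsClosed.and ?_ hY
    exact isClosed_all fun j => isClosed_le (by fun_prop) (by fun_prop)
  have h1 := (isCompact_box (γ := γ) (τ x + 1)).eventually_forall_of_forall_eventually (x₀ := x)
    (P := fun x u => ¬ ((∀ j, |u j| ≤ τ x) ∧ Y x u))
    (fun u _ => hcl.isOpen_compl.mem_nhds (fun h => hx ⟨u, h⟩))
  have h2 : ∀ᶠ x' in 𝓝 x, τ x' < τ x + 1 :=
    hτ.continuousAt.eventually (gt_mem_nhds (by linarith))
  filter_upwards [h1, h2] with x' g1 g2
  rintro ⟨u, hu⟩
  exact g1 u (fun j => (hu.1 j).trans g2.le) hu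

variable [RF L]

theorem RProp.loc {β : Type} [Finite β] (h : RProp L β) {γ : Type} [Finite γ]
    {Y : (β → ℝ) → (γ → ℝ) → Prop}
    (hc : IsClosed {p : (β → ℝ) × (γ → ℝ) | Y p.1 p.2})
    (hdf : Df L (fun w : β ⊕ γ → ℝ => Y (fun i => w (Sum.inl i)) (fun j => w (Sum.inr j))))
    {U : Set (β → ℝ)} (hU : IsOpen U) (hne : U.Nonempty)
    (hsub : U ⊆ closure {x | ∃ w, Y x w}) : (U ∩ interior {x | ∃ w, Y x w}).Nonempty := by
  obtain ⟨x₁, hx₁⟩ := hne
  obtain ⟨r, hr, hbox⟩ := exists_box (hU.mem_nhds hx₁)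
  set Y' : (β → ℝ) → (γ → ℝ) → Prop := fun x w => (∀ i, |x i - x₁ i| ≤ r) ∧ Y x w with hY'
  by_cases hi : interior {x | ∃ w, Y' x w} = ∅
  · exfalso
    have h1 := h γ Y' ?_ ?_ hi
    · have h2 : {x : β → ℝ | ∀ i, |x i - x₁ i| < r} ⊆ closure {x | ∃ w, Y' x w} := by
        intro x hx
        rw [mem_closure_iff]
        intro o ho hxo
        have hxU : x ∈ U := hbox x fun i => (hx i).le
        obtain ⟨x', hx', w, hw⟩ := mem_closure_iff.1 (hsub hxU) _ (ho.inter (isOpen_box x₁ r))
          ⟨hxo, hx⟩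
        exact ⟨x', hx'.1, w, fun i => (hx'.2 i).le, hw⟩
      have h3 := interior_maximal h2 (isOpen_box x₁ r)
      rw [h1] at h3
      exact h3 (show x₁ ∈ {x : β → ℝ | ∀ i, |x i - x₁ i| < r} from fun i => by simpa using hr)
    · exact ((isClosed_box x₁ r).preimage continuous_fst).inter hc
    · refine (Df.all_fin fun i => ?_).and hdf
      exact Dle (Dabs (Dsub (Dvar _) (Dconst _))) (Dconst _)
  · obtain ⟨x₂, hx₂⟩ := nonempty_iff_ne_empty.2 hi
    obtain ⟨w, hw⟩ := interior_subset hx₂
    exact ⟨x₂, hbox x₂ hw.1, interior_mono (show {x | ∃ w, Y' x w} ⊆ {x | ∃ w, Y x w} from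
      fun x ⟨w, hw⟩ => ⟨w, hw.2⟩) hx₂⟩

omit [RF L] in
theorem RProp.congr {β β' : Type} (e : β ≃ β') (h : RProp L β) : RProp L β' := by
  intro γ _ Y hc hdf hi
  let H : (β → ℝ) ≃ₜ (β' → ℝ) :=
    { toFun := fun x j => x (e.symm j)
      invFun := fun x i => x (e i)
      left_inv := fun x => by funext i; simp
      right_inv := fun x => by funext i; simp
      continuous_toFun := by fun_prop
      continuous_invFun := by fun_prop }
  have key : {x : β → ℝ | ∃ w, Y (H x) w} = H ⁻¹' {x | ∃ w, Y x w} := rfl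
  have h1 := h γ (fun x w => Y (H x) w) ?_ ?_ ?_
  · rw [key, ← H.preimage_closure, ← H.preimage_interior] at h1
    rw [eq_empty_iff_forall_notMem] at h1 ⊢
    intro x hx
    exact h1 (H.symm x) (by simpa using hx)
  · exact hc.preimage ((H.continuous.comp continuous_fst).prodMk continuous_snd)
  · exact hdf.relabel (Sum.map e.symm id)
  · rw [key, ← H.preimage_interior, hi]
    rfl

omit [RF L] in
theorem RProp.empty : RProp L PEmpty := by
  intro γ _ Y hc hdf hi
  have : {x : PEmpty → ℝ | ∃ w, Y x w} = ∅ := by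
    rw [eq_empty_iff_forall_notMem]
    intro x hx
    have : {x : PEmpty → ℝ | ∃ w, Y x w} = univ := by
      ext x'
      have : x' = x := Subsingleton.elim _ _
      simp only [mem_univ, iff_true]
      rw [this]
      exact hx
    rw [this, interior_univ] at hi
    exact (univ_nonempty (α := PEmpty → ℝ)).ne_empty hi
  rw [this]
  simp

theorem RProp.option (hr : Restrained L) {β : Type} [Finite β] (ih : RProp L β) :
    RProp L (Option β) := by
  intro γ _ Y hYc hYd hi
  -- the set of points with a fibre with interior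
  set YS : (β → ℝ) → (Fin 3 → ℝ) → Prop := fun x w => 0 ≤ w 0 ∧ 1 ≤ w 0 * (w 2 - w 1) ∧
    ∀ y, w 1 < y → y < w 2 → ∃ u : γ → ℝ, (∀ j, |u j| ≤ w 0) ∧ Y (cons y x) u with hYS
  have hcl1 : ∀ y (X : Type) [TopologicalSpace X] (τ : X → ℝ) (ξ : X → β → ℝ), Continuous τ →
      Continuous ξ → IsClosed {a | ∃ u : γ → ℝ, (∀ j, |u j| ≤ τ a) ∧ Y (cons y (ξ a)) u} := by
    intro y X _ τ ξ hτ hξ
    refine isClosed_projT hτ (Y := fun a u => Y (cons y (ξ a)) u) ?_
    exact hYc.preimage ((continuous_cons continuous_const (hξ.comp continuous_fst)).prodMk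
      continuous_snd)
  have hYSc : IsClosed {p : (β → ℝ) × (Fin 3 → ℝ) | YS p.1 p.2} := by
    refine (isClosed_le continuous_const (by fun_prop)).and
      ((isClosed_le continuous_const (by fun_prop)).and (isClosed_all fun y => ?_))
    refine isClosed_imp (isOpen_lt (by fun_prop) continuous_const)
      (isClosed_imp (isOpen_lt continuous_const (by fun_prop)) ?_)
    exact hcl1 y _ _ _ (by fun_prop) continuous_fst
  have hYSd : Df L (fun w : β ⊕ Fin 3 → ℝ => YS (fun i => w (Sum.inl i))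
      (fun j => w (Sum.inr j))) := by
    refine (Dle (Dconst _) (Dvar _)).and ((Dle (Dconst _) (Dmul (Dvar _)
      (Dsub (Dvar _) (Dvar _)))).and ?_)
    refine Df.all1 (Q := fun y (w : β ⊕ Fin 3 → ℝ) => w (Sum.inr 1) < y → y < w (Sum.inr 2) →
      ∃ u : γ → ℝ, (∀ j, |u j| ≤ w (Sum.inr 0)) ∧ Y (cons y (fun i => w (Sum.inl i))) u) ?_
    refine (Dlt (Dvar _) (Dvar _)).imp ((Dlt (Dvar _) (Dvar _)).imp ?_)
    refine Df.exT (Q := fun (u : γ → ℝ) (w : Option (β ⊕ Fin 3) → ℝ) =>
      (∀ j, |u j| ≤ w (some (Sum.inr 0))) ∧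
        Y (cons (w none) (fun i => w (some (Sum.inl i)))) u) ?_
    refine (Df.all_fin fun j => Dle (Dabs (Dvar _)) (Dvar _)).and ?_
    refine (hYd.relabel (Sum.elim (fun o : Option β => Sum.inl (o.elim none
      (fun i => some (Sum.inl i)))) Sum.inr : Option β ⊕ γ →
        Option (β ⊕ Fin 3) ⊕ γ)).congr fun w => ?_
    have : (fun o : Option β => w (Sum.inl (o.elim none (fun i => some (Sum.inl i))))) =
        cons (w (Sum.inl none)) (fun i => w (Sum.inl (some (Sum.inl i)))) := by
      funext o; cases o <;> rfl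
    show Y (fun o : Option β => w (Sum.inl (o.elim none (fun i => some (Sum.inl i))))) _ ↔ _
    rw [this]
    rfl
  have hYSi : interior {x | ∃ w, YS x w} = ∅ := by
    by_contra hne
    obtain ⟨⟨n, p, q⟩, hx⟩ := baire_open isOpen_interior (nonempty_iff_ne_empty.2 hne)
      (F := fun k : ℕ × ℚ × ℚ => {x : β → ℝ | (k.2.1 : ℝ) < k.2.2 ∧
        ∀ y, (k.2.1 : ℝ) < y → y < k.2.2 →
        ∃ u : γ → ℝ, (∀ j, |u j| ≤ k.1) ∧ Y (cons y x) u}) (by
        rintro ⟨n, p, q⟩
        refine isClosed_const.and (isClosed_all fun y => ?_)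
        refine isClosed_imp isOpen_const (isClosed_imp isOpen_const ?_)
        exact hcl1 y _ _ _ continuous_const continuous_id) (by
        intro x hx
        obtain ⟨w, h0, h1, h2⟩ := interior_subset hx
        obtain ⟨n, hn⟩ := exists_nat_ge (w 0)
        have hcd : w 1 < w 2 := by
          by_contra hcon
          push Not at hcon
          nlinarith
        obtain ⟨p, hp1, hp2⟩ := exists_rat_btwn hcd
        obtain ⟨q, hq1, hq2⟩ := exists_rat_btwn hp2
        refine mem_iUnion.2 ⟨(n, p, q), hq1, fun y hy1 hy2 => ?_⟩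
        obtain ⟨u, hu1, hu2⟩ := h2 y (hp1.trans hy1) (hy2.trans hq2)
        exact ⟨u, fun j => (hu1 j).trans hn, hu2⟩)
    obtain ⟨x₀, hx₀, hx₀F⟩ := hx
    set F := {x : β → ℝ | (p : ℝ) < q ∧ ∀ y, (p : ℝ) < y → y < q →
        ∃ u : γ → ℝ, (∀ j, |u j| ≤ n) ∧ Y (cons y x) u} with hF
    have hpq : (p : ℝ) < q := (interior_subset hx₀F : x₀ ∈ F).1
    have hV : IsOpen {v : Option β → ℝ | (fun i => v (some i)) ∈ interior F ∧
        ((p : ℝ) < v none ∧ v none < q)} := by
      exact (isOpen_mem isOpen_interior (by fun_prop)).and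
        ((isOpen_lt continuous_const (by fun_prop)).and
          (isOpen_lt (by fun_prop) continuous_const))
    have hVA := interior_maximal (s := {v : Option β → ℝ | ∃ w, Y v w}) (fun v hv => by
      obtain ⟨u, -, hu⟩ := (interior_subset hv.1 : (fun i => v (some i)) ∈ F).2 (v none)
        hv.2.1 hv.2.2
      rw [cons_eta] at hu
      exact ⟨u, hu⟩) hV
    rw [hi] at hVA
    exact hVA (show cons ((p + q : ℝ) / 2) x₀ ∈ {v : Option β → ℝ | (fun i => v (some i)) ∈
      interior F ∧ ((p : ℝ) < v none ∧ v none < q)} from ⟨hx₀F,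
        (by linarith : (p : ℝ) < (p + q : ℝ) / 2), (by linarith : (p + q : ℝ) / 2 < q)⟩)
  have hS := ih (Fin 3) YS hYSc hYSd hYSi
  -- fibres over the remaining points are nowhere dense
  have hfib : ∀ x, (¬ ∃ w, YS x w) → interior (closure {y | ∃ u, Y (cons y x) u}) = ∅ := by
    intro x hx
    have hYxc : IsClosed {p : ℝ × (γ → ℝ) | Y (cons p.1 x) p.2} :=
      hYc.preimage ((continuous_cons continuous_fst continuous_const).prodMk continuous_snd)
    refine R1 hr (Y := fun y u => Y (cons y x) u) ?_ ?_ ?_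
    · exact hYxc
    · refine (Df.substT (f := fun (o : Option β ⊕ γ) (v : Option γ → ℝ) =>
        Sum.elim (cons (v none) x) (fun j => v (some j)) o) hYd (by
          rintro ((_ | i) | j)
          · exact Dvar _
          · exact Dconst _
          · exact Dvar _)).congr fun w => Iff.rfl
    · by_contra hne
      obtain ⟨n, y₀, hy₀, hy₀n⟩ := baire_open isOpen_interior (nonempty_iff_ne_empty.2 hne)
        (F := fun n : ℕ => At (fun y u => Y (cons y x) u) n)
        (fun n => At_closed hYxc n) (by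
        intro y hy
        have hy' : y ∈ {y | ∃ u, Y (cons y x) u} := interior_subset hy
        obtain ⟨t, -, ht⟩ := exists_At (Y := fun y u => Y (cons y x) u) hy'
        obtain ⟨n, hn⟩ := exists_nat_ge t
        exact mem_iUnion.2 ⟨n, ht n hn⟩)
      obtain ⟨c, d, hcd, hcds⟩ := mem_nhds_iff_exists_Ioo_subset.1
        (isOpen_interior.mem_nhds hy₀n)
      have hcd' : 0 < d - c := by linarith [hcd.1, hcd.2]
      have hcd'' : 0 ≤ 1 / (d - c) := by positivity
      refine hx ⟨![n + 1 / (d - c), c, d], ?_, ?_, ?_⟩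
      · simp only [Matrix.cons_val_zero]
        positivity
      · simp only [Matrix.cons_val_zero, Matrix.cons_val_one, Matrix.cons_val]
        rw [add_mul, one_div, inv_mul_cancel₀ hcd'.ne']
        have : (0 : ℝ) ≤ n * (d - c) := by positivity
        linarith
      · intro y hy1 hy2
        simp only [Matrix.cons_val_zero, Matrix.cons_val_one, Matrix.cons_val] at hy1 hy2 ⊢
        obtain ⟨u, hu1, hu2⟩ := interior_subset (hcds ⟨hy1, hy2⟩)
        exact ⟨u, fun j => (hu1 j).trans (by linarith), hu2⟩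
  by_contra hne
  obtain ⟨v₀, hv₀⟩ := nonempty_iff_ne_empty.2 hne
  set G := interior (closure {v : Option β → ℝ | ∃ w, Y v w}) with hG
  have hcont : Continuous (fun p : ℝ × (β → ℝ) => cons p.1 p.2) :=
    continuous_cons continuous_fst continuous_snd
  have hpre : (fun p : ℝ × (β → ℝ) => cons p.1 p.2) ⁻¹' G ∈
      𝓝 (v₀ none, fun i => v₀ (some i)) := by
    refine (isOpen_interior.preimage hcont).mem_nhds ?_
    show cons (v₀ none) (fun i => v₀ (some i)) ∈ G
    rw [cons_eta]
    exact hv₀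
  rw [nhds_prod_eq, Filter.mem_prod_iff] at hpre
  obtain ⟨V, hV, U, hU, hVU⟩ := hpre
  obtain ⟨a, b, hab, habV⟩ := mem_nhds_iff_exists_Ioo_subset.1 hV
  have hab' : a < b := hab.1.trans hab.2
  have hU1ne : (interior U ∩ (closure {x | ∃ w, YS x w})ᶜ).Nonempty := by
    by_contra hcon
    rw [not_nonempty_iff_eq_empty] at hcon
    have : interior U ⊆ closure {x | ∃ w, YS x w} := by
      intro x hx
      by_contra h
      exact (eq_empty_iff_forall_notMem.1 hcon x) ⟨hx, h⟩
    have := interior_maximal this isOpen_interior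
    rw [hS] at this
    exact this (mem_interior_iff_mem_nhds.2 hU)
  have hU1o : IsOpen (interior U ∩ (closure {x | ∃ w, YS x w})ᶜ) :=
    isOpen_interior.inter isClosed_closure.isOpen_compl
  obtain ⟨x, hxU, hx⟩ := baire_inter hU1o hU1ne
    (ι := {k : ℚ × ℚ // a < k.1 ∧ (k.1 : ℝ) < k.2 ∧ (k.2 : ℝ) < b})
    (P := fun k => {x : β → ℝ | ∃ w : Option γ → ℝ, ((k.1.1 : ℝ) ≤ w none ∧ w none ≤ k.1.2) ∧
      Y (cons (w none) x) (fun j => w (some j))}) (by
    rintro ⟨⟨p, q⟩, hap, hpq, hqb⟩ U' hU' hU'o hU'ne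
    refine RProp.loc ih (γ := Option γ) (Y := fun x w => ((p : ℝ) ≤ w none ∧ w none ≤ q) ∧
      Y (cons (w none) x) (fun j => w (some j))) ?_ ?_ hU'o hU'ne ?_
    · refine IsClosed.and ((isClosed_le continuous_const (by fun_prop)).and
        (isClosed_le (by fun_prop) continuous_const)) ?_
      exact hYc.preimage ((continuous_cons (by fun_prop) continuous_fst).prodMk (by fun_prop))
    · refine ((Dle (Dconst _) (Dvar _)).and (Dle (Dvar _) (Dconst _))).and ?_
      refine (Df.substT (f := fun (o : Option β ⊕ γ) (v : β ⊕ Option γ → ℝ) =>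
        Sum.elim (cons (v (Sum.inr none)) (fun i => v (Sum.inl i)))
          (fun j => v (Sum.inr (some j))) o) hYd (by
          rintro ((_ | i) | j)
          · exact Dvar _
          · exact Dvar _
          · exact Dvar _)).congr fun w => Iff.rfl
    · intro x hx
      rw [mem_closure_iff]
      intro o ho hxo
      have hO : IsOpen {v : Option β → ℝ | (fun i => v (some i)) ∈ o ∩ U' ∧
          ((p : ℝ) < v none ∧ v none < q)} :=
        (isOpen_mem (ho.inter hU'o) (by fun_prop)).and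
          ((isOpen_lt continuous_const (by fun_prop)).and
            (isOpen_lt (by fun_prop) continuous_const))
      have hmem : cons ((p + q : ℝ) / 2) x ∈ closure {v : Option β → ℝ | ∃ w, Y v w} := by
        refine interior_subset (?_ : cons ((p + q : ℝ) / 2) x ∈ G)
        refine @hVU ((p + q : ℝ) / 2, x) ⟨habV ⟨?_, ?_⟩, interior_subset (hU' hx).1⟩
        · simp only at hap hpq hqb; linarith
        · simp only at hap hpq hqb; linarith
      obtain ⟨v, ⟨hv1, hv2, hv3⟩, w, hw⟩ := mem_closure_iff.1 hmem _ hO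
        ⟨⟨hxo, hx⟩, (by simp only at hpq; linarith : (p : ℝ) < (p + q : ℝ) / 2),
          (by simp only at hpq; linarith : (p + q : ℝ) / 2 < q)⟩
      refine ⟨fun i => v (some i), hv1.1, fun o => o.elim (v none) w, ⟨hv2.le, hv3.le⟩, ?_⟩
      show Y (cons (v none) (fun i => v (some i))) w
      rw [cons_eta]
      exact hw)
  have hx1 : ¬ ∃ w, YS x w := fun h => hxU.2 (subset_closure h)
  have hx2 := hfib x hx1
  have hx3 : Ioo a b ⊆ closure {y | ∃ u, Y (cons y x) u} := by
    intro y hy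
    rw [mem_closure_iff]
    intro o ho hyo
    obtain ⟨c, d, hcd, hcds⟩ := mem_nhds_iff_exists_Ioo_subset.1
      ((ho.inter isOpen_Ioo).mem_nhds ⟨hyo, hy⟩)
    obtain ⟨p, hp1, hp2⟩ := exists_rat_btwn (hcd.1.trans hcd.2)
    obtain ⟨q, hq1, hq2⟩ := exists_rat_btwn hp2
    have hpo := (hcds ⟨hp1, hp2⟩).2
    have hqo := (hcds ⟨hp1.trans hq1, hq2⟩).2
    obtain ⟨w, ⟨hw1, hw2⟩, hw3⟩ := hx ⟨(p, q), hpo.1, hq1, hqo.2⟩
    refine ⟨w none, (hcds ⟨?_, ?_⟩).1, _, hw3⟩
    · exact lt_of_lt_of_le hp1 hw1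
    · exact lt_of_le_of_lt hw2 hq2
  have := interior_maximal hx3 isOpen_Ioo
  rw [hx2] at this
  exact this hab

/-- Main result of this file. -/
theorem rprop (hr : Restrained L) (β : Type) [Finite β] : RProp L β := by
  induction β using Finite.induction_empty_option with
  | of_equiv e h => exact h.congr e
  | h_empty => exact RProp.empty
  | h_option h => exact RProp.option hr h

end Pool.Agent.TH735
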