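import Mathlib
import Pool.Agent.TH735.RProp

set_option autoImplicit false

/-! Locally product relations are locally constant off a small set. -/

namespace Pool.Agent.TH735

open FirstOrder FirstOrder.Language Set Filter Topology
open Pool.Agent.H671T

theorem isClosed_or {X : Type} [TopologicalSpace X] {p q : X → Prop} (hp : IsClosed {x | p x})
    (hq : IsClosed {x | q x}) : IsClosed {x | p x ∨ q x} := hp.union hq

theorem isClosed_ex_fin {X ι : Type} [Finite ι] [TopologicalSpace X] {p : ι → X → Prop}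
    (h : ∀ i, IsClosed {x | p i x}) : IsClosed {x | ∃ i, p i x} := by
  rw [ofPred_exists]
  exact isClosed_iUnion_of_finite h

theorem exists_box2 {β δ : Type} [Finite β] [Finite δ] {O : (β → ℝ) → (δ → ℝ) → Prop}
    {x : β → ℝ} {w : δ → ℝ} (h : ∀ᶠ p in 𝓝 (x, w), O p.1 p.2) :
    ∃ r > 0, ∀ x' w', (∀ i, |x' i - x i| ≤ r) → (∀ j, |w' j - w j| ≤ r) → O x' w' := by
  rw [nhds_prod_eq] at h
  obtain ⟨U, hU, V, hV, hUV⟩ := Filter.mem_prod_iff.1 h
  obtain ⟨r₁, h1, h1'⟩ := exists_box hU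
  obtain ⟨r₂, h2, h2'⟩ := exists_box hV
  refine ⟨min r₁ r₂, lt_min h1 h2, fun x' w' hx hw => ?_⟩
  exact @hUV (x', w') ⟨h1' _ fun i => (hx i).trans (min_le_left _ _),
    h2' _ fun j => (hw j).trans (min_le_right _ _)⟩

theorem eventually_of_box2 {β δ : Type} [Finite β] [Finite δ] {O : (β → ℝ) → (δ → ℝ) → Prop}
    {x : β → ℝ} {w : δ → ℝ} {r : ℝ} (hr : 0 < r)
    (h : ∀ x' w', (∀ i, |x' i - x i| < r) → (∀ j, |w' j - w j| < r) → O x' w') :
    ∀ᶠ p in 𝓝 (x, w), O p.1 p.2 := by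
  rw [nhds_prod_eq]
  refine Filter.mem_prod_iff.2 ⟨_, (isOpen_box x r).mem_nhds (show x ∈ {x' : β → ℝ | ∀ i,
    |x' i - x i| < r} from fun i => by simpa using hr), _, (isOpen_box w r).mem_nhds
    (show w ∈ {w' : δ → ℝ | ∀ i, |w' i - w i| < r} from fun i => by simpa using hr), ?_⟩
  rintro ⟨x', w'⟩ ⟨h1, h2⟩
  exact h x' w' h1 h2

theorem mem_closure_box2 {β δ : Type} [Finite β] [Finite δ] {N : (β → ℝ) → (δ → ℝ) → Prop}
    {x : β → ℝ} {w : δ → ℝ} : (x, w) ∈ closure {p : (β → ℝ) × (δ → ℝ) | N p.1 p.2} ↔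
    ∀ ε, 0 < ε → ∃ x' w', (∀ i, |x' i - x i| < ε) ∧ (∀ j, |w' j - w j| < ε) ∧ N x' w' := by
  rw [mem_closure_iff_frequently]
  constructor
  · intro h ε hε
    by_contra hcon
    push Not at hcon
    apply h
    have := eventually_of_box2 (O := fun x' w' => ¬ N x' w') hε (x := x) (w := w) (by
      intro x' w' h1 h2
      exact hcon x' w' h1 h2)
    exact this
  · intro h hev
    obtain ⟨r, hr, hbox⟩ := exists_box2 (O := fun x' w' => ¬ N x' w') hev
    obtain ⟨x', w', h1, h2, h3⟩ := h r hr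
    exact hbox x' w' (fun i => (h1 i).le) (fun j => (h2 j).le) h3

variable {L : FirstOrder.Language.{0, 0}} [L.Structure ℝ] [RF L]

theorem df_closure2 {β δ α : Type} [Finite β] [Finite δ] [Finite α]
    {N : (β → ℝ) → (δ → ℝ) → Prop}
    (hN : Df L (fun w : β ⊕ δ → ℝ => N (fun i => w (Sum.inl i)) (fun j => w (Sum.inr j))))
    {f : β → (α → ℝ) → ℝ} {g : δ → (α → ℝ) → ℝ} (hf : ∀ i, DfF L (f i))
    (hg : ∀ j, DfF L (g j)) :
    Df L (fun v : α → ℝ => ((fun i => f i v), (fun j => g j v)) ∈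
      closure {p : (β → ℝ) × (δ → ℝ) | N p.1 p.2}) := by
  have h1 : Df L (fun v : α → ℝ => ∀ ε, 0 < ε → ∃ x' : β → ℝ, ∃ w' : δ → ℝ,
      (∀ i, |x' i - f i v| < ε) ∧ (∀ j, |w' j - g j v| < ε) ∧ N x' w') := by
    refine Df.all1 (Q := fun ε (v : α → ℝ) => 0 < ε → ∃ x' : β → ℝ, ∃ w' : δ → ℝ,
      (∀ i, |x' i - f i v| < ε) ∧ (∀ j, |w' j - g j v| < ε) ∧ N x' w') ?_
    refine (Dlt (Dconst _) (Dvar _)).imp ?_
    refine Df.exT (Q := fun x' (v : Option α → ℝ) => ∃ w' : δ → ℝ,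
      (∀ i, |x' i - f i (fun k => v (some k))| < v none) ∧
      (∀ j, |w' j - g j (fun k => v (some k))| < v none) ∧ N x' w') ?_
    refine Df.exT (Q := fun w' (v : Option α ⊕ β → ℝ) =>
      (∀ i, |v (Sum.inr i) - f i (fun k => v (Sum.inl (some k)))| < v (Sum.inl none)) ∧
      (∀ j, |w' j - g j (fun k => v (Sum.inl (some k)))| < v (Sum.inl none)) ∧
      N (fun i => v (Sum.inr i)) w') ?_
    refine (Df.all_fin fun i => ?_).and ((Df.all_fin fun j => ?_).and ?_)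
    · exact Dlt (Dabs (Dsub (Dvar _) ((hf i).relabel _))) (Dvar _)
    · exact Dlt (Dabs (Dsub (Dvar _) ((hg j).relabel _))) (Dvar _)
    · exact hN.relabel (Sum.elim (fun i => Sum.inl (Sum.inr i)) Sum.inr)
  refine h1.congr fun v => ?_
  rw [mem_closure_box2]

/-- Locally product relations are locally constant off a closed nowhere dense set. -/
theorem nb (hr : Restrained L) {β δ : Type} [Finite β] [Finite δ]
    {O T : (β → ℝ) → (δ → ℝ) → Prop}
    (hO : IsOpen {p : (β → ℝ) × (δ → ℝ) | O p.1 p.2})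
    (hOd : Df L (fun w : β ⊕ δ → ℝ => O (fun i => w (Sum.inl i)) (fun j => w (Sum.inr j))))
    (hTd : Df L (fun w : β ⊕ δ → ℝ => T (fun i => w (Sum.inl i)) (fun j => w (Sum.inr j))))
    (hT : ∀ x w, O x w → ¬ T x w → ∀ᶠ p in 𝓝 (x, w), ¬ T p.1 p.2)
    (hl : ∀ x w, O x w → ∀ᶠ w' in 𝓝 w, (T x w' ↔ T x w)) :
    ∃ Z : Set (β → ℝ), IsClosed Z ∧ interior Z = ∅ ∧ Df L (fun x => x ∈ Z) ∧
      ∀ x, x ∉ Z → ∀ w, O x w → ∀ᶠ p in 𝓝 (x, w), (T p.1 p.2 ↔ T x w) := by
  have hOe : ∀ x w, O x w → ∀ᶠ p in 𝓝 (x, w), O p.1 p.2 := fun x w h => hO.mem_nhds h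
  set N : (β → ℝ) → (δ → ℝ) → Prop := fun x w => O x w ∧ ¬ T x w with hN
  set P : (β → ℝ) → (δ → ℝ) → Prop := fun x w => O x w ∧ T x w with hP
  set Y : (β → ℝ) → (Option δ → ℝ) → Prop := fun x w =>
    (∀ (x' : β → ℝ) (w' : δ → ℝ), ¬ O x' w' → (∃ i, 1 ≤ w none * |x i - x' i|) ∨
      (∃ j, 1 ≤ w none * |w (some j) - w' j|)) ∧
    (x, fun j => w (some j)) ∈ closure {p : (β → ℝ) × (δ → ℝ) | N p.1 p.2} ∧
    (x, fun j => w (some j)) ∈ closure {p : (β → ℝ) × (δ → ℝ) | P p.1 p.2} with hY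
  have hBiff : ∀ x, (∃ w, Y x w) ↔ ∃ w, O x w ∧ T x w ∧
      (x, w) ∈ closure {p : (β → ℝ) × (δ → ℝ) | N p.1 p.2} := by
    intro x
    constructor
    · rintro ⟨w, h1, h2, h3⟩
      have hOx : O x (fun j => w (some j)) := by
        by_contra hcon
        rcases h1 _ _ hcon with ⟨i, hi⟩ | ⟨j, hj⟩
        · simp at hi
          linarith
        · simp at hj
          linarith
      refine ⟨_, hOx, ?_, h2⟩
      by_contra hcon
      exact (mem_closure_iff_frequently.1 h3) ((hT _ _ hOx hcon).mono fun p hp h => hp h.2)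
    · rintro ⟨w, hOw, hTw, h⟩
      obtain ⟨r, hr, hbox⟩ := exists_box2 (hOe x w hOw)
      refine ⟨fun o => o.elim (1 / r) w, ?_, h, ?_⟩
      · intro x' w' hcon
        show (∃ i, 1 ≤ 1 / r * |x i - x' i|) ∨ (∃ j, 1 ≤ 1 / r * |w j - w' j|)
        by_contra hno
        push Not at hno
        apply hcon
        refine hbox x' w' (fun i => ?_) (fun j => ?_)
        · have := hno.1 i
          rw [one_div, inv_mul_lt_iff₀ hr, mul_one] at this
          rw [abs_sub_comm]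
          exact this.le
        · have := hno.2 j
          rw [one_div, inv_mul_lt_iff₀ hr, mul_one] at this
          rw [abs_sub_comm]
          exact this.le
      · exact subset_closure ⟨hOw, hTw⟩
  have hYc : IsClosed {p : (β → ℝ) × (Option δ → ℝ) | Y p.1 p.2} := by
    refine IsClosed.and (isClosed_all fun x' => isClosed_all fun w' =>
      isClosed_imp isOpen_const (isClosed_or (isClosed_ex_fin fun i => ?_)
        (isClosed_ex_fin fun j => ?_))) ?_
    · exact isClosed_le continuous_const (by fun_prop)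
    · exact isClosed_le continuous_const (by fun_prop)
    · exact IsClosed.and (isClosed_closure.preimage (by fun_prop))
        (isClosed_closure.preimage (by fun_prop))
  have hYd : Df L (fun w : β ⊕ Option δ → ℝ => Y (fun i => w (Sum.inl i))
      (fun j => w (Sum.inr j))) := by
    refine Df.and ?_ (Df.and ?_ ?_)
    · refine Df.allT (Q := fun x' (w : β ⊕ Option δ → ℝ) => ∀ w' : δ → ℝ, ¬ O x' w' →
        (∃ i, 1 ≤ w (Sum.inr none) * |w (Sum.inl i) - x' i|) ∨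
        (∃ j, 1 ≤ w (Sum.inr none) * |w (Sum.inr (some j)) - w' j|)) ?_
      refine Df.allT (Q := fun w' (w : (β ⊕ Option δ) ⊕ β → ℝ) => ¬ O (fun i => w (Sum.inr i)) w' →
        (∃ i, 1 ≤ w (Sum.inl (Sum.inr none)) * |w (Sum.inl (Sum.inl i)) - w (Sum.inr i)|) ∨
        (∃ j, 1 ≤ w (Sum.inl (Sum.inr none)) * |w (Sum.inl (Sum.inr (some j))) - w' j|)) ?_
      refine (Df.not ?_).imp ((Df.ex_fin fun i => ?_).or (Df.ex_fin fun j => ?_))
      · exact hOd.relabel (Sum.elim (fun i => Sum.inl (Sum.inr i)) Sum.inr)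
      · exact Dle (Dconst _) (Dmul (Dvar _) (Dabs (Dsub (Dvar _) (Dvar _))))
      · exact Dle (Dconst _) (Dmul (Dvar _) (Dabs (Dsub (Dvar _) (Dvar _))))
    · exact df_closure2 (N := N) (hOd.and hTd.not) (fun i => Dvar _) (fun j => Dvar _)
    · exact df_closure2 (N := P) (hOd.and hTd) (fun i => Dvar _) (fun j => Dvar _)
  -- meagreness
  set e : ℕ → (δ → ℝ) := TopologicalSpace.denseSeq (δ → ℝ) with he
  set Fr : ℕ → Set (β → ℝ) := fun k => {x | P x (e k) ∧ x ∈ closure {x' | N x' (e k)}} with hFr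
  have hFri : ∀ k, interior (closure (Fr k)) = ∅ := by
    intro k
    by_contra hne
    obtain ⟨x₀, hx₀⟩ := nonempty_iff_ne_empty.2 hne
    obtain ⟨x₁, hx₁, hx₁'⟩ := mem_closure_iff.1 (interior_subset hx₀) _ isOpen_interior hx₀
    obtain ⟨x₂, hx₂, hx₂'⟩ := mem_closure_iff.1 hx₁'.2 _ isOpen_interior hx₁
    have hc : Tendsto (fun x : β → ℝ => (x, e k)) (𝓝 x₂) (𝓝 (x₂, e k)) := by
      have : Continuous (fun x : β → ℝ => (x, e k)) := by fun_prop
      exact this.tendsto _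
    have h1 := hc.eventually (hT x₂ (e k) hx₂'.1 hx₂'.2)
    have h2 := mem_closure_iff_frequently.1 (interior_subset hx₂)
    exact h2 (h1.mono fun x hx hx' => hx hx'.1.2)
  have hBF : ∀ x, (∃ w, Y x w) → ∃ k, x ∈ Fr k := by
    intro x hx
    obtain ⟨w, hOw, hTw, hcl⟩ := (hBiff x).1 hx
    have := Fintype.ofFinite δ
    have hev := hOe x w hOw
    rw [nhds_prod_eq] at hev
    obtain ⟨U, hU, V, hV, hUV⟩ := Filter.mem_prod_iff.1 hev
    obtain ⟨ρ, hρ, hρV⟩ := Metric.mem_nhds_iff.1 hV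
    have hpre : IsPreconnected (Metric.ball w ρ) := (convex_ball w ρ).isPreconnected
    have hconst : ∀ x' ∈ U, ∀ w₁ ∈ Metric.ball w ρ, ∀ w₂ ∈ Metric.ball w ρ,
        (T x' w₁ ↔ T x' w₂) := by
      intro x' hx' w₁ hw₁ w₂ hw₂
      refine hpre.induction₂ (fun w₁ w₂ => (T x' w₁ ↔ T x' w₂)) ?_ ?_ ?_ hw₁ hw₂
      · intro w₃ hw₃
        have h3 : O x' w₃ := @hUV (x', w₃) ⟨hx', hρV hw₃⟩
        have h4 := hl x' w₃ h3
        exact (h4.filter_mono nhdsWithin_le_nhds).mono fun w₄ h => h.symm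
      · intro a b c _ _ _ h1 h2
        exact h1.trans h2
      · intro a b _ _ h1
        exact h1.symm
    obtain ⟨_, hw'b, k, rfl⟩ := (TopologicalSpace.denseRange_denseSeq (δ → ℝ)).exists_mem_open
      (Metric.isOpen_ball (x := w) (ε := ρ)) ⟨w, Metric.mem_ball_self hρ⟩ |>.elim
        (fun k hk => (⟨_, hk, k, rfl⟩ : ∃ w', w' ∈ Metric.ball w ρ ∧ ∃ k, e k = w'))
    have hxU : x ∈ U := mem_of_mem_nhds hU
    refine ⟨k, ⟨@hUV (x, e k) ⟨hxU, hρV hw'b⟩, ?_⟩, ?_⟩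
    · exact (hconst x hxU w (Metric.mem_ball_self hρ) _ hw'b).1 hTw
    · rw [mem_closure_iff_nhds]
      intro o ho
      have hn : (o ∩ U) ×ˢ Metric.ball w ρ ∈ 𝓝 (x, w) :=
        prod_mem_nhds (inter_mem ho hU) (Metric.ball_mem_nhds w hρ)
      obtain ⟨⟨x₁, w₁⟩, ⟨h1, h2⟩, h3, h4⟩ := mem_closure_iff_nhds.1 hcl _ hn
      refine ⟨x₁, h1.1, @hUV (x₁, e k) ⟨h1.2, hρV hw'b⟩, ?_⟩
      intro h5
      exact h4 ((hconst x₁ h1.2 _ hw'b w₁ h2).1 h5)
  have hBi : interior {x | ∃ w, Y x w} = ∅ := by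
    by_contra hne
    obtain ⟨k, x, hx, hx'⟩ := baire_open isOpen_interior (nonempty_iff_ne_empty.2 hne)
      (F := fun k => closure (Fr k)) (fun k => isClosed_closure) (fun x hx => by
        have hx' : x ∈ {x | ∃ w, Y x w} := interior_subset hx
        obtain ⟨k, hk⟩ := hBF x hx'
        exact mem_iUnion.2 ⟨k, subset_closure hk⟩)
    rw [hFri k] at hx'
    exact hx'
  refine ⟨closure {x | ∃ w, Y x w}, isClosed_closure, ?_, ?_, ?_⟩
  · exact rprop hr β (Option δ) Y hYc hYd hBi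
  · exact Df.closure (P := fun x => ∃ w, Y x w) (Df.exT (Q := fun w x => Y x w) hYd)
  · intro x hx w hOw
    by_cases hTw : T x w
    · have h1 : (x, w) ∉ closure {p : (β → ℝ) × (δ → ℝ) | N p.1 p.2} := by
        intro h
        exact hx (subset_closure ((hBiff x).2 ⟨w, hOw, hTw, h⟩))
      rw [mem_closure_iff_frequently, not_frequently] at h1
      filter_upwards [h1, hOe x w hOw] with p hp hpO
      simp only [hTw, iff_true]
      by_contra hcon
      exact hp ⟨hpO, hcon⟩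
    · filter_upwards [hT x w hOw hTw] with p hp
      simp [hTw, hp]

end Pool.Agent.TH735
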