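import Mathlib
import Pool.Agent.TH735.Nb

set_option autoImplicit false

/-! Definable families of closed nowhere dense sets are tame off a small set. -/

namespace Pool.Agent.TH735

open FirstOrder FirstOrder.Language Set Filter Topology
open Pool.Agent.H671T

/-- A definable family with closed graph without interior. -/
structure Nice (L : FirstOrder.Language.{0, 0}) [L.Structure ℝ] {β : Type}
    (E : (β → ℝ) → Set ℝ) : Prop where
  closed : IsClosed {p : (β → ℝ) × ℝ | p.2 ∈ E p.1}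
  nd : interior {p : (β → ℝ) × ℝ | p.2 ∈ E p.1} = ∅
  df : Df L (fun w : Option β → ℝ => w none ∈ E (fun i => w (some i)))

/-- Closed nowhere dense definable sets. -/
structure Small (L : FirstOrder.Language.{0, 0}) [L.Structure ℝ] {β : Type}
    (Z : Set (β → ℝ)) : Prop where
  closed : IsClosed Z
  int : interior Z = ∅
  df : Df L (fun x => x ∈ Z)

variable {L : FirstOrder.Language.{0, 0}} [L.Structure ℝ]

theorem Small.union {β : Type} {Z Z' : Set (β → ℝ)} (h : Small L Z) (h' : Small L Z') :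
    Small L (Z ∪ Z') where
  closed := h.closed.union h'.closed
  int := by rw [interior_union_isClosed_of_interior_empty h.closed h'.int, h.int]
  df := h.df.or h'.df

theorem Small.inter_compl {β : Type} {Z : Set (β → ℝ)} (h : Small L Z) {U : Set (β → ℝ)}
    (hU : IsOpen U) (hne : U.Nonempty) : (U ∩ Zᶜ).Nonempty := by
  by_contra hcon
  rw [not_nonempty_iff_eq_empty] at hcon
  have h1 : U ⊆ Z := fun x hx => by
    by_contra h
    exact (eq_empty_iff_forall_notMem.1 hcon x) ⟨hx, h⟩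
  have h2 := interior_maximal h1 hU
  rw [h.int] at h2
  obtain ⟨x, hx⟩ := hne
  exact h2 hx

namespace Nice

variable {β : Type} {E : (β → ℝ) → Set ℝ}

theorem fclosed (hE : Nice L E) (x : β → ℝ) : IsClosed (E x) :=
  hE.closed.preimage (by fun_prop : Continuous fun y : ℝ => (x, y))

theorem ev (hE : Nice L E) {x : β → ℝ} {y : ℝ} (h : y ∉ E x) :
    ∀ᶠ p in 𝓝 (x, y), p.2 ∉ E p.1 := hE.closed.isOpen_compl.mem_nhds h

theorem nbd (hE : Nice L E) {x : β → ℝ} {y : ℝ} (h : y ∉ E x) :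
    ∃ δ > 0, ∀ y', |y' - y| ≤ δ → y' ∉ E x := by
  obtain ⟨δ, hδ, hb⟩ := Metric.nhds_basis_closedBall.mem_iff.1
    ((hE.fclosed x).isOpen_compl.mem_nhds h)
  refine ⟨δ, hδ, fun y' hy' => hb ?_⟩
  rw [Metric.mem_closedBall, Real.dist_eq]
  exact hy'

theorem mem [RF L] (hE : Nice L E) [Finite β] {α : Type} [Finite α] {f : (α → ℝ) → ℝ}
    {g : β → (α → ℝ) → ℝ} (hf : DfF L f) (hg : ∀ i, DfF L (g i)) :
    Df L (fun v => f v ∈ E (fun i => g i v)) :=
  Df.substT (f := fun (o : Option β) (v : α → ℝ) => o.elim (f v) (fun i => g i v)) hE.df (by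
    rintro (_ | i)
    · exact hf
    · exact hg i)

end Nice

variable [RF L]

section

variable {β : Type} [Finite β] {E : (β → ℝ) → Set ℝ}

/-- Fibres have empty interior off a small set. -/
theorem exists_Z0 (hr : Restrained L) (hE : Nice L E) :
    ∃ Z, Small L Z ∧ ∀ x, x ∉ Z → interior (E x) = ∅ := by
  set YS : (β → ℝ) → (Fin 3 → ℝ) → Prop := fun x w => 0 ≤ w 0 ∧ 1 ≤ w 0 * (w 2 - w 1) ∧
    ∀ y, w 1 < y → y < w 2 → y ∈ E x with hYS
  have hYSc : IsClosed {p : (β → ℝ) × (Fin 3 → ℝ) | YS p.1 p.2} := by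
    refine (isClosed_le continuous_const (by fun_prop)).and
      ((isClosed_le continuous_const (by fun_prop)).and (isClosed_all fun y => ?_))
    refine isClosed_imp (isOpen_lt (by fun_prop) continuous_const)
      (isClosed_imp (isOpen_lt continuous_const (by fun_prop)) ?_)
    exact hE.closed.preimage (by fun_prop :
      Continuous fun p : (β → ℝ) × (Fin 3 → ℝ) => (p.1, y))
  have hYSd : Df L (fun w : β ⊕ Fin 3 → ℝ => YS (fun i => w (Sum.inl i))
      (fun j => w (Sum.inr j))) := by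
    refine (Dle (Dconst _) (Dvar _)).and ((Dle (Dconst _) (Dmul (Dvar _)
      (Dsub (Dvar _) (Dvar _)))).and ?_)
    refine Df.all1 (Q := fun y (w : β ⊕ Fin 3 → ℝ) => w (Sum.inr 1) < y → y < w (Sum.inr 2) →
      y ∈ E (fun i => w (Sum.inl i))) ?_
    exact (Dlt (Dvar _) (Dvar _)).imp ((Dlt (Dvar _) (Dvar _)).imp
      (hE.mem (Dvar _) (fun i => Dvar _)))
  have hYSi : interior {x | ∃ w, YS x w} = ∅ := by
    by_contra hne
    obtain ⟨⟨p, q⟩, hx⟩ := baire_open isOpen_interior (nonempty_iff_ne_empty.2 hne)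
      (F := fun k : ℚ × ℚ => {x : β → ℝ | (k.1 : ℝ) < k.2 ∧
        ∀ y, (k.1 : ℝ) < y → y < k.2 → y ∈ E x}) (by
        rintro ⟨p, q⟩
        refine isClosed_const.and (isClosed_all fun y => ?_)
        refine isClosed_imp isOpen_const (isClosed_imp isOpen_const ?_)
        exact hE.closed.preimage (by fun_prop : Continuous fun x : (β → ℝ) => (x, y))) (by
        intro x hx
        obtain ⟨w, h0, h1, h2⟩ := interior_subset hx
        have hcd : w 1 < w 2 := by
          by_contra hcon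
          push Not at hcon
          nlinarith
        obtain ⟨p, hp1, hp2⟩ := exists_rat_btwn hcd
        obtain ⟨q, hq1, hq2⟩ := exists_rat_btwn hp2
        exact mem_iUnion.2 ⟨(p, q), hq1, fun y hy1 hy2 => h2 y (hp1.trans hy1) (hy2.trans hq2)⟩)
    obtain ⟨x₀, hx₀, hx₀F⟩ := hx
    set F := {x : β → ℝ | (p : ℝ) < q ∧ ∀ y, (p : ℝ) < y → y < q → y ∈ E x} with hF
    have hpq : (p : ℝ) < q := (interior_subset hx₀F : x₀ ∈ F).1
    have hV : IsOpen {v : (β → ℝ) × ℝ | v.1 ∈ interior F ∧ ((p : ℝ) < v.2 ∧ v.2 < q)} :=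
      (isOpen_mem isOpen_interior (by fun_prop)).and
        ((isOpen_lt continuous_const (by fun_prop)).and
          (isOpen_lt (by fun_prop) continuous_const))
    have hVA := interior_maximal (s := {p : (β → ℝ) × ℝ | p.2 ∈ E p.1}) (fun v hv =>
      (interior_subset hv.1 : v.1 ∈ F).2 v.2 hv.2.1 hv.2.2) hV
    rw [hE.nd] at hVA
    exact hVA (show (x₀, ((p + q : ℝ) / 2)) ∈ {v : (β → ℝ) × ℝ | v.1 ∈ interior F ∧
      ((p : ℝ) < v.2 ∧ v.2 < q)} from ⟨hx₀F, (by linarith : (p : ℝ) < (p + q : ℝ) / 2),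
        (by linarith : (p + q : ℝ) / 2 < q)⟩)
  refine ⟨closure {x | ∃ w, YS x w}, ⟨isClosed_closure, ?_, ?_⟩, ?_⟩
  · exact rprop hr β (Fin 3) YS hYSc hYSd hYSi
  · exact Df.closure (P := fun x => ∃ w, YS x w) (Df.exT (Q := fun w x => YS x w) hYSd)
  · intro x hx
    by_contra hne
    obtain ⟨y, hy⟩ := nonempty_iff_ne_empty.2 hne
    obtain ⟨c, d, hcd, hcds⟩ := mem_nhds_iff_exists_Ioo_subset.1
      (isOpen_interior.mem_nhds hy)
    have hcd' : 0 < d - c := by linarith [hcd.1, hcd.2]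
    refine hx (subset_closure ⟨![1 / (d - c), c, d], ?_, ?_, ?_⟩)
    · simp only [Matrix.cons_val_zero]
      positivity
    · simp only [Matrix.cons_val_zero, Matrix.cons_val_one, Matrix.cons_val]
      rw [one_div, inv_mul_cancel₀ hcd'.ne']
    · intro y hy1 hy2
      simp only [Matrix.cons_val_one, Matrix.cons_val] at hy1 hy2
      exact interior_subset (hcds ⟨hy1, hy2⟩)

/-- The family of `E` meets the closed set `A` in a box. -/
def TA {α : Type} (A : (α → ℝ) → Prop) (E : (β → ℝ) → Set ℝ) (x : β → ℝ) (u v : α → ℝ) : Prop :=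
  ∃ e, A e ∧ ∀ a, e a ∈ E x ∧ u a < e a ∧ e a < v a

theorem exists_ZA (hr : Restrained L) (hE : Nice L E) {α : Type} [Finite α]
    {A : (α → ℝ) → Prop} (hA : IsClosed {v | A v}) (hAd : Df L A) :
    ∃ Z, Small L Z ∧ ∀ x, x ∉ Z → ∀ u v : α → ℝ, (∀ a, u a ∉ E x ∧ v a ∉ E x) →
      ∀ᶠ p in 𝓝 (x, (u, v)), (TA A E p.1 p.2.1 p.2.2 ↔ TA A E x u v) := by
  refine Exists.elim (nb (L := L) hr (β := β) (δ := α ⊕ α)
    (O := fun x w => ∀ a, w (Sum.inl a) ∉ E x ∧ w (Sum.inr a) ∉ E x)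
    (T := fun x w => TA A E x (fun a => w (Sum.inl a)) (fun a => w (Sum.inr a)))
    ?_ ?_ ?_ ?_ ?_) ?_
  · refine isOpen_all_fin fun a => IsOpen.and ?_ ?_
    · exact hE.closed.isOpen_compl.preimage (by fun_prop :
        Continuous fun p : (β → ℝ) × (α ⊕ α → ℝ) => (p.1, p.2 (Sum.inl a)))
    · exact hE.closed.isOpen_compl.preimage (by fun_prop :
        Continuous fun p : (β → ℝ) × (α ⊕ α → ℝ) => (p.1, p.2 (Sum.inr a)))
  · refine Df.all_fin fun a => Df.and ?_ ?_
    · exact (hE.mem (Dvar _) (fun i => Dvar _)).not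
    · exact (hE.mem (Dvar _) (fun i => Dvar _)).not
  · refine Df.exT (Q := fun e (w : β ⊕ (α ⊕ α) → ℝ) => A e ∧ ∀ a,
      e a ∈ E (fun i => w (Sum.inl i)) ∧ w (Sum.inr (Sum.inl a)) < e a ∧
        e a < w (Sum.inr (Sum.inr a))) ?_
    refine (hAd.relabel Sum.inr).and (Df.all_fin fun a => Df.and ?_ (Df.and ?_ ?_))
    · exact hE.mem (Dvar _) (fun i => Dvar _)
    · exact Dlt (Dvar _) (Dvar _)
    · exact Dlt (Dvar _) (Dvar _)
  · intro x w hO hnT
    -- compactness
    obtain ⟨u, hu⟩ : ∃ u : α → ℝ, u = fun a => w (Sum.inl a) := ⟨_, rfl⟩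
    obtain ⟨v, hv⟩ : ∃ v : α → ℝ, v = fun a => w (Sum.inr a) := ⟨_, rfl⟩
    have hK : IsCompact (Set.pi univ (fun a => Icc (u a - 1) (v a + 1))) :=
      isCompact_univ_pi fun _ => isCompact_Icc
    have h1 := hK.eventually_forall_of_forall_eventually (x₀ := (x, w))
      (P := fun (p : (β → ℝ) × (α ⊕ α → ℝ)) e => ¬ (A e ∧ ∀ a, e a ∈ E p.1 ∧
        p.2 (Sum.inl a) < e a ∧ e a < p.2 (Sum.inr a))) (by
      intro e _
      by_cases hAe : A e
      · have : ∃ a, ¬ (e a ∈ E x ∧ w (Sum.inl a) < e a ∧ e a < w (Sum.inr a)) := by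
          by_contra hcon
          push Not at hcon
          exact hnT ⟨e, hAe, hcon⟩
        obtain ⟨a, ha⟩ := this
        by_cases hEe : e a ∈ E x
        · have h2 : e a ≠ w (Sum.inl a) := fun h => (hO a).1 (h ▸ hEe)
          have h3 : e a ≠ w (Sum.inr a) := fun h => (hO a).2 (h ▸ hEe)
          rcases lt_or_gt_of_ne h2 with h4 | h4
          · have hopen : IsOpen {z : ((β → ℝ) × (α ⊕ α → ℝ)) × (α → ℝ) |
                z.2 a < z.1.2 (Sum.inl a)} := isOpen_lt (by fun_prop) (by fun_prop)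
            filter_upwards [hopen.mem_nhds (show ((x, w), e) ∈ {z : ((β → ℝ) ×
              (α ⊕ α → ℝ)) × (α → ℝ) | z.2 a < z.1.2 (Sum.inl a)} from h4)] with z hz hz'
            exact absurd (hz'.2 a).2.1 (not_lt.2 (le_of_lt hz))
          · rcases lt_or_gt_of_ne h3 with h5 | h5
            · exact absurd ⟨hEe, h4, h5⟩ ha
            · have hopen : IsOpen {z : ((β → ℝ) × (α ⊕ α → ℝ)) × (α → ℝ) |
                  z.1.2 (Sum.inr a) < z.2 a} := isOpen_lt (by fun_prop) (by fun_prop)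
              filter_upwards [hopen.mem_nhds (show ((x, w), e) ∈ {z : ((β → ℝ) ×
                (α ⊕ α → ℝ)) × (α → ℝ) | z.1.2 (Sum.inr a) < z.2 a} from h5)] with z hz hz'
              exact absurd (hz'.2 a).2.2 (not_lt.2 (le_of_lt hz))
        · have hc : Continuous (fun z : ((β → ℝ) × (α ⊕ α → ℝ)) × (α → ℝ) =>
              (z.1.1, z.2 a)) := by fun_prop
          filter_upwards [(hc.tendsto ((x, w), e)).eventually (hE.ev hEe)] with z hz hz'
          exact hz (hz'.2 a).1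
      · have hopen : IsOpen {z : ((β → ℝ) × (α ⊕ α → ℝ)) × (α → ℝ) | ¬ A z.2} :=
          hA.isOpen_compl.preimage (by fun_prop :
            Continuous fun z : ((β → ℝ) × (α ⊕ α → ℝ)) × (α → ℝ) => z.2)
        filter_upwards [hopen.mem_nhds (show ((x, w), e) ∈ {z : ((β → ℝ) ×
          (α ⊕ α → ℝ)) × (α → ℝ) | ¬ A z.2} from hAe)] with z hz hz'
        exact hz hz'.1)
    have h2 : ∀ᶠ p in 𝓝 (x, w), ∀ j, |p.2 j - w j| ≤ 1 := by
      have := eventually_of_box2 (O := fun (_ : β → ℝ) (w' : α ⊕ α → ℝ) => ∀ j,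
        |w' j - w j| ≤ 1) (x := x) (w := w) one_pos (fun _ w' _ h j => (h j).le)
      exact this
    filter_upwards [h1, h2] with p g1 g2
    rintro ⟨e, he1, he2⟩
    refine g1 e ?_ ⟨he1, he2⟩
    intro a _
    have g3 := abs_le.1 (g2 (Sum.inl a))
    have g4 := abs_le.1 (g2 (Sum.inr a))
    have g5 := he2 a
    subst hu hv
    refine ⟨?_, ?_⟩
    · show w (Sum.inl a) - 1 ≤ e a
      linarith [g5.2.1]
    · show e a ≤ w (Sum.inr a) + 1
      linarith [g5.2.2]
  · intro x w hO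
    have h1 : ∀ j, ∀ᶠ w' in 𝓝 w, ∀ z ∈ E x, (z < w' j ↔ z < w j) ∧ (w' j < z ↔ w j < z) := by
      intro j
      have hj : w j ∉ E x := by
        rcases j with a | a
        · exact (hO a).1
        · exact (hO a).2
      obtain ⟨δ, hδ, hb⟩ := hE.nbd hj
      have hopen : IsOpen {w' : α ⊕ α → ℝ | |w' j - w j| < δ} :=
        isOpen_lt (by fun_prop) continuous_const
      filter_upwards [hopen.mem_nhds (show w ∈ {w' : α ⊕ α → ℝ | |w' j - w j| < δ} by
        simpa using hδ)] with w' hw' z hz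
      have hw'' := abs_lt.1 (show |w' j - w j| < δ from hw')
      have hzn : δ < |z - w j| := by
        by_contra hcon
        exact hb z (not_lt.1 hcon) hz
      rcases lt_abs.1 hzn with h | h
      · constructor <;> constructor <;> intro <;> linarith
      · constructor <;> constructor <;> intro <;> linarith
    filter_upwards [eventually_all.2 h1] with w' hw'
    constructor
    · rintro ⟨e, h2, h3⟩
      refine ⟨e, h2, fun a => ⟨(h3 a).1, ?_, ?_⟩⟩
      · exact (hw' (Sum.inl a) (e a) (h3 a).1).2.1 (h3 a).2.1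
      · exact (hw' (Sum.inr a) (e a) (h3 a).1).1.1 (h3 a).2.2
    · rintro ⟨e, h2, h3⟩
      refine ⟨e, h2, fun a => ⟨(h3 a).1, ?_, ?_⟩⟩
      · exact (hw' (Sum.inl a) (e a) (h3 a).1).2.2 (h3 a).2.1
      · exact (hw' (Sum.inr a) (e a) (h3 a).1).1.2 (h3 a).2.2
  · rintro Z ⟨hZ1, hZ2, hZ3, hZ4⟩
    refine ⟨Z, ⟨hZ1, hZ2, hZ3⟩, fun x hx u v huv => ?_⟩
    have h1 := hZ4 x hx (Sum.elim u v) huv
    have hc : Tendsto (fun p : (β → ℝ) × (α → ℝ) × (α → ℝ) => (p.1, Sum.elim p.2.1 p.2.2))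
        (𝓝 (x, (u, v))) (𝓝 (x, Sum.elim u v)) := by
      have : Continuous (fun p : (β → ℝ) × (α → ℝ) × (α → ℝ) =>
          (p.1, Sum.elim p.2.1 p.2.2)) := by
        refine continuous_fst.prodMk (continuous_pi ?_)
        rintro (a | a)
        · exact (continuous_apply a).comp (continuous_fst.comp continuous_snd)
        · exact (continuous_apply a).comp (continuous_snd.comp continuous_snd)
      exact this.tendsto _
    exact hc.eventually h1

end

end Pool.Agent.TH735
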