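import Mathlib
import Pool.Agent.TH735.Tame

set_option autoImplicit false

/-! Bands exist off a small set. -/

namespace Pool.Agent.TH735

open FirstOrder FirstOrder.Language Set Filter Topology
open Pool.Agent.H671T

variable {L : FirstOrder.Language.{0, 0}} [L.Structure ℝ] [RF L]

section

variable {β : Type} [Finite β] {E : (β → ℝ) → Set ℝ}

/-- Lower semicontinuity off a small set. -/
theorem exists_Z1 (hr : Restrained L) (hE : Nice L E) :
    ∃ Z, Small L Z ∧ ∀ x, x ∉ Z → interior (E x) = ∅ ∧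
      ∀ y ∈ E x, ∀ ε, 0 < ε → ∀ᶠ x' in 𝓝 x, ∃ y' ∈ E x', |y' - y| < ε := by
  obtain ⟨Z₀, hZ₀, h0⟩ := exists_Z0 hr hE
  obtain ⟨Z₁, hZ₁, h1⟩ := exists_ZA hr hE (α := Unit) (A := fun _ => True) isClosed_univ
    (Df.const True)
  refine ⟨Z₀ ∪ Z₁, hZ₀.union hZ₁, fun x hx => ?_⟩
  rw [mem_union, not_or] at hx
  refine ⟨h0 x hx.1, fun y hy ε hε => ?_⟩
  obtain ⟨u, hu1, hu2, hu⟩ := exists_notMem_of_interior (h0 x hx.1) (show y - ε < y by linarith)
  obtain ⟨v, hv1, hv2, hv⟩ := exists_notMem_of_interior (h0 x hx.1) (show y < y + ε by linarith)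
  have h2 := h1 x hx.2 (fun _ => u) (fun _ => v) (fun _ => ⟨hu, hv⟩)
  have h3 : TA (fun _ => True) E x (fun _ : Unit => u) (fun _ => v) :=
    ⟨fun _ => y, trivial, fun _ => ⟨hy, hu2, hv1⟩⟩
  have hc : Tendsto (fun x' : β → ℝ => (x', ((fun _ : Unit => u), (fun _ : Unit => v))))
      (𝓝 x) (𝓝 (x, ((fun _ : Unit => u), (fun _ : Unit => v)))) := by
    have : Continuous (fun x' : β → ℝ => (x', ((fun _ : Unit => u), (fun _ : Unit => v)))) := by
      fun_prop
    exact this.tendsto _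
  filter_upwards [hc.eventually h2] with x' hx'
  obtain ⟨e, -, he⟩ := hx'.2 h3
  refine ⟨e (), (he ()).1, abs_lt.2 ⟨?_, ?_⟩⟩
  · linarith [(he ()).2.1]
  · linarith [(he ()).2.2]

/-- A wide gap near the origin around `y`. -/
def Wr (E : (β → ℝ) → Set ℝ) (x : β → ℝ) (y R : ℝ) : Prop :=
  ∃ a b, a < y ∧ y < b ∧ a < R ∧ -R < b ∧ 1 < R * (b - a) ∧ ∀ z, a ≤ z → z ≤ b → z ∉ E x

omit [RF L] [Finite β] in
theorem Wr.nm {x : β → ℝ} {y R : ℝ} (h : Wr E x y R) : y ∉ E x := by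
  obtain ⟨a, b, h1, h2, -, -, -, h3⟩ := h
  exact h3 y h1.le h2.le

omit [RF L] [Finite β] in
theorem Wr.sat (hE : Nice L E) {x : β → ℝ} {y y' R : ℝ} (h : Wr E x y R)
    (hy : ∀ z ∈ uIcc y y', z ∉ E x) : Wr E x y' R := by
  obtain ⟨a, b, h1, h2, h3, h4, h5, h6⟩ := h
  obtain ⟨δ, hδ, hb⟩ := hE.nbd (hy y' right_mem_uIcc)
  have hab : 0 < b - a := by linarith
  have hR : 0 < R := by
    by_contra hcon
    push Not at hcon
    nlinarith
  refine ⟨min a (y' - δ), max b (y' + δ), ?_, ?_, ?_, ?_, ?_, ?_⟩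
  · exact (min_le_right _ _).trans_lt (by linarith)
  · exact lt_of_lt_of_le (by linarith) (le_max_right _ _)
  · exact (min_le_left _ _).trans_lt h3
  · exact h4.trans_le (le_max_left _ _)
  · have g1 := min_le_left a (y' - δ)
    have g2 := le_max_left b (y' + δ)
    nlinarith
  · intro z hz1 hz2
    by_cases hza : a ≤ z ∧ z ≤ b
    · exact h6 z hza.1 hza.2
    by_cases hzd : |z - y'| ≤ δ
    · exact hb z hzd
    apply hy z
    rw [mem_uIcc]
    by_contra hcon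
    push Not at hcon
    rw [not_and_or, not_le, not_le] at hza
    rw [not_le, lt_abs] at hzd
    rw [min_le_iff] at hz1
    rw [le_max_iff] at hz2
    rcases hza with h | h
    · rcases hz1 with g | g
      · linarith
      · rcases hzd with k | k
        · exact absurd (hcon.2 (by linarith)) (not_lt.2 (by linarith))
        · linarith
    · rcases hz2 with g | g
      · linarith
      · rcases hzd with k | k
        · linarith
        · exact absurd (hcon.1 (by linarith)) (not_lt.2 (by linarith))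

omit [RF L] [Finite β] in
theorem Wr.opn (hE : Nice L E) {x : β → ℝ} {y R : ℝ} (h : Wr E x y R) :
    ∀ᶠ p in 𝓝 (x, y), Wr E p.1 p.2 R := by
  obtain ⟨a, b, h1, h2, h3, h4, h5, h6⟩ := h
  have g1 : ∀ᶠ y' in 𝓝 y, a < y' := lt_mem_nhds h1
  have g2 : ∀ᶠ y' in 𝓝 y, y' < b := gt_mem_nhds h2
  have g3 : ∀ᶠ x' in 𝓝 x, ∀ z ∈ Icc a b, z ∉ E x' :=
    (isCompact_Icc (a := a) (b := b)).eventually_forall_of_forall_eventually
      (P := fun x' z => z ∉ E x') (fun z hz => hE.ev (h6 z hz.1 hz.2))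
  rw [nhds_prod_eq]
  filter_upwards [g3.prod_mk (g1.and g2)] with p hp
  exact ⟨a, b, hp.2.1, hp.2.2, h3, h4, h5, fun z hz1 hz2 => hp.1 z ⟨hz1, hz2⟩⟩

omit [RF L] [Finite β] in
theorem exists_Wr (hE : Nice L E) {x : β → ℝ} {y : ℝ} (hy : y ∉ E x) :
    ∃ R₀, ∀ R, R₀ < R → Wr E x y R := by
  obtain ⟨δ, hδ, hb⟩ := hE.nbd hy
  refine ⟨max (|y| + δ) (1 / (2 * δ)), fun R hR => ⟨y - δ, y + δ, by linarith, by linarith,
    ?_, ?_, ?_, ?_⟩⟩
  · have := (le_max_left (|y| + δ) (1 / (2 * δ))).trans_lt hR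
    have := le_abs_self y
    linarith
  · have := (le_max_left (|y| + δ) (1 / (2 * δ))).trans_lt hR
    have := neg_abs_le y
    linarith
  · have h1 := (le_max_right (|y| + δ) (1 / (2 * δ))).trans_lt hR
    rw [div_lt_iff₀ (by positivity)] at h1
    linarith
  · intro z h1 h2
    exact hb z (abs_le.2 ⟨by linarith, by linarith⟩)

omit [RF L] in
theorem Wr.df' [RF L] (hE : Nice L E) {α : Type} [Finite α] {f : β → (α → ℝ) → ℝ}
    {g k : (α → ℝ) → ℝ} (hf : ∀ i, DfF L (f i)) (hg : DfF L g) (hk : DfF L k) :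
    Df L (fun v => Wr E (fun i => f i v) (g v) (k v)) := by
  refine Df.ex1 (Q := fun a (v : α → ℝ) => ∃ b, a < g v ∧ g v < b ∧ a < k v ∧ -k v < b ∧
    1 < k v * (b - a) ∧ ∀ z, a ≤ z → z ≤ b → z ∉ E (fun i => f i v)) ?_
  refine Df.ex1 (Q := fun b (v : Option α → ℝ) => v none < g (fun i => v (some i)) ∧
    g (fun i => v (some i)) < b ∧ v none < k (fun i => v (some i)) ∧
    -k (fun i => v (some i)) < b ∧ 1 < k (fun i => v (some i)) * (b - v none) ∧
    ∀ z, v none ≤ z → z ≤ b → z ∉ E (fun i => f i (fun i => v (some i)))) ?_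
  refine (Dlt (Dvar _) (hg.relabel _)).and ((Dlt (hg.relabel _) (Dvar _)).and
    ((Dlt (Dvar _) (hk.relabel _)).and ((Dlt (Dneg (hk.relabel _)) (Dvar _)).and
    ((Dlt (Dconst _) (Dmul (hk.relabel _) (Dsub (Dvar _) (Dvar _)))).and ?_))))
  refine Df.all1 (Q := fun z (v : Option (Option α) → ℝ) => v (some none) ≤ z → z ≤ v none →
    z ∉ E (fun i => f i (fun i => v (some (some i))))) ?_
  exact (Dle (Dvar _) (Dvar _)).imp ((Dle (Dvar _) (Dvar _)).imp
    (hE.mem (Dvar _) (fun i => (hf i).relabel _)).not)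

/-- Wide gaps are locally constant off a small set, when there is a discrete scale. -/
theorem exists_Z2 (hr : Restrained L) (hE : Nice L E) {D : Set ℝ} (hDd : D1 L D)
    (hDf : ∀ R, (D ∩ Iic R).Finite) :
    ∃ Z, Small L Z ∧ ∀ x, x ∉ Z → ∀ y, y ∉ E x → ∀ d ∈ D,
      ∀ᶠ p in 𝓝 (x, y), (Wr E p.1 p.2 d ↔ Wr E x y d) := by
  set T : (β → ℝ) → (Fin 2 → ℝ) → Prop := fun x w => ¬ ∃ d, d ∈ D ∧ d < w 1 ∧
    (∀ d', d' ∈ D → d' < w 1 → d' ≤ d) ∧ Wr E x (w 0) d with hT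
  have hiso : ∀ σ, σ ∉ D → ∀ᶠ σ' in 𝓝 σ, ∀ d ∈ D, (d < σ' ↔ d < σ) := by
    intro σ hσ
    obtain ⟨ε, hε, h⟩ := isolated_of_locFin hDf σ
    filter_upwards [Metric.ball_mem_nhds σ hε] with σ' hσ' d hd
    rw [Metric.mem_ball, Real.dist_eq, abs_lt] at hσ'
    have h1 : ¬ |d - σ| < ε := fun h' => hσ (h d hd h' ▸ hd)
    rw [not_lt, le_abs] at h1
    rcases h1 with h1 | h1
    · constructor <;> intro <;> linarith
    · constructor <;> intro <;> linarith
  refine Exists.elim (nb (L := L) hr (β := β) (δ := Fin 2)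
    (O := fun x w => w 0 ∉ E x ∧ w 1 ∉ D) (T := T) ?_ ?_ ?_ ?_ ?_) ?_
  · refine IsOpen.and ?_ ?_
    · exact hE.closed.isOpen_compl.preimage (by fun_prop :
        Continuous fun p : (β → ℝ) × (Fin 2 → ℝ) => (p.1, p.2 0))
    · exact (isClosed_of_locFin hDf).isOpen_compl.preimage (by fun_prop :
        Continuous fun p : (β → ℝ) × (Fin 2 → ℝ) => p.2 1)
  · exact (hE.mem (Dvar _) (fun i => Dvar _)).not.and (hDd.mem (Dvar _)).not
  · refine Df.not (Df.ex1 (Q := fun d (w : β ⊕ Fin 2 → ℝ) => d ∈ D ∧ d < w (Sum.inr 1) ∧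
      (∀ d', d' ∈ D → d' < w (Sum.inr 1) → d' ≤ d) ∧
      Wr E (fun i => w (Sum.inl i)) (w (Sum.inr 0)) d) ?_)
    refine (hDd.mem (Dvar _)).and ((Dlt (Dvar _) (Dvar _)).and (Df.and ?_
      (Wr.df' hE (fun i => Dvar _) (Dvar _) (Dvar _))))
    refine Df.all1 (Q := fun d' (w : Option (β ⊕ Fin 2) → ℝ) => d' ∈ D →
      d' < w (some (Sum.inr 1)) → d' ≤ w none) ?_
    exact (hDd.mem (Dvar _)).imp ((Dlt (Dvar _) (Dvar _)).imp (Dle (Dvar _) (Dvar _)))
  · rintro x w ⟨hO1, hO2⟩ hnT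
    simp only [hT, not_not] at hnT
    obtain ⟨d, hd1, hd2, hd3, hd4⟩ := hnT
    have hc1 : Tendsto (fun p : (β → ℝ) × (Fin 2 → ℝ) => (p.1, p.2 0)) (𝓝 (x, w))
        (𝓝 (x, w 0)) := by
      have : Continuous (fun p : (β → ℝ) × (Fin 2 → ℝ) => (p.1, p.2 0)) := by fun_prop
      exact this.tendsto _
    have hc2 : Tendsto (fun p : (β → ℝ) × (Fin 2 → ℝ) => p.2 1) (𝓝 (x, w)) (𝓝 (w 1)) := by
      have : Continuous (fun p : (β → ℝ) × (Fin 2 → ℝ) => p.2 1) := by fun_prop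
      exact this.tendsto _
    filter_upwards [hc1.eventually (hd4.opn hE), hc2.eventually (hiso _ hO2)] with p h1 h2
    simp only [hT, not_not]
    exact ⟨d, hd1, (h2 d hd1).2 hd2, fun d' h3 h4 => hd3 d' h3 ((h2 d' h3).1 h4), h1⟩
  · rintro x w ⟨hO1, hO2⟩
    obtain ⟨δ, hδ, hb⟩ := hE.nbd hO1
    have hc2 : Tendsto (fun w' : Fin 2 → ℝ => w' 1) (𝓝 w) (𝓝 (w 1)) :=
      (continuous_apply 1).tendsto _
    have hopen : IsOpen {w' : Fin 2 → ℝ | |w' 0 - w 0| < δ} :=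
      isOpen_lt (by fun_prop) continuous_const
    filter_upwards [hc2.eventually (hiso _ hO2), hopen.mem_nhds
      (show w ∈ {w' : Fin 2 → ℝ | |w' 0 - w 0| < δ} by simpa using hδ)] with w' h2 h3
    have h3' : |w' 0 - w 0| < δ := h3
    have hu : ∀ z ∈ uIcc (w 0) (w' 0), z ∉ E x := by
      intro z hz
      apply hb z
      have := abs_sub_left_of_mem_uIcc hz
      exact this.trans h3'.le
    simp only [hT, not_iff_not]
    constructor
    · rintro ⟨d, hd1, hd2, hd3, hd4⟩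
      exact ⟨d, hd1, (h2 d hd1).1 hd2, fun d' h4 h5 => hd3 d' h4 ((h2 d' h4).2 h5),
        hd4.sat hE (by rwa [uIcc_comm])⟩
    · rintro ⟨d, hd1, hd2, hd3, hd4⟩
      exact ⟨d, hd1, (h2 d hd1).2 hd2, fun d' h4 h5 => hd3 d' h4 ((h2 d' h4).1 h5),
        hd4.sat hE hu⟩
  · rintro Z ⟨hZ1, hZ2, hZ3, hZ4⟩
    refine ⟨Z, ⟨hZ1, hZ2, hZ3⟩, fun x hx y hy d hd => ?_⟩
    obtain ⟨ε, hε, hiso'⟩ := isolated_of_locFin hDf d
    have hσD : d + ε / 2 ∉ D := by
      intro h
      have := hiso' _ h (by rw [abs_lt]; constructor <;> linarith)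
      linarith
    have hmax : ∀ d', d' ∈ D → d' < d + ε / 2 → d' ≤ d := by
      intro d' h1 h2
      by_contra hcon
      push Not at hcon
      have := hiso' d' h1 (by rw [abs_lt]; constructor <;> linarith)
      linarith
    have hTd : ∀ x' y', (T x' ![y', d + ε / 2] ↔ ¬ Wr E x' y' d) := by
      intro x' y'
      simp only [hT, not_iff_not, Matrix.cons_val_zero, Matrix.cons_val_one]
      constructor
      · rintro ⟨d', h1, h2, h3, h4⟩
        have : d' = d := le_antisymm (hmax d' h1 h2) (h3 d hd (by linarith))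
        rwa [this] at h4
      · intro h
        exact ⟨d, hd, by linarith, hmax, h⟩
    have hc : Tendsto (fun p : (β → ℝ) × ℝ => (p.1, ![p.2, d + ε / 2])) (𝓝 (x, y))
        (𝓝 (x, ![y, d + ε / 2])) := by
      have : Continuous (fun p : (β → ℝ) × ℝ => (p.1, ![p.2, d + ε / 2])) := by
        refine continuous_fst.prodMk (continuous_pi fun i => ?_)
        fin_cases i
        · exact continuous_snd
        · exact continuous_const
      exact this.tendsto _
    filter_upwards [hc.eventually (hZ4 x hx ![y, d + ε / 2] ⟨by simpa using hy,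
      by simpa using hσD⟩)] with p hp
    rw [hTd, hTd, not_iff_not] at hp
    exact hp

end

end Pool.Agent.TH735
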