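import Mathlib
import Pool.Agent.TH735.Tame2

set_option autoImplicit false

/-! Tameness of definable families off a small set. -/

namespace Pool.Agent.TH735

open FirstOrder FirstOrder.Language Set Filter Topology
open Pool.Agent.H671T

theorem gap_of_sep {C : Set ℝ} (hC : IsClosed C) {R : ℝ} (hR : 1 ≤ R) (h1 : ∀ e ∈ C, |e| ≤ R)
    (h2 : ∀ e ∈ C, ∀ e' ∈ C, e < e' → 1 ≤ R * (e' - e)) {y : ℝ} (hy : y ∉ C) :
    ∃ a b, a < y ∧ y < b ∧ a ≤ R ∧ -R ≤ b ∧ 2 * (1 / (2 * R)) ≤ b - a ∧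
      ∀ z ∈ Ioo a b, z ∉ C := by
  have hR0 : 0 < R := by linarith
  have lower : ∃ a, a < y ∧ a ≤ R ∧ (∀ z, a < z → z ≤ y → z ∉ C) ∧ (a ∈ C ∨ a ≤ y - 1) := by
    by_cases hne : (C ∩ Iic y).Nonempty
    · have hcl : IsClosed (C ∩ Iic y) := hC.inter isClosed_Iic
      have hb : BddAbove (C ∩ Iic y) := ⟨y, fun z hz => hz.2⟩
      have hm := hcl.csSup_mem hne hb
      refine ⟨sSup (C ∩ Iic y), ?_, (abs_le.1 (h1 _ hm.1)).2, ?_, Or.inl hm.1⟩
      · exact lt_of_le_of_ne hm.2 fun h => hy (h ▸ hm.1)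
      · intro z hz1 hz2 hz3
        exact absurd (le_csSup hb ⟨hz3, hz2⟩) (not_le.2 hz1)
    · refine ⟨min (y - 1) R, ?_, min_le_right _ _, ?_, Or.inr (min_le_left _ _)⟩
      · exact (min_le_left _ _).trans_lt (by linarith)
      · intro z _ hz hzC
        exact hne ⟨z, hzC, hz⟩
  have upper : ∃ b, y < b ∧ -R ≤ b ∧ (∀ z, y ≤ z → z < b → z ∉ C) ∧ (b ∈ C ∨ y + 1 ≤ b) := by
    by_cases hne : (C ∩ Ici y).Nonempty
    · have hcl : IsClosed (C ∩ Ici y) := hC.inter isClosed_Ici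
      have hb : BddBelow (C ∩ Ici y) := ⟨y, fun z hz => hz.2⟩
      have hm := hcl.csInf_mem hne hb
      refine ⟨sInf (C ∩ Ici y), ?_, (abs_le.1 (h1 _ hm.1)).1, ?_, Or.inl hm.1⟩
      · exact lt_of_le_of_ne hm.2 fun h => hy (h ▸ hm.1)
      · intro z hz1 hz2 hz3
        exact absurd (csInf_le hb ⟨hz3, hz1⟩) (not_le.2 hz2)
    · refine ⟨max (y + 1) (-R), ?_, le_max_right _ _, ?_, Or.inr (le_max_left _ _)⟩
      · exact lt_of_lt_of_le (by linarith) (le_max_left _ _)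
      · intro z hz _ hzC
        exact hne ⟨z, hzC, hz⟩
  obtain ⟨a, ha1, ha2, ha3, ha4⟩ := lower
  obtain ⟨b, hb1, hb2, hb3, hb4⟩ := upper
  refine ⟨a, b, ha1, hb1, ha2, hb2, ?_, ?_⟩
  · have e1 : 2 * (1 / (2 * R)) = 1 / R := by field_simp
    rw [e1]
    have e2 : 1 / R ≤ 1 := by
      rw [div_le_iff₀ hR0]
      linarith
    rcases ha4 with ha4 | ha4
    · rcases hb4 with hb4 | hb4
      · have := h2 a ha4 b hb4 (by linarith)
        rw [div_le_iff₀ hR0]
        linarith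
      · linarith
    · linarith
  · intro z hz
    rcases le_total z y with h | h
    · exact ha3 z hz.1 h
    · exact hb3 z h hz.2

variable {L : FirstOrder.Language.{0, 0}} [L.Structure ℝ] [RF L]

section

variable {β : Type} [Finite β] {E : (β → ℝ) → Set ℝ}

/-- The fibre is bounded and separated. -/
def Sep (E : (β → ℝ) → Set ℝ) (x : β → ℝ) (R : ℝ) : Prop :=
  (∀ e, e ∈ E x → |e| ≤ R) ∧ ∀ e, e ∈ E x → ∀ e', e' ∈ E x → e < e' → 1 ≤ R * (e' - e)

omit [Finite β] in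
theorem Sep.mono {x : β → ℝ} {R R' : ℝ} (h : Sep E x R) (hR : R ≤ R') : Sep E x R' := by
  refine ⟨fun e he => (h.1 e he).trans hR, fun e he e' he' hlt => ?_⟩
  have := h.2 e he e' he' hlt
  nlinarith

omit [Finite β] in
theorem exists_sep {x : β → ℝ} (hf : (E x).Finite) : ∃ n : ℕ, Sep E x n := by
  obtain ⟨M₁, hM₁⟩ := (hf.image (fun e => |e|)).bddAbove
  obtain ⟨M₂, hM₂⟩ := ((hf.prod hf).image (fun p => 1 / (p.2 - p.1))).bddAbove
  obtain ⟨n, hn⟩ := exists_nat_ge (max M₁ M₂)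
  refine ⟨n, fun e he => ?_, fun e he e' he' hlt => ?_⟩
  · exact (hM₁ ⟨e, he, rfl⟩).trans ((le_max_left _ _).trans hn)
  · have h1 : 1 / (e' - e) ≤ n :=
      (hM₂ ⟨(e, e'), ⟨he, he'⟩, rfl⟩).trans ((le_max_right _ _).trans hn)
    rw [div_le_iff₀ (by linarith)] at h1
    exact h1

omit [Finite β] in
theorem sep_closed {x : β → ℝ}
    (hl : ∀ y ∈ E x, ∀ ε, 0 < ε → ∀ᶠ x' in 𝓝 x, ∃ y' ∈ E x', |y' - y| < ε) {n : ℕ}
    (hx : x ∈ closure {x | Sep E x n}) : Sep E x n := by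
  rw [mem_closure_iff_frequently] at hx
  refine ⟨fun e he => ?_, fun e he e' he' hlt => ?_⟩
  · by_contra hcon
    push Not at hcon
    have h1 := hl e he (|e| - n) (by linarith)
    obtain ⟨x', hx', y', hy', hlt⟩ := (hx.and_eventually h1).exists
    have h2 := hx'.1 y' hy'
    have h3 : |e| - |y'| ≤ |e - y'| := abs_sub_abs_le_abs_sub _ _
    rw [abs_sub_comm] at h3
    linarith
  · by_contra hcon
    push Not at hcon
    set ε := min ((1 - n * (e' - e)) / (4 * (n + 1))) ((e' - e) / 4) with hε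
    have hn0 : (0 : ℝ) ≤ n := Nat.cast_nonneg n
    have hn : (0 : ℝ) < 4 * (n + 1) := by positivity
    have hε0 : 0 < ε := lt_min (div_pos (by linarith) hn) (by linarith)
    have hε1 : 4 * (n + 1) * ε ≤ 1 - n * (e' - e) := by
      have := min_le_left ((1 - n * (e' - e)) / (4 * (n + 1))) ((e' - e) / 4)
      rw [← hε, le_div_iff₀ hn] at this
      linarith
    have hε2 : 4 * ε ≤ e' - e := by
      have := min_le_right ((1 - n * (e' - e)) / (4 * (n + 1))) ((e' - e) / 4)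
      rw [← hε] at this
      linarith
    obtain ⟨x', hx', ⟨y, hy, hlty⟩, y', hy', hlty'⟩ :=
      (hx.and_eventually ((hl e he ε hε0).and (hl e' he' ε hε0))).exists
    have g1 := abs_lt.1 hlty
    have g2 := abs_lt.1 hlty'
    have g3 := hx'.2 y hy y' hy' (by linarith)
    have g4 : n * (y' - y) ≤ n * ((e' - e) + 2 * ε) := by
      apply mul_le_mul_of_nonneg_left _ hn0
      linarith
    nlinarith

theorem mem_interior_box {Q : (β → ℝ) → Prop} {x : β → ℝ} : x ∈ interior {x | Q x} ↔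
    ∃ ε, 0 < ε ∧ ∀ x', (∀ i, |x' i - x i| < ε) → Q x' := by
  rw [mem_interior_iff_mem_nhds]
  constructor
  · intro h
    obtain ⟨r, hr, hb⟩ := exists_box h
    exact ⟨r, hr, fun x' hx' => hb x' fun i => (hx' i).le⟩
  · rintro ⟨ε, hε, h⟩
    filter_upwards [(isOpen_box x ε).mem_nhds (show x ∈ {x' : β → ℝ | ∀ i, |x' i - x i| < ε}
      from fun i => by simpa using hε)] with x' hx'
    exact h x' hx'

/-- Uniform separation off a small set. -/
theorem exists_Z3 (hr : Restrained L) (hE : Nice L E) (hD : ¬ HasD L) :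
    ∃ Z, Small L Z ∧ ∀ x, x ∉ Z → ∃ R, ∀ᶠ x' in 𝓝 x, Sep E x' R := by
  obtain ⟨Z₁, hZ₁, h1⟩ := exists_Z1 hr hE
  refine ⟨(⋃ R, interior {x | Sep E x R})ᶜ, ⟨?_, ?_, ?_⟩, ?_⟩
  · exact (isOpen_iUnion fun R => isOpen_interior).isClosed_compl
  · by_contra hne
    obtain ⟨n, x₀, hx₀, hx₀'⟩ := baire_open (isOpen_interior.inter hZ₁.closed.isOpen_compl)
      (hZ₁.inter_compl isOpen_interior (nonempty_iff_ne_empty.2 hne))
      (F := fun n : ℕ => closure {x | Sep E x n}) (fun n => isClosed_closure) (by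
      rintro x ⟨-, hx⟩
      have hf : (E x).Finite := finite_of_not_hasD (L := L) hD (hE.fclosed x) (h1 x hx).1
        (hE.mem (Dvar _) (fun i => Dconst _))
      obtain ⟨n, hn⟩ := exists_sep hf
      exact mem_iUnion.2 ⟨n, subset_closure hn⟩)
    refine interior_subset hx₀.1 (mem_iUnion.2 ⟨n, ?_⟩)
    refine interior_maximal (s := {x | Sep E x n}) (t := Z₁ᶜ ∩ interior (closure {x | Sep E x n}))
      ?_ (hZ₁.closed.isOpen_compl.inter isOpen_interior) ⟨hx₀.2, hx₀'⟩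
    rintro x ⟨hx1, hx2⟩
    exact sep_closed (h1 x hx1).2 (interior_subset hx2)
  · have h2 : Df L (fun x : β → ℝ => ¬ ∃ R, ∃ ε, 0 < ε ∧ ∀ x' : β → ℝ,
        (∀ i, |x' i - x i| < ε) → Sep E x' R) := by
      refine Df.not (Df.ex1 (Q := fun R (x : β → ℝ) => ∃ ε, 0 < ε ∧ ∀ x' : β → ℝ,
        (∀ i, |x' i - x i| < ε) → Sep E x' R) ?_)
      refine Df.ex1 (Q := fun ε (v : Option β → ℝ) => 0 < ε ∧ ∀ x' : β → ℝ,
        (∀ i, |x' i - v (some i)| < ε) → Sep E x' (v none)) ?_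
      refine (Dlt (Dconst _) (Dvar _)).and ?_
      refine Df.allT (Q := fun x' (v : Option (Option β) → ℝ) =>
        (∀ i, |x' i - v (some (some i))| < v none) → Sep E x' (v (some none))) ?_
      refine (Df.all_fin fun i => Dlt (Dabs (Dsub (Dvar _) (Dvar _))) (Dvar _)).imp ?_
      refine Df.and ?_ ?_
      · refine Df.all1 (Q := fun e (v : Option (Option β) ⊕ β → ℝ) =>
          e ∈ E (fun i => v (Sum.inr i)) → |e| ≤ v (Sum.inl (some none))) ?_
        exact (hE.mem (Dvar _) (fun i => Dvar _)).imp (Dle (Dabs (Dvar _)) (Dvar _))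
      · refine Df.all1 (Q := fun e (v : Option (Option β) ⊕ β → ℝ) =>
          e ∈ E (fun i => v (Sum.inr i)) → ∀ e', e' ∈ E (fun i => v (Sum.inr i)) → e < e' →
            1 ≤ v (Sum.inl (some none)) * (e' - e)) ?_
        refine (hE.mem (Dvar _) (fun i => Dvar _)).imp ?_
        refine Df.all1 (Q := fun e' (v : Option (Option (Option β) ⊕ β) → ℝ) =>
          e' ∈ E (fun i => v (some (Sum.inr i))) → v none < e' →
            1 ≤ v (some (Sum.inl (some none))) * (e' - v none)) ?_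
        exact (hE.mem (Dvar _) (fun i => Dvar _)).imp ((Dlt (Dvar _) (Dvar _)).imp
          (Dle (Dconst _) (Dmul (Dvar _) (Dsub (Dvar _) (Dvar _)))))
    refine h2.congr fun x => ?_
    rw [mem_compl_iff, mem_iUnion]
    simp only [mem_interior_box]
  · intro x hx
    rw [mem_compl_iff, not_not, mem_iUnion] at hx
    obtain ⟨R, hR⟩ := hx
    exact ⟨R, mem_interior_iff_mem_nhds.1 hR⟩

/-- Tameness. -/
theorem exists_tame (hr : Restrained L) (hE : Nice L E) :
    ∃ Z, Small L Z ∧ ∀ (S : Type) [TopologicalSpace S] [PreconnectedSpace S] (γ : S → β → ℝ),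
      Continuous γ → (∀ s, γ s ∉ Z) → Fam (fun s => E (γ s)) ∧
        ∀ s y, y ∉ E (γ s) → ∃ B, Band (fun s => E (γ s)) B ∧ y ∈ B s := by
  obtain ⟨Z₁, hZ₁, h1⟩ := exists_Z1 hr hE
  have hfam : ∀ (S : Type) [TopologicalSpace S] (γ : S → β → ℝ), Continuous γ →
      (∀ s, γ s ∉ Z₁) → Fam (fun s => E (γ s)) := by
    intro S _ γ hγ hav
    refine ⟨?_, ?_, ?_⟩
    · exact hE.closed.preimage (by fun_prop : Continuous fun p : S × ℝ => (γ p.1, p.2))
    · intro s y hy ε hε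
      exact (hγ.tendsto s).eventually ((h1 (γ s) (hav s)).2 y hy ε hε)
    · exact fun s => (h1 (γ s) (hav s)).1
  by_cases hD : HasD L
  · obtain ⟨D, hDd, hDf, hDu⟩ := hD
    obtain ⟨Z₂, hZ₂, h2⟩ := exists_Z2 hr hE hDd hDf
    refine ⟨Z₁ ∪ Z₂, hZ₁.union hZ₂, ?_⟩
    intro S _ _ γ hγ hav
    have hF := hfam S γ hγ fun s h => hav s (Or.inl h)
    refine ⟨hF, fun s₁ y₁ hy₁ => ?_⟩
    obtain ⟨R₀, hR₀⟩ := exists_Wr hE hy₁
    obtain ⟨d, hd, hRd⟩ := hDu R₀
    have hc : Continuous (fun p : S × ℝ => (γ p.1, p.2)) := by fun_prop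
    refine exists_band hF (W := fun s => {y | Wr E (γ s) y d}) ?_ (hR₀ d hRd)
    refine ⟨?_, ?_, ?_, ?_, ?_⟩
    · intro s y hy
      exact hy.nm
    · intro s y hy
      exact (hc.tendsto (s, y)).eventually (hy.opn hE)
    · intro s y hy hnW
      filter_upwards [(hc.tendsto (s, y)).eventually (h2 (γ s) (fun h => hav s (Or.inr h)) y hy d
        hd)] with p hp hp'
      exact hnW (hp.1 hp')
    · intro s y y' hy hz
      exact hy.sat hE hz
    · intro s
      have hm : 0 < max d 1 := lt_of_lt_of_le one_pos (le_max_right _ _)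
      refine ⟨1 / (2 * max d 1), by positivity, max d 1, hm.le, Eventually.of_forall ?_⟩
      rintro s' y ⟨a, b, g1, g2, g3, g4, g5, g6⟩
      refine ⟨a, b, g1, g2, ?_, ?_, ?_, fun z hz => g6 z hz.1.le hz.2.le⟩
      · exact g3.le.trans (le_max_left _ _)
      · have := le_max_left d 1
        linarith
      · have e1 : 2 * (1 / (2 * max d 1)) = 1 / max d 1 := by field_simp
        rw [e1, div_le_iff₀ hm]
        have := le_max_left d 1
        nlinarith
  · obtain ⟨Z₃, hZ₃, h3⟩ := exists_Z3 hr hE hD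
    refine ⟨Z₁ ∪ Z₃, hZ₁.union hZ₃, ?_⟩
    intro S _ _ γ hγ hav
    have hF := hfam S γ hγ fun s h => hav s (Or.inl h)
    refine ⟨hF, fun s₁ y₁ hy₁ => ?_⟩
    have hc : Continuous (fun p : S × ℝ => (γ p.1, p.2)) := by fun_prop
    refine exists_band hF (W := fun s => {y | y ∉ E (γ s)}) ?_ hy₁
    refine ⟨?_, ?_, ?_, ?_, ?_⟩
    · intro s y hy
      exact hy
    · intro s y hy
      exact (hc.tendsto (s, y)).eventually (hE.ev hy)
    · intro s y hy hnW
      exact absurd hy hnW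
    · intro s y y' hy hz
      exact hz y' right_mem_uIcc
    · intro s
      obtain ⟨R, hR⟩ := h3 (γ s) (fun h => hav s (Or.inr h))
      have hm : 0 < max R 1 := lt_of_lt_of_le one_pos (le_max_right _ _)
      refine ⟨1 / (2 * max R 1), by positivity, max R 1, hm.le, ?_⟩
      filter_upwards [(hγ.tendsto s).eventually hR] with s' hs' y hy
      have hs'' := hs'.mono (le_max_left R 1)
      exact gap_of_sep (hE.fclosed _) (le_max_right _ _) hs''.1
        (fun e he e' he' hlt => hs''.2 e he e' he' hlt) hy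

end

end Pool.Agent.TH735
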