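import Mathlib
import Pool.Agent.TH735.Tame3

set_option autoImplicit false

/-! Relations which are constant along sections of tame families. -/

namespace Pool.Agent.TH735

open FirstOrder FirstOrder.Language Set Filter Topology
open Pool.Agent.H671T

variable {L : FirstOrder.Language.{0, 0}} [L.Structure ℝ]

/-- The relation is constant along sections of definable families, off small sets. -/
def Loc (L : FirstOrder.Language.{0, 0}) [L.Structure ℝ] {α : Type} (P : (α → ℝ) → Prop) :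
    Prop :=
  ∀ (β : Type) [Finite β] (E : (β → ℝ) → Set ℝ), Nice L E →
    ∃ Z : Set (β → ℝ), Small L Z ∧ ∀ (S : Type) [TopologicalSpace S] [PreconnectedSpace S]
      (γ : S → β → ℝ), Continuous γ → (∀ s, γ s ∉ Z) → ∀ c : α → S → ℝ,
      (∀ a, Continuous (c a)) → (∀ a s, c a s ∈ E (γ s)) → ∀ s s',
        P (fun a => c a s) → P (fun a => c a s')

namespace Loc

variable {α α' : Type}

theorem congr {P Q : (α → ℝ) → Prop} (h : Loc L P) (e : ∀ w, P w ↔ Q w) : Loc L Q := by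
  have : P = Q := funext fun w => propext (e w)
  rwa [← this]

theorem not {P : (α → ℝ) → Prop} (h : Loc L P) : Loc L (fun w => ¬ P w) := by
  intro β _ E hE
  obtain ⟨Z, hZ, H⟩ := h β E hE
  exact ⟨Z, hZ, fun S _ _ γ hγ hav c hc hcE s s' hn hP => hn (H S γ hγ hav c hc hcE s' s hP)⟩

theorem and {P Q : (α → ℝ) → Prop} (h : Loc L P) (h' : Loc L Q) :
    Loc L (fun w => P w ∧ Q w) := by
  intro β _ E hE
  obtain ⟨Z, hZ, H⟩ := h β E hE
  obtain ⟨Z', hZ', H'⟩ := h' β E hE
  refine ⟨Z ∪ Z', hZ.union hZ', fun S _ _ γ hγ hav c hc hcE s s' hP => ⟨?_, ?_⟩⟩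
  · exact H S γ hγ (fun s h => hav s (Or.inl h)) c hc hcE s s' hP.1
  · exact H' S γ hγ (fun s h => hav s (Or.inr h)) c hc hcE s s' hP.2

theorem imp {P Q : (α → ℝ) → Prop} (h : Loc L P) (h' : Loc L Q) :
    Loc L (fun w => P w → Q w) :=
  ((h.and h'.not).not).congr fun w => by tauto

theorem relabel (σ : α → α') {P : (α → ℝ) → Prop} (h : Loc L P) :
    Loc L (fun w : α' → ℝ => P (fun a => w (σ a))) := by
  intro β _ E hE
  obtain ⟨Z, hZ, H⟩ := h β E hE
  exact ⟨Z, hZ, fun S _ _ γ hγ hav c hc hcE s s' hP =>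
    H S γ hγ hav (fun a => c (σ a)) (fun a => hc _) (fun a => hcE _) s s' hP⟩

end Loc

theorem small_empty {β : Type} : Small L (∅ : Set (β → ℝ)) where
  closed := isClosed_empty
  int := interior_empty
  df := (Df.const False).congr fun _ => by simp

theorem Loc.const {α : Type} (p : Prop) : Loc L (fun _ : α → ℝ => p) := by
  intro β _ E hE
  exact ⟨∅, small_empty, fun S _ _ γ hγ hav c hc hcE s s' hP => hP⟩

variable [RF L]

/-- Closed definable relations. -/
theorem Loc.closed (hr : Restrained L) {α : Type} [Finite α] {A : (α → ℝ) → Prop}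
    (hA : IsClosed {v | A v}) (hAd : Df L A) : Loc L A := by
  intro β _ E hE
  obtain ⟨Z₁, hZ₁, h1⟩ := exists_tame hr hE
  obtain ⟨Z₂, hZ₂, h2⟩ := exists_ZA hr hE hA hAd
  refine ⟨Z₁ ∪ Z₂, hZ₁.union hZ₂, fun S _ _ γ hγ hav c hc hcE => ?_⟩
  obtain ⟨hF, hB⟩ := h1 S γ hγ (fun s h => hav s (Or.inl h))
  have h2' := fun s => h2 (γ s) (fun h => hav s (Or.inr h))
  suffices main : ∀ s₀, ¬ A (fun a => c a s₀) → ∀ s, ¬ A (fun a => c a s) by
    intro s s' hs
    by_contra hcon
    exact main s' hcon s hs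
  intro s₀ hs₀
  obtain ⟨r, hr0, hbox⟩ := exists_box (hA.isOpen_compl.mem_nhds hs₀)
  have hu : ∀ a, ∃ u, c a s₀ - r < u ∧ u < c a s₀ ∧ u ∉ E (γ s₀) := fun a =>
    exists_notMem_of_interior (hF.nd s₀) (by linarith)
  have hv : ∀ a, ∃ v, c a s₀ < v ∧ v < c a s₀ + r ∧ v ∉ E (γ s₀) := fun a =>
    exists_notMem_of_interior (hF.nd s₀) (by linarith)
  choose u hu1 hu2 hu3 using hu
  choose v hv1 hv2 hv3 using hv
  have hBu := fun a => hB s₀ (u a) (hu3 a)
  have hBv := fun a => hB s₀ (v a) (hv3 a)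
  choose Bu hBu1 hBu2 using hBu
  choose Bv hBv1 hBv2 using hBv
  set Q : S → Prop := fun s => ∃ u' v' : α → ℝ, (∀ a, u' a ∈ Bu a s ∧ v' a ∈ Bv a s) ∧
    TA A E (γ s) u' v' with hQ
  have hind : ∀ s (u' v' u'' v'' : α → ℝ), (∀ a, u' a ∈ Bu a s ∧ v' a ∈ Bv a s) →
      (∀ a, u'' a ∈ Bu a s ∧ v'' a ∈ Bv a s) → TA A E (γ s) u' v' → TA A E (γ s) u'' v'' := by
    rintro s u' v' u'' v'' g1 g2 ⟨e, he1, he2⟩
    refine ⟨e, he1, fun a => ⟨(he2 a).1, ?_, ?_⟩⟩
    · exact ((hBu1 a).lt_iff (g1 a).1 (g2 a).1 (he2 a).1).1 (he2 a).2.1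
    · exact ((hBv1 a).gt_iff (g1 a).2 (g2 a).2 (he2 a).1).1 (he2 a).2.2
  have hQc : ∀ s s', Q s ↔ Q s' := by
    intro s s'
    refine PreconnectedSpace.induction₂' (fun s s' => (Q s ↔ Q s')) ?_
      ⟨fun a b c h1 h2 => h1.trans h2⟩ s s'
    · intro s
      suffices hs : ∀ᶠ s' in 𝓝 s, (Q s ↔ Q s') by
        filter_upwards [hs] with s' h using ⟨h, h.symm⟩
      have g1 := fun a => (hBu1 a).ne s
      have g2 := fun a => (hBv1 a).ne s
      choose u' hu' using g1
      choose v' hv' using g2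
      have hcc : ∀ y : ℝ, Tendsto (fun w : S => (w, y)) (𝓝 s) (𝓝 (s, y)) := by
        intro y
        have : Continuous (fun w : S => (w, y)) := by fun_prop
        exact this.tendsto _
      have e1 : ∀ᶠ s' in 𝓝 s, ∀ a, u' a ∈ Bu a s' ∧ v' a ∈ Bv a s' := by
        rw [eventually_all]
        intro a
        exact ((hcc _).eventually ((hBu1 a).opn s _ (hu' a))).and
          ((hcc _).eventually ((hBv1 a).opn s _ (hv' a)))
      have hcc2 : Tendsto (fun w : S => (γ w, (u', v'))) (𝓝 s) (𝓝 (γ s, (u', v'))) := by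
        have : Continuous (fun w : S => (γ w, (u', v'))) := by fun_prop
        exact this.tendsto _
      have e2 := hcc2.eventually (h2' s u' v' fun a => ⟨(hBu1 a).sub s _ (hu' a),
        (hBv1 a).sub s _ (hv' a)⟩)
      filter_upwards [e1, e2] with s' g3 g4
      constructor
      · rintro ⟨u'', v'', g5, g6⟩
        exact ⟨u', v', g3, g4.2 (hind s _ _ _ _ g5 (fun a => ⟨hu' a, hv' a⟩) g6)⟩
      · rintro ⟨u'', v'', g5, g6⟩
        exact ⟨u', v', fun a => ⟨hu' a, hv' a⟩, g4.1 (hind s' _ _ _ _ g5 g3 g6)⟩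
  have hQ0 : ¬ Q s₀ := by
    rintro ⟨u', v', g1, g2⟩
    obtain ⟨e, he1, he2⟩ := hind s₀ _ _ u v g1 (fun a => ⟨hBu2 a, hBv2 a⟩) g2
    refine hbox e (fun a => abs_le.2 ⟨?_, ?_⟩) he1
    · linarith [(he2 a).2.1, hu1 a]
    · linarith [(he2 a).2.2, hv2 a]
  intro s hs
  apply hQ0
  rw [← hQc s s₀]
  have g1 := fun a => (hBu1 a).ne s
  have g2 := fun a => (hBv1 a).ne s
  choose u' hu' using g1
  choose v' hv' using g2
  refine ⟨u', v', fun a => ⟨hu' a, hv' a⟩, _, hs, fun a => ⟨hcE a s, ?_, ?_⟩⟩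
  · exact section_side (hBu1 a) (hc a) (hcE a) (hBu2 a) (hu2 a) s _ (hu' a)
  · exact section_side' (hBv1 a) (hc a) (hcE a) (hBv2 a) (hv1 a) s _ (hv' a)

/-- Adjoining the last coordinate to a family. -/
def addVar {β : Type} (E : (β → ℝ) → Set ℝ) : (Option β → ℝ) → Set ℝ :=
  fun x => E (fun i => x (some i)) ∪ {x none}

theorem nice_addVar {β : Type} [Finite β] {E : (β → ℝ) → Set ℝ} (hE : Nice L E) :
    Nice L (addVar E) := by
  have hc1 : IsClosed {p : (Option β → ℝ) × ℝ | p.2 ∈ E (fun i => p.1 (some i))} :=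
    hE.closed.preimage (by fun_prop :
      Continuous fun p : (Option β → ℝ) × ℝ => ((fun i => p.1 (some i)), p.2))
  have hc2 : IsClosed {p : (Option β → ℝ) × ℝ | p.2 = p.1 none} :=
    isClosed_eq (by fun_prop) (by fun_prop)
  have heq : {p : (Option β → ℝ) × ℝ | p.2 ∈ addVar E p.1} =
      {p : (Option β → ℝ) × ℝ | p.2 ∈ E (fun i => p.1 (some i))} ∪
      {p : (Option β → ℝ) × ℝ | p.2 = p.1 none} := rfl
  refine ⟨?_, ?_, ?_⟩
  · rw [heq]
    exact hc1.union hc2
  · have h2 : interior {p : (Option β → ℝ) × ℝ | p.2 = p.1 none} = ∅ := by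
      by_contra hne
      obtain ⟨⟨x₀, y₀⟩, h⟩ := nonempty_iff_ne_empty.2 hne
      have hc : Continuous (fun y : ℝ => (x₀, y)) := by fun_prop
      have hsub : (fun y : ℝ => (x₀, y)) ⁻¹' interior {p : (Option β → ℝ) × ℝ |
          p.2 = p.1 none} ⊆ ({x₀ none} : Set ℝ) := fun y hy => by
        have h1 : (x₀, y) ∈ {p : (Option β → ℝ) × ℝ | p.2 = p.1 none} := interior_subset hy
        exact h1
      have hV := interior_maximal hsub (isOpen_interior.preimage hc)
      rw [interior_singleton] at hV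
      exact hV h
    rw [heq, interior_union_isClosed_of_interior_empty hc1 h2]
    by_contra hne
    obtain ⟨⟨x₀, y₀⟩, h⟩ := nonempty_iff_ne_empty.2 hne
    have hc : Continuous (fun p : (β → ℝ) × ℝ => (cons (x₀ none) p.1, p.2)) :=
      (continuous_cons continuous_const continuous_fst).prodMk continuous_snd
    have hsub : (fun p : (β → ℝ) × ℝ => (cons (x₀ none) p.1, p.2)) ⁻¹'
        interior {p : (Option β → ℝ) × ℝ | p.2 ∈ E (fun i => p.1 (some i))} ⊆
        {p : (β → ℝ) × ℝ | p.2 ∈ E p.1} := fun p hp => by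
      have h1 : (cons (x₀ none) p.1, p.2) ∈ {p : (Option β → ℝ) × ℝ |
        p.2 ∈ E (fun i => p.1 (some i))} := interior_subset hp
      exact h1
    have hV := interior_maximal hsub (isOpen_interior.preimage hc)
    rw [hE.nd] at hV
    refine @hV ((fun i => x₀ (some i)), y₀) ?_
    show (cons (x₀ none) (fun i => x₀ (some i)), y₀) ∈
      interior {p : (Option β → ℝ) × ℝ | p.2 ∈ E (fun i => p.1 (some i))}
    rw [cons_eta]
    exact h
  · refine Df.or ?_ ?_
    · exact hE.mem (Dvar _) (fun i => Dvar _)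
    · exact Deq (Dvar _) (Dvar _)

/-- Adjoining the fibres of a small set to a family. -/
def addSet {β : Type} (E : (β → ℝ) → Set ℝ) (F : Set (Option β → ℝ)) : (β → ℝ) → Set ℝ :=
  fun x => E x ∪ {y | cons y x ∈ F}

omit [RF L] in
theorem nice_addSet {β : Type} [Finite β] {E : (β → ℝ) → Set ℝ} (hE : Nice L E)
    {F : Set (Option β → ℝ)} (hF : Small L F) : Nice L (addSet E F) := by
  have hc2 : IsClosed {p : (β → ℝ) × ℝ | cons p.2 p.1 ∈ F} :=
    hF.closed.preimage (continuous_cons continuous_snd continuous_fst)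
  have heq : {p : (β → ℝ) × ℝ | p.2 ∈ addSet E F p.1} =
      {p : (β → ℝ) × ℝ | p.2 ∈ E p.1} ∪ {p : (β → ℝ) × ℝ | cons p.2 p.1 ∈ F} := rfl
  refine ⟨?_, ?_, ?_⟩
  · rw [heq]
    exact hE.closed.union hc2
  · rw [heq, interior_union_isClosed_of_interior_empty hE.closed, hE.nd]
    by_contra hne
    obtain ⟨⟨x₀, y₀⟩, h⟩ := nonempty_iff_ne_empty.2 hne
    have hc : Continuous (fun v : Option β → ℝ => ((fun i => v (some i)), v none)) := by
      fun_prop
    have hsub : (fun v : Option β → ℝ => ((fun i => v (some i)), v none)) ⁻¹'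
        interior {p : (β → ℝ) × ℝ | cons p.2 p.1 ∈ F} ⊆ F := fun v hv => by
      have h1 : ((fun i => v (some i)), v none) ∈ {p : (β → ℝ) × ℝ | cons p.2 p.1 ∈ F} :=
        interior_subset hv
      have h2 : cons (v none) (fun i => v (some i)) ∈ F := h1
      rwa [cons_eta] at h2
    have hV := interior_maximal hsub (isOpen_interior.preimage hc)
    rw [hF.int] at hV
    exact @hV (cons y₀ x₀) h
  · refine Df.or hE.df ?_
    exact hF.df.congr fun w => by
      show w ∈ F ↔ cons (w none) (fun i => w (some i)) ∈ F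
      rw [cons_eta]

/-- Existential quantification over one real. -/
theorem Loc.ex (hr : Restrained L) {α : Type} [Finite α] {Q : ℝ → (α → ℝ) → Prop}
    (h : Loc L (fun w : Option α → ℝ => Q (w none) (fun i => w (some i)))) :
    Loc L (fun v : α → ℝ => ∃ y, Q y v) := by
  intro β _ E hE
  obtain ⟨F, hF, H1⟩ := h (Option β) (addVar E) (nice_addVar hE)
  have hE₂ := nice_addSet hE hF
  obtain ⟨Z₁, hZ₁, H2⟩ := h β (addSet E F) hE₂
  obtain ⟨Z₂, hZ₂, H3⟩ := exists_tame hr hE₂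
  refine ⟨Z₁ ∪ Z₂, hZ₁.union hZ₂, fun S _ _ γ hγ hav c hc hcE s s' hP => ?_⟩
  obtain ⟨y, hy⟩ := hP
  obtain ⟨hFam, hBand⟩ := H3 S γ hγ (fun s h => hav s (Or.inr h))
  by_cases hyE : y ∈ addSet E F (γ s)
  · obtain ⟨c₀, hc₀, hc₀E, hc₀s⟩ := exists_leaf hFam hBand hyE
    have := H2 S γ hγ (fun s h => hav s (Or.inl h)) (fun o => o.elim c₀ c) (by
      rintro (_ | a)
      · exact hc₀
      · exact hc a) (by
      rintro (_ | a) s
      · exact hc₀E s
      · exact Or.inl (hcE a s)) s s' (by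
      show Q (c₀ s) (fun a => c a s)
      rw [hc₀s]
      exact hy)
    exact ⟨c₀ s', this⟩
  · obtain ⟨B, hB, hyB⟩ := hBand s y hyE
    have hpre := band_preconnected hB
    obtain ⟨y', hy'⟩ := hB.ne s'
    have := H1 {p : S × ℝ // p.2 ∈ B p.1} (fun p => cons p.1.2 (γ p.1.1))
      (continuous_cons (by fun_prop) (by fun_prop)) (fun p hp => by
        exact hB.sub _ _ p.2 (Or.inr hp))
      (fun o p => o.elim p.1.2 (fun a => c a p.1.1)) (by
        rintro (_ | a)
        · show Continuous fun p : {p : S × ℝ // p.2 ∈ B p.1} => p.1.2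
          fun_prop
        · show Continuous fun p : {p : S × ℝ // p.2 ∈ B p.1} => c a p.1.1
          have := hc a
          fun_prop) (by
        rintro (_ | a) p
        · exact Or.inr rfl
        · exact Or.inl (hcE a _)) ⟨(s, y), hyB⟩ ⟨(s', y'), hy'⟩ hy
    exact ⟨y', this⟩

theorem Loc.all (hr : Restrained L) {α : Type} [Finite α] {Q : ℝ → (α → ℝ) → Prop}
    (h : Loc L (fun w : Option α → ℝ => Q (w none) (fun i => w (some i)))) :
    Loc L (fun v : α → ℝ => ∀ y, Q y v) :=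
  ((Loc.ex hr (Q := fun y v => ¬ Q y v) h.not).not).congr fun w => by push Not; rfl

end Pool.Agent.TH735
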