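import Mathlib
import Pool.Agent.TH735.Loc

set_option autoImplicit false

/-! Sets definable in the open core. -/

namespace Pool.Agent.TH735

open FirstOrder FirstOrder.Language Set Filter Topology
open Pool.Agent.H671T

variable {L : FirstOrder.Language.{0, 0}} [L.Structure ℝ] [RF L]

theorem Loc.opn (hr : Restrained L) {α : Type} [Finite α] {A : (α → ℝ) → Prop}
    (hA : IsOpen {v | A v}) (hAd : Df L A) : Loc L A :=
  ((Loc.closed hr (A := fun v => ¬ A v) hA.isClosed_compl hAd.not).not).congr fun _ => not_not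

section

variable {L' : FirstOrder.Language.{0, 0}} [L'.Structure ℝ]

theorem term_cases (hfun : ∀ n, IsEmpty (L'.Functions n)) {δ : Type}
    (t : (L'[[(Set.univ : Set ℝ)]]).Term δ) :
    (∃ i, ∀ v : δ → ℝ, t.realize v = v i) ∨ ∃ r : ℝ, ∀ v : δ → ℝ, t.realize v = r := by
  cases t with
  | var i => exact Or.inl ⟨i, fun v => rfl⟩
  | @func n f ts =>
    cases n with
    | zero =>
      refine Or.inr ⟨Structure.funMap f (fun i => i.elim0), fun v => ?_⟩
      rw [Term.realize]
      congr 1
      funext i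
      exact i.elim0
    | succ n =>
      exfalso
      rcases f with f | f
      · exact (hfun _).false f
      · cases f

omit [RF L] in
theorem term_df (hfun : ∀ n, IsEmpty (L'.Functions n)) {δ : Type}
    (t : (L'[[(Set.univ : Set ℝ)]]).Term δ) : DfF L (fun v : δ → ℝ => t.realize v) := by
  rcases term_cases hfun t with ⟨i, hi⟩ | ⟨r, hr⟩
  · simp only [hi]
    exact Dvar i
  · simp only [hr]
    exact Dconst r

theorem term_cont (hfun : ∀ n, IsEmpty (L'.Functions n)) {δ : Type}
    (t : (L'[[(Set.univ : Set ℝ)]]).Term δ) : Continuous (fun v : δ → ℝ => t.realize v) := by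
  rcases term_cases hfun t with ⟨i, hi⟩ | ⟨r, hr⟩
  · simp only [hi]
    exact continuous_apply i
  · simp only [hr]
    exact continuous_const

theorem loc_formula (hr : Restrained L) (hfun : ∀ n, IsEmpty (L'.Functions n))
    (hrel : ∀ (n : ℕ) (R : L'.Relations n),
      IsOpen {v : Fin n → ℝ | Structure.RelMap R v} ∧
      (Set.univ : Set ℝ).Definable L {v : Fin n → ℝ | Structure.RelMap R v})
    {α : Type} [Finite α] {n : ℕ} (φ : (L'[[(Set.univ : Set ℝ)]]).BoundedFormula α n) :
    Loc L (fun w : α ⊕ Fin n → ℝ => φ.Realize (fun a => w (Sum.inl a))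
      (fun j => w (Sum.inr j))) := by
  have hw : ∀ {n : ℕ} (w : α ⊕ Fin n → ℝ), Sum.elim (fun a => w (Sum.inl a))
      (fun j => w (Sum.inr j)) = w := fun w => by
    funext o
    cases o <;> rfl
  induction φ with
  | falsum => exact Loc.const False
  | equal t₁ t₂ =>
    refine (Loc.closed hr (A := fun w => t₁.realize w = t₂.realize w) ?_ ?_).congr fun w => ?_
    · exact isClosed_eq (term_cont hfun t₁) (term_cont hfun t₂)
    · exact Deq (term_df hfun t₁) (term_df hfun t₂)
    · show _ ↔ t₁.realize (Sum.elim (fun a => w (Sum.inl a)) (fun j => w (Sum.inr j))) =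
        t₂.realize (Sum.elim (fun a => w (Sum.inl a)) (fun j => w (Sum.inr j)))
      rw [hw]
  | rel R ts =>
    rcases R with R | R
    · refine (Loc.opn hr (A := fun w => Structure.RelMap R (fun i => (ts i).realize w))
        ?_ ?_).congr fun w => ?_
      · exact (hrel _ R).1.preimage (continuous_pi fun i => term_cont hfun (ts i))
      · exact Df.substT (P := fun v => Structure.RelMap R v) (hrel _ R).2
          (fun i => term_df hfun (ts i))
      · show _ ↔ Structure.RelMap R (fun i => (ts i).realize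
          (Sum.elim (fun a => w (Sum.inl a)) (fun j => w (Sum.inr j))))
        rw [hw]
    · cases R
  | imp φ ψ h1 h2 => exact (h1.imp h2).congr fun w => by rw [BoundedFormula.realize_imp]
  | @all n φ h =>
    have h1 := Loc.all hr (Q := fun y (w : α ⊕ Fin n → ℝ) => φ.Realize (fun a => w (Sum.inl a))
      (Fin.snoc (fun j => w (Sum.inr j)) y)) ?_
    · exact h1.congr fun w => by rw [BoundedFormula.realize_all]
    · have h2 := h.relabel (Sum.elim (fun a => some (Sum.inl a))
        (fun j : Fin (n + 1) => Fin.lastCases none (fun k => some (Sum.inr k)) j) :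
          α ⊕ Fin (n + 1) → Option (α ⊕ Fin n))
      refine h2.congr fun w => ?_
      have : (fun j : Fin (n + 1) => w (Sum.elim (fun a => some (Sum.inl a))
          (fun j : Fin (n + 1) => (Fin.lastCases none (fun k => some (Sum.inr k)) j :
            Option (α ⊕ Fin n))) (Sum.inr j))) =
          (Fin.snoc (fun j : Fin n => w (some (Sum.inr j))) (w none) : Fin (n + 1) → ℝ) := by
        funext j
        refine Fin.lastCases ?_ (fun k => ?_) j
        · simp
        · simp
      rw [this]
      rfl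

theorem loc_of_definable (hr : Restrained L) (hfun : ∀ n, IsEmpty (L'.Functions n))
    (hrel : ∀ (n : ℕ) (R : L'.Relations n),
      IsOpen {v : Fin n → ℝ | Structure.RelMap R v} ∧
      (Set.univ : Set ℝ).Definable L {v : Fin n → ℝ | Structure.RelMap R v})
    {α : Type} [Finite α] {X : Set (α → ℝ)} (hX : (Set.univ : Set ℝ).Definable L' X) :
    Loc L (fun w => w ∈ X) := by
  obtain ⟨φ, rfl⟩ := hX
  have h := (loc_formula (L := L) hr hfun hrel (α := α) (n := 0) φ).relabel
    (Sum.elim id (fun i : Fin 0 => i.elim0) : α ⊕ Fin 0 → α)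
  refine h.congr fun w => ?_
  rw [mem_ofPred_eq, Formula.Realize]
  exact iff_of_eq (congrArg (BoundedFormula.Realize φ w) (Subsingleton.elim _ _))

end

omit [RF L] in
theorem nice_coords {α : Type} [Finite α] : Nice L (fun x : α → ℝ => {y | ∃ i, y = x i}) where
  closed := isClosed_ex_fin fun i => isClosed_eq (by fun_prop) (by fun_prop)
  nd := by
    by_contra hne
    obtain ⟨⟨x₀, y₀⟩, h⟩ := nonempty_iff_ne_empty.2 hne
    have hc : Continuous (fun y : ℝ => (x₀, y)) := by fun_prop
    have hsub : (fun y : ℝ => (x₀, y)) ⁻¹' interior {p : (α → ℝ) × ℝ | ∃ i, p.2 = p.1 i} ⊆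
        Set.range x₀ := fun y hy => by
      have h1 : (x₀, y) ∈ {p : (α → ℝ) × ℝ | ∃ i, p.2 = p.1 i} := interior_subset hy
      obtain ⟨i, hi⟩ := h1
      exact ⟨i, hi.symm⟩
    have hV := interior_maximal hsub (isOpen_interior.preimage hc)
    have hfin : (Set.range x₀).Finite := Set.finite_range x₀
    rw [interior_eq_empty_iff_dense_compl.2 (hfin.countable.dense_compl ℝ)] at hV
    exact hV h
  df := Df.ex_fin fun i => Deq (Dvar _) (Dvar _)

omit [RF L] in
/-- A `Loc` relation is locally constant off a small set. -/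
theorem Loc.locally {α : Type} [Finite α] {X : Set (α → ℝ)} (h : Loc L (fun w => w ∈ X)) :
    ∃ Z : Set (α → ℝ), Small L Z ∧ ∀ x, x ∉ Z → ∀ᶠ x' in 𝓝 x, (x' ∈ X ↔ x ∈ X) := by
  obtain ⟨Z, hZ, H⟩ := h α _ (nice_coords (L := L))
  refine ⟨Z, hZ, fun x hx => ?_⟩
  have := Fintype.ofFinite α
  obtain ⟨ρ, hρ, hb⟩ := Metric.mem_nhds_iff.1 (hZ.closed.isOpen_compl.mem_nhds hx)
  have hpc : PreconnectedSpace ↥(Metric.ball x ρ) :=
    Subtype.preconnectedSpace (convex_ball x ρ).isPreconnected
  have key := H ↥(Metric.ball x ρ) (fun s => s.1) continuous_subtype_val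
    (fun s => hb s.2) (fun a s => s.1 a)
    (fun a => (continuous_apply a).comp continuous_subtype_val) (fun a s => ⟨a, rfl⟩)
  filter_upwards [Metric.ball_mem_nhds x hρ] with x' hx'
  exact ⟨fun h => key ⟨x', hx'⟩ ⟨x, Metric.mem_ball_self hρ⟩ h,
    fun h => key ⟨x, Metric.mem_ball_self hρ⟩ ⟨x', hx'⟩ h⟩

theorem frontier_of_locally {α : Type} {X Z : Set (α → ℝ)} (hZ : interior Z = ∅)
    (h : ∀ x, x ∉ Z → ∀ᶠ x' in 𝓝 x, (x' ∈ X ↔ x ∈ X)) : interior (frontier X) = ∅ := by
  have hsub : frontier X ⊆ Z := by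
    intro x hx
    by_contra hxZ
    have h1 := h x hxZ
    rw [frontier_eq_closure_inter_closure] at hx
    obtain ⟨hx1, hx2⟩ := hx
    rw [mem_closure_iff_frequently] at hx1 hx2
    obtain ⟨y, hy, hy'⟩ := (hx1.and_eventually h1).exists
    obtain ⟨z, hz, hz'⟩ := (hx2.and_eventually h1).exists
    exact hz (hz'.2 (hy'.1 hy))
  have := interior_mono hsub
  rw [hZ] at this
  exact subset_empty_iff.1 this

end Pool.Agent.TH735
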